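import Mathlib

/-!
# Row A2: the Taylor polynomial of `1 / (1 + x) ^ k` (MEDIUM, ONLY MATHLIB)

Plan: for `|x| < 1`: `1 / (1 + x) ^ k = ∑' i, (i + k - 1).choose (k - 1) * (-x) ^ i`
(`tsum_choose_mul_geometric_of_norm_lt_one`/`hasSum_choose_mul_geometric_of_norm_lt_one` with `k - 1`, `r = -x`).  The
remainder is `∑' i, (i + N + k - 1).choose (k - 1) * (-x) ^ (i + N)` (`Summable.sum_add_tsum_nat_add`), of absolute
value at most `|x| ^ N ∑' i, (i + N + k - 1).choose (k - 1) * |x| ^ i`, and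
`(i + N + k - 1).choose (k - 1) ≤ (N + 1) ^ (k - 1) * (i + k - 1).choose (k - 1)`
(induction on `k`: `(k) * (a + k).choose k = (a + k) * (a + k - 1).choose (k - 1)` and
`i + N + k ≤ (N + 1) (i + k)` for `k ≥ 1`), and `∑' i, (i + k - 1).choose (k - 1) * |x| ^ i = 1 / (1 - |x|) ^ k ≤ 2 ^ k`.
-/

namespace CM68

open Finset

theorem choose_shift (k N i : ℕ) :
    (i + N + k).choose k ≤ (N + 1) ^ k * (i + k).choose k := by
  induction k with
  | zero => simp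
  | succ k ih =>
    have h1 := Nat.add_one_mul_choose_eq (i + N + k) k
    have h2 := Nat.add_one_mul_choose_eq (i + k) k
    have h3 : i + N + k + 1 ≤ (N + 1) * (i + k + 1) := by nlinarith [Nat.zero_le (N * (i + k))]
    refine Nat.le_of_mul_le_mul_right (c := k + 1) ?_ (Nat.succ_pos k)
    calc (i + N + (k + 1)).choose (k + 1) * (k + 1)
        = (i + N + k + 1) * (i + N + k).choose k := h1.symm
      _ ≤ ((N + 1) * (i + k + 1)) * ((N + 1) ^ k * (i + k).choose k) := Nat.mul_le_mul h3 ih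
      _ = (N + 1) ^ (k + 1) * ((i + k + 1) * (i + k).choose k) := by ring
      _ = (N + 1) ^ (k + 1) * ((i + (k + 1)).choose (k + 1) * (k + 1)) := by rw [h2]; rfl
      _ = (N + 1) ^ (k + 1) * (i + (k + 1)).choose (k + 1) * (k + 1) := by ring

theorem taylorK {x : ℝ} (hx : |x| ≤ 1 / 2) {k : ℕ} (hk : 1 ≤ k) (N : ℕ) :
    |1 / (1 + x) ^ k - ∑ i ∈ range N, ((i + (k - 1)).choose (k - 1) : ℝ) * (-x) ^ i| ≤
      2 ^ k * ((N : ℝ) + 1) ^ k * |x| ^ N := by
  obtain ⟨K, rfl⟩ : ∃ K, k = K + 1 := ⟨k - 1, by omega⟩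
  simp only [Nat.add_sub_cancel]
  have hx1 : ‖-x‖ < 1 := by
    rw [norm_neg, Real.norm_eq_abs]
    linarith
  have hx2 : ‖|x|‖ < 1 := by
    rw [Real.norm_eq_abs, abs_abs]
    linarith
  have hS := hasSum_choose_mul_geometric_of_norm_lt_one K hx1
  have hT := hasSum_choose_mul_geometric_of_norm_lt_one K hx2
  have h1 : (1 : ℝ) - -x = 1 + x := by ring
  rw [h1] at hS
  have h2 := hS.summable.sum_add_tsum_nat_add N
  rw [hS.tsum_eq] at h2
  have h3 : 1 / (1 + x) ^ (K + 1) - ∑ i ∈ range N, ((i + K).choose K : ℝ) * (-x) ^ i =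
      ∑' i, ((i + N + K).choose K : ℝ) * (-x) ^ (i + N) := by
    rw [← h2]
    ring
  rw [h3, ← Real.norm_eq_abs]
  have h4 : HasSum (fun i : ℕ => ((N : ℝ) + 1) ^ K * |x| ^ N * (((i + K).choose K : ℝ) * |x| ^ i))
      (((N : ℝ) + 1) ^ K * |x| ^ N * (1 / (1 - |x|) ^ (K + 1))) := hT.mul_left _
  have h5 : ‖∑' i, ((i + N + K).choose K : ℝ) * (-x) ^ (i + N)‖ ≤
      ((N : ℝ) + 1) ^ K * |x| ^ N * (1 / (1 - |x|) ^ (K + 1)) := by
    refine tsum_of_norm_bounded h4 (fun i => ?_)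
    rw [norm_mul, norm_pow, norm_neg, Real.norm_eq_abs, Real.norm_eq_abs, abs_of_nonneg
      (Nat.cast_nonneg _)]
    have h6 : ((i + N + K).choose K : ℝ) ≤ ((N : ℝ) + 1) ^ K * ((i + K).choose K : ℝ) := by
      exact_mod_cast choose_shift K N i
    calc ((i + N + K).choose K : ℝ) * |x| ^ (i + N)
        ≤ (((N : ℝ) + 1) ^ K * ((i + K).choose K : ℝ)) * |x| ^ (i + N) :=
          mul_le_mul_of_nonneg_right h6 (by positivity)
      _ = ((N : ℝ) + 1) ^ K * |x| ^ N * (((i + K).choose K : ℝ) * |x| ^ i) := by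
          rw [pow_add]
          ring
  refine h5.trans ?_
  have h7 : 1 / (1 - |x|) ^ (K + 1) ≤ 2 ^ (K + 1) := by
    have h8 : (1 / 2 : ℝ) ≤ 1 - |x| := by linarith
    have h9 : (1 / 2 : ℝ) ^ (K + 1) ≤ (1 - |x|) ^ (K + 1) :=
      pow_le_pow_left₀ (by norm_num) h8 _
    rw [div_le_iff₀ (lt_of_lt_of_le (by positivity) h9)]
    calc (1 : ℝ) = 2 ^ (K + 1) * (1 / 2) ^ (K + 1) := by
          rw [← mul_pow]
          norm_num
      _ ≤ 2 ^ (K + 1) * (1 - |x|) ^ (K + 1) := mul_le_mul_of_nonneg_left h9 (by positivity)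
  have h10 : ((N : ℝ) + 1) ^ K ≤ ((N : ℝ) + 1) ^ (K + 1) := by
    refine pow_le_pow_right₀ ?_ (Nat.le_succ K)
    have : (0 : ℝ) ≤ N := Nat.cast_nonneg N
    linarith
  calc ((N : ℝ) + 1) ^ K * |x| ^ N * (1 / (1 - |x|) ^ (K + 1))
      ≤ ((N : ℝ) + 1) ^ (K + 1) * |x| ^ N * 2 ^ (K + 1) := by
        refine mul_le_mul (mul_le_mul_of_nonneg_right h10 (by positivity)) h7 ?_ (by positivity)
        refine div_nonneg zero_le_one (pow_nonneg ?_ _)
        linarith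
    _ = 2 ^ (K + 1) * ((N : ℝ) + 1) ^ (K + 1) * |x| ^ N := by ring

end CM68
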