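import Mathlib

/-!
# Row A2: the least common multiple of `1, …, m`

Plan: `Chebyshev.psi_eq_log_lcmUpto`, `Chebyshev.psi_le_const_mul_self`, `log 4 + 4 ≤ 8 log 2`
(`Real.log_two_gt_d9`).
-/

namespace CM68

theorem lcm_le (m : ℕ) : Nat.lcmUpto m ≤ 2 ^ (8 * m) := by
  have h1 := Chebyshev.psi_eq_log_lcmUpto m
  have h2 := Chebyshev.psi_le_const_mul_self (x := (m : ℝ)) (Nat.cast_nonneg m)
  have h3 : Real.log 4 = 2 * Real.log 2 := by
    rw [show (4 : ℝ) = 2 ^ 2 by norm_num, Real.log_pow]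
    norm_num
  have h4 := Real.log_two_gt_d9
  have hm : (0 : ℝ) ≤ m := Nat.cast_nonneg m
  have h5 : Real.log (Nat.lcmUpto m : ℝ) ≤ (8 * m : ℕ) * Real.log 2 := by
    rw [← h1]
    refine h2.trans ?_
    rw [h3]
    push_cast
    nlinarith
  have h6 : (0 : ℝ) < (Nat.lcmUpto m : ℝ) := by
    exact_mod_cast Nat.lcmUpto_pos m
  have h7 : (Nat.lcmUpto m : ℝ) ≤ (2 : ℝ) ^ (8 * m) := by
    rw [← Real.log_pow] at h5
    exact (Real.log_le_log_iff h6 (by positivity)).1 h5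
  exact_mod_cast h7

theorem dvd_lcm' {a m : ℕ} (h1 : 1 ≤ a) (h2 : a ≤ m) : a ∣ Nat.lcmUpto m := by
  unfold Nat.lcmUpto
  exact Finset.dvd_lcm (f := id) (Finset.mem_Icc.2 ⟨h1, h2⟩)

end CM68
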