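import Pool.Agent.LibCM68.Defs
import Pool.Agent.LibCM68.WL

/-!
# Row S1: sizes of the multiplier and the binomials (SHORT/MEDIUM; template LibHZ7 row B1, store HZ7_B1.lean)

Plan: `W_le`: every factor: `|j - q (n + T) + q i| ≤ q * win` (`0 ≤ j < q n`, `i < win = 2 T + n + 1`), so the product
is at most `(q * win) ^ win`; `win ^ win / win! ≤ exp win` (`Real.pow_div_factorial_le_exp`);
`lcm_le : Nat.lcmUpto m ≤ 2 ^ (8 * m)` (file WL).
`ch_le`: `Nat.choose_le_pow_div` (`C(j,i) ≤ j ^ i / i!`), `j ^ i ≤ Q ^ i a ^ i`, `a ^ i / i! ≤ exp a`.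
`W_natDegree`, `W_ne`: `natDegree_prod_le` or `monic_prod_of_monic`; `bet > 0`.
-/

namespace CM68

open Finset Polynomial

private theorem S1_bet_pos {q : ℕ} (n T : ℕ) (hq : 1 ≤ q) : 0 < bet q n T := by
  have hq0 : (0 : ℝ) < q := by exact_mod_cast hq
  have hl : (0 : ℝ) < (Nat.lcmUpto (win n T) : ℝ) := by exact_mod_cast Nat.lcmUpto_pos _
  have hf : (0 : ℝ) < ((win n T).factorial : ℝ) := by exact_mod_cast Nat.factorial_pos _
  unfold bet
  positivity

private theorem S1_eval (q n T w : ℕ) (x : ℝ) : (WP q n T w).eval x =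
    (bet q n T * ∏ i ∈ range (win n T), (x + (-(q : ℝ) * (n + T) + q * i))) ^ w := by
  simp only [WP, eval_pow, eval_mul, eval_C, eval_prod, eval_add, eval_X]

theorem W_le {q n T w j : ℕ} (hq : 1 ≤ q) (hj : j < q * n) :
    |(WP q n T w).eval (j : ℝ)| ≤ Wb q n T w := by
  have hq1 : (1 : ℝ) ≤ q := by exact_mod_cast hq
  have hq0 : (0 : ℝ) < q := by linarith
  have hn0 : (0 : ℝ) ≤ n := Nat.cast_nonneg n
  have hT0 : (0 : ℝ) ≤ T := Nat.cast_nonneg T
  have hj1 : (j : ℝ) < q * n := by exact_mod_cast hj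
  have hj0 : (0 : ℝ) ≤ j := Nat.cast_nonneg j
  have hwin : (win n T : ℝ) = 2 * T + n + 1 := by
    unfold win
    push_cast
    ring
  rw [S1_eval, abs_pow]
  have hbp := S1_bet_pos n T hq
  have hbet : |bet q n T| = bet q n T := abs_of_pos hbp
  have hprod : |∏ i ∈ range (win n T), ((j : ℝ) + (-(q : ℝ) * (n + T) + q * i))| ≤
      ((q : ℝ) * win n T) ^ win n T := by
    rw [Finset.abs_prod]
    calc ∏ i ∈ range (win n T), |(j : ℝ) + (-(q : ℝ) * (n + T) + q * i)|
        ≤ ∏ _i ∈ range (win n T), ((q : ℝ) * win n T) := by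
          refine Finset.prod_le_prod (fun _ _ => abs_nonneg _) fun i hi => ?_
          have hi1 : (i : ℝ) ≤ 2 * T + n := by
            have h1 := Finset.mem_range.mp hi
            have h2 : i ≤ 2 * T + n := by
              unfold win at h1
              omega
            exact_mod_cast h2
          have hi0 : (0 : ℝ) ≤ i := Nat.cast_nonneg i
          have hqn : (0 : ℝ) ≤ q * n := by positivity
          have hqT : (0 : ℝ) ≤ q * T := by positivity
          have hqi : (q : ℝ) * i ≤ q * (2 * T + n) := by gcongr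
          have hqi0 : (0 : ℝ) ≤ q * i := by positivity
          rw [hwin, abs_le]
          constructor
          · nlinarith
          · nlinarith
      _ = ((q : ℝ) * win n T) ^ win n T := by
          rw [Finset.prod_const, Finset.card_range]
  have hlcm : (Nat.lcmUpto (win n T) : ℝ) ≤ 2 ^ (8 * win n T) := by
    exact_mod_cast lcm_le (win n T)
  have hexp : ((win n T : ℕ) : ℝ) ^ win n T / ((win n T).factorial : ℝ) ≤
      Real.exp ((win n T : ℕ) : ℝ) := Real.pow_div_factorial_le_exp _ (Nat.cast_nonneg _) _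
  have hfac : (0 : ℝ) < ((win n T).factorial : ℝ) := by exact_mod_cast Nat.factorial_pos _
  unfold Wb
  refine pow_le_pow_left₀ (abs_nonneg _) ?_ w
  rw [abs_mul, hbet]
  calc bet q n T * |∏ i ∈ range (win n T), ((j : ℝ) + (-(q : ℝ) * (n + T) + q * i))|
      ≤ bet q n T * ((q : ℝ) * win n T) ^ win n T :=
        mul_le_mul_of_nonneg_left hprod hbp.le
    _ = (q : ℝ) ^ (2 * win n T) * (Nat.lcmUpto (win n T) : ℝ) *
          ((win n T : ℝ) ^ win n T / ((win n T).factorial : ℝ)) := by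
        rw [bet, mul_pow, two_mul (win n T), pow_add]
        ring
    _ ≤ (q : ℝ) ^ (2 * win n T) * 2 ^ (8 * win n T) * Real.exp (win n T) := by
        gcongr

theorem ch_le {Q a i j : ℕ} (hj : j ≤ Q * a) : (j.choose i : ℝ) ≤ Real.exp a * (Q : ℝ) ^ i := by
  have h1 : (j.choose i : ℝ) ≤ (j : ℝ) ^ i / (i.factorial : ℝ) := Nat.choose_le_pow_div i j
  have h2 : (a : ℝ) ^ i / (i.factorial : ℝ) ≤ Real.exp a :=
    Real.pow_div_factorial_le_exp _ (Nat.cast_nonneg _) _
  have hj1 : (j : ℝ) ≤ Q * a := by exact_mod_cast hj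
  have hfac : (0 : ℝ) < (i.factorial : ℝ) := by exact_mod_cast Nat.factorial_pos _
  calc (j.choose i : ℝ) ≤ (j : ℝ) ^ i / (i.factorial : ℝ) := h1
    _ ≤ ((Q : ℝ) * a) ^ i / (i.factorial : ℝ) := by gcongr
    _ = (a : ℝ) ^ i / (i.factorial : ℝ) * (Q : ℝ) ^ i := by rw [mul_pow]; ring
    _ ≤ Real.exp a * (Q : ℝ) ^ i := by gcongr

theorem W_natDegree (q n T w : ℕ) : (WP q n T w).natDegree ≤ w * win n T := by
  unfold WP
  refine natDegree_pow_le.trans ?_
  refine Nat.mul_le_mul_left w ?_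
  refine (natDegree_C_mul_le _ _).trans ?_
  refine (natDegree_prod_le _ _).trans ?_
  calc ∑ i ∈ range (win n T), (X + C (-(q : ℝ) * (n + T) + q * i) : ℝ[X]).natDegree
      ≤ ∑ _i ∈ range (win n T), 1 := Finset.sum_le_sum fun i _ => by rw [natDegree_X_add_C]
    _ = win n T := by simp

theorem W_ne {q : ℕ} (n T w : ℕ) (hq : 1 ≤ q) : WP q n T w ≠ 0 := by
  unfold WP
  refine pow_ne_zero w (mul_ne_zero ?_ ?_)
  · exact C_ne_zero.mpr (S1_bet_pos n T hq).ne'
  · exact Finset.prod_ne_zero_iff.mpr fun i _ => X_add_C_ne_zero _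

theorem W_eval_ne {q n T w : ℕ} (hq : 1 ≤ q) {j : ℕ} (hj : 0 < j % q) :
    (WP q n T w).eval (j : ℝ) ≠ 0 := by
  rw [S1_eval]
  refine pow_ne_zero w (mul_ne_zero (S1_bet_pos n T hq).ne' ?_)
  refine Finset.prod_ne_zero_iff.mpr fun i _ => ?_
  intro h0
  have h1 : (j : ℝ) + q * i = q * (n + T) := by linarith
  have h2 : j + q * i = q * (n + T) := by exact_mod_cast h1
  have h3 : (j + q * i) % q = 0 := by
    rw [h2]
    exact Nat.mul_mod_right _ _
  rw [Nat.add_mul_mod_self_left] at h3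
  omega

end CM68
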