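import Pool.Agent.LibCM68.Defs

/-!
# Row Z4a: the partial sums on a class, the number of nodes, the common denominator (MEDIUM)

Plan: `ps_shift`: `(u + q l) / q = u / q + l`, `(u + q l) % q = u % q` (`Nat.add_mul_div_left`, `Nat.add_mul_mod_self_left`),
`Finset.sum_range_add`-like: the new terms `m = u / q + T + 1 + l'` are `q m + u % q = u + q (T + 1 + l')`.
`card_nodes`: the map `(x, i) ↦ q i + x` from `I × range n'` (`HZ89.card_P`-like, HZ7_E4), injective since `x < q`.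
`DP_sum`: the factor `(X + C (c + q (T + 1 + l')))^k` divides `DP` (`Finset.dvd_prod_of_mem` twice, `k ≤ w`), the quotient
has degree `≤ natDegree DP` (`natDegree_le_of_dvd`, `DP_ne`); take the sum over `l' < l`.
-/

namespace CM68

open Finset Polynomial

theorem ps_shift {q : ℕ} (hq : 1 ≤ q) (T k u l : ℕ) :
    ps q T k (u + q * l) = ps q T k u + ∑ l' ∈ range l, 1 / ((u : ℝ) + (q : ℝ) * (T + 1 + l')) ^ k := by
  have h1 : (u + q * l) / q = u / q + l := by
    rw [Nat.add_mul_div_left u l (by omega)]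
  have h2 : (u + q * l) % q = u % q := Nat.add_mul_mod_self_left u q l
  unfold ps
  rw [h1, h2]
  have h3 : u / q + l + T + 1 = (u / q + T + 1) + l := by ring
  rw [h3, Finset.sum_range_add]
  congr 1
  apply Finset.sum_congr rfl
  intro l' _
  congr 2
  have h4 : (u : ℝ) = (q : ℝ) * ((u / q : ℕ) : ℝ) + ((u % q : ℕ) : ℝ) := by
    exact_mod_cast (Nat.div_add_mod u q).symm
  rw [h4]
  push_cast
  ring

theorem card_nodes {q n' : ℕ} {I : Finset ℕ} (hq : 1 ≤ q) (hI : ∀ x ∈ I, x < q) :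
    (P q n' I).card = I.card * n' := by
  have h : P q n' I = (I ×ˢ range n').image fun p => q * p.2 + p.1 := by
    ext j
    simp only [P, mem_filter, mem_range, mem_image, mem_product, Prod.exists]
    constructor
    · rintro ⟨h1, h2⟩
      refine ⟨j % q, j / q, ⟨h2, ?_⟩, Nat.div_add_mod j q⟩
      exact Nat.div_lt_of_lt_mul h1
    · rintro ⟨x, i, ⟨hx, hi⟩, rfl⟩
      have hxq := hI x hx
      refine ⟨?_, ?_⟩
      · calc q * i + x < q * i + q := by omega
          _ = q * (i + 1) := by ring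
          _ ≤ q * n' := Nat.mul_le_mul_left _ hi
      · rw [Nat.mul_add_mod, Nat.mod_eq_of_lt hxq]
        exact hx
  rw [h, card_image_of_injOn, card_product, card_range]
  rintro ⟨x, i⟩ hp ⟨x', i'⟩ hp' heq
  simp only [coe_product, Set.mem_prod, mem_coe] at hp hp'
  have hxq := hI x hp.1
  have hxq' := hI x' hp'.1
  simp only at heq
  have hm : (q * i + x) % q = (q * i' + x') % q := by rw [heq]
  rw [Nat.mul_add_mod, Nat.mul_add_mod, Nat.mod_eq_of_lt hxq, Nat.mod_eq_of_lt hxq'] at hm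
  subst hm
  have h5 : q * i = q * i' := by omega
  have h6 : i = i' := Nat.eq_of_mul_eq_mul_left (by omega) h5
  rw [h6]

/-- the common denominator -/
noncomputable def DP (q T w L : ℕ) (Cs : Finset ℕ) : ℝ[X] :=
  ∏ c ∈ Cs, ∏ l' ∈ range L, (X + C ((c : ℝ) + (q : ℝ) * (T + 1 + l'))) ^ w

theorem DP_natDegree (q T w L : ℕ) (Cs : Finset ℕ) :
    (DP q T w L Cs).natDegree ≤ w * L * Cs.card := by
  unfold DP
  refine (natDegree_prod_le _ _).trans ?_
  calc ∑ c ∈ Cs, natDegree (∏ l' ∈ range L, (X + C ((c : ℝ) + (q : ℝ) * (T + 1 + l'))) ^ w)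
      ≤ ∑ _c ∈ Cs, w * L := by
        apply Finset.sum_le_sum
        intro c _
        refine (natDegree_prod_le _ _).trans ?_
        calc ∑ l' ∈ range L, natDegree ((X + C ((c : ℝ) + (q : ℝ) * (T + 1 + l'))) ^ w)
            ≤ ∑ _l' ∈ range L, w := by
              apply Finset.sum_le_sum
              intro l' _
              refine natDegree_pow_le.trans ?_
              rw [natDegree_X_add_C, mul_one]
          _ = w * L := by
              rw [sum_const, card_range, smul_eq_mul, mul_comm]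
    _ = w * L * Cs.card := by
        rw [sum_const, smul_eq_mul, mul_comm]

theorem DP_ne (q T w L : ℕ) (Cs : Finset ℕ) : DP q T w L Cs ≠ 0 := by
  unfold DP
  rw [Finset.prod_ne_zero_iff]
  intro c _
  rw [Finset.prod_ne_zero_iff]
  intro l' _
  exact pow_ne_zero _ (X_add_C_ne_zero _)

theorem DP_pos {q : ℕ} (T w L : ℕ) (Cs : Finset ℕ) (hq : 1 ≤ q) {y : ℝ} (hy : 0 ≤ y) :
    0 < (DP q T w L Cs).eval y := by
  unfold DP
  rw [eval_prod]
  apply Finset.prod_pos
  intro c _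
  rw [eval_prod]
  apply Finset.prod_pos
  intro l' _
  rw [eval_pow, eval_add, eval_X, eval_C]
  apply pow_pos
  have h1 : (1 : ℝ) ≤ q := by exact_mod_cast hq
  have h2 : (0 : ℝ) < (q : ℝ) * (T + 1 + l') := by positivity
  have h3 : (0 : ℝ) ≤ (c : ℝ) := Nat.cast_nonneg c
  linarith

/-- `DP * ∑_{l' < l} (X + c + q (T + 1 + l'))^(-k)` is a polynomial -/
theorem DP_sum {q T w L k l c : ℕ} {Cs : Finset ℕ} (hq : 1 ≤ q) (hkw : k ≤ w) (hl : l ≤ L)
    (hc : c ∈ Cs) :
    ∃ g : ℝ[X], g.natDegree ≤ w * L * Cs.card ∧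
      algebraMap ℝ[X] (FractionRing ℝ[X]) g = algebraMap ℝ[X] (FractionRing ℝ[X]) (DP q T w L Cs) *
        ∑ l' ∈ range l,
          1 / algebraMap ℝ[X] (FractionRing ℝ[X]) (X + C ((c : ℝ) + (q : ℝ) * (T + 1 + l'))) ^ k ∧
      ∀ y : ℝ, 0 ≤ y →
        g.eval y = (DP q T w L Cs).eval y *
          ∑ l' ∈ range l, 1 / (y + ((c : ℝ) + (q : ℝ) * (T + 1 + l'))) ^ k := by
  have hdvd : ∀ l' : ℕ, l' < l → ∃ r : ℝ[X], r.natDegree ≤ w * L * Cs.card ∧
      DP q T w L Cs = (X + C ((c : ℝ) + (q : ℝ) * (T + 1 + l'))) ^ k * r := by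
    intro l' hl'
    have h1 : (X + C ((c : ℝ) + (q : ℝ) * (T + 1 + l'))) ^ k ∣ DP q T w L Cs := by
      have h2 : (X + C ((c : ℝ) + (q : ℝ) * (T + 1 + l'))) ^ k ∣
          (X + C ((c : ℝ) + (q : ℝ) * (T + 1 + l'))) ^ w := pow_dvd_pow _ hkw
      have h3 : (X + C ((c : ℝ) + (q : ℝ) * (T + 1 + l'))) ^ w ∣
          ∏ l' ∈ range L, (X + C ((c : ℝ) + (q : ℝ) * (T + 1 + l'))) ^ w :=
        Finset.dvd_prod_of_mem (fun l' : ℕ => (X + C ((c : ℝ) + (q : ℝ) * (T + 1 + l'))) ^ w)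
          (mem_range.2 (lt_of_lt_of_le hl' hl))
      have h4 : ∏ l' ∈ range L, (X + C ((c : ℝ) + (q : ℝ) * (T + 1 + l'))) ^ w ∣ DP q T w L Cs :=
        Finset.dvd_prod_of_mem
          (fun c : ℕ => ∏ l' ∈ range L, (X + C ((c : ℝ) + (q : ℝ) * (T + 1 + l'))) ^ w) hc
      exact h2.trans (h3.trans h4)
    obtain ⟨r, hr⟩ := h1
    refine ⟨r, ?_, hr⟩
    have h5 : r ∣ DP q T w L Cs := ⟨_, by rw [hr, mul_comm]⟩
    exact (natDegree_le_of_dvd h5 (DP_ne q T w L Cs)).trans (DP_natDegree q T w L Cs)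
  choose! r hr1 hr2 using hdvd
  refine ⟨∑ l' ∈ range l, r l', ?_, ?_, ?_⟩
  · exact natDegree_sum_le_of_forall_le _ _ fun l' hl' => hr1 l' (mem_range.1 hl')
  · rw [map_sum, Finset.mul_sum]
    apply Finset.sum_congr rfl
    intro l' hl'
    rw [hr2 l' (mem_range.1 hl'), map_mul, map_pow]
    have hne : algebraMap ℝ[X] (FractionRing ℝ[X]) (X + C ((c : ℝ) + (q : ℝ) * (T + 1 + l'))) ≠ 0 := by
      rw [Ne, FaithfulSMul.algebraMap_eq_zero_iff]
      exact X_add_C_ne_zero _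
    field_simp
  · intro y hy
    rw [eval_finsetSum, Finset.mul_sum]
    apply Finset.sum_congr rfl
    intro l' hl'
    rw [hr2 l' (mem_range.1 hl'), eval_mul, eval_pow, eval_add, eval_X, eval_C]
    have h1 : (1 : ℝ) ≤ q := by exact_mod_cast hq
    have h2 : (0 : ℝ) < (q : ℝ) * (T + 1 + l') := by positivity
    have h3 : (0 : ℝ) ≤ (c : ℝ) := Nat.cast_nonneg c
    have hne : y + ((c : ℝ) + (q : ℝ) * (T + 1 + l')) ≠ 0 := by
      have : 0 < y + ((c : ℝ) + (q : ℝ) * (T + 1 + l')) := by linarith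
      exact this.ne'
    field_simp

end CM68
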