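import Pool.Agent.LibCM68.Defs2

/-!
# Row REP: the data of a set of exceptional points (MEDIUM)

Plan: `hz_scale`: `q m + x = q (m + x / q)`, `tsum_mul_left`.  `1 - x / q = (q - x) / q`.
A basis `1 = ξ₀, ξ₁, …, ξ_s` of `V`: it is enough to have `ξ : Fin s → ℝ` such that every `v ∈ V` is
`b₀ + ∑ b l * ξ l` with rational `b₀, b` (`finrank V = s + 1`; the quotient of `V` by the line of `1` has dimension `s`:
`Submodule.finrank_quotient_add_finrank`, `Module.finBasis`, lift the basis; or `Submodule.exists_isCompl`).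
Take `al (k, c) x = q^k (lam c k - (-1)^k mu c k)`, `ta (k, c) x = q^k (-1)^k mu c k` with `lam, mu` chosen for `x ∈ I`:
`al * s_k(y) + ta * (s_k(y) + (-1)^k s_k(q - y)) = q^k (lam * s_k(y) + mu * s_k(q - y)) = lam * hz k (y/q) + mu * hz k (1 - y/q)`,
`y = (x + c) % q`.  `Finset.sum_product` (order `(k, c)`; `Finset.sum_comm`).
-/

namespace CM68

open Finset

theorem hz_scale {q : ℕ} (hq : 1 ≤ q) (k : ℕ) (x : ℝ) :
    hz k (x / q) = (q : ℝ) ^ k * sk q k x := by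
  have h0 : (q : ℝ) ≠ 0 := by
    have : (0 : ℝ) < q := by exact_mod_cast hq
    exact this.ne'
  unfold hz sk
  rw [← tsum_mul_left]
  refine tsum_congr fun m => ?_
  have h1 : (q : ℝ) * m + x = q * ((m : ℝ) + x / q) := by field_simp
  have h2 : (q : ℝ) ^ k ≠ 0 := pow_ne_zero _ h0
  rw [h1, mul_pow, ← one_div_mul_one_div, ← mul_assoc, mul_one_div_cancel h2, one_mul]

/-- a basis of a space that contains `1` -/
private theorem basis1 {s : ℕ} (V : Submodule ℚ ℝ) (hV : Module.Finite ℚ V) (h1 : (1 : ℝ) ∈ V)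
    (hs : Module.finrank ℚ V = s + 1) :
    ∃ ξ : Fin s → ℝ, ∀ v ∈ V, ∃ (b₀ : ℚ) (b : Fin s → ℚ), v = (b₀ : ℝ) + ∑ l, (b l : ℝ) * ξ l := by
  classical
  set one : V := ⟨1, h1⟩ with hone
  have hone0 : one ≠ 0 := by
    intro h
    have := congrArg (Subtype.val) h
    simp [hone] at this
  set N : Submodule ℚ V := Submodule.span ℚ {one} with hN
  have hf : Module.finrank ℚ (V ⧸ N) = s := by
    have h2 := Submodule.finrank_quotient_add_finrank N
    rw [hN, finrank_span_singleton hone0, hs] at h2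
    rw [hN]
    omega
  let bq : Module.Basis (Fin s) ℚ (V ⧸ N) := Module.finBasisOfFinrankEq ℚ (V ⧸ N) hf
  choose ξ' hξ' using fun l : Fin s => N.mkQ_surjective (bq l)
  refine ⟨fun l => (ξ' l : ℝ), fun v hv => ?_⟩
  set v' : V := ⟨v, hv⟩ with hv'
  have h3 : N.mkQ (v' - ∑ l, (bq.repr (N.mkQ v') l) • ξ' l) = 0 := by
    rw [map_sub, map_sum]
    simp only [map_smul, hξ']
    rw [bq.sum_repr]
    exact sub_self _
  have h4 : v' - ∑ l, (bq.repr (N.mkQ v') l) • ξ' l ∈ N := by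
    exact (Submodule.Quotient.mk_eq_zero N).1 h3
  obtain ⟨a, ha⟩ := Submodule.mem_span_singleton.1 h4
  refine ⟨a, fun l => bq.repr (N.mkQ v') l, ?_⟩
  have h5 := congrArg (Subtype.val) ha
  simp only [hone, hv', Submodule.coe_smul, Submodule.coe_sub, Submodule.coe_sum] at h5
  rw [Rat.smul_one_eq_cast] at h5
  rw [h5]
  simp only [Rat.smul_def]
  ring

theorem rep {q w s : ℕ} {J Cs I : Finset ℕ} (hq : 2 ≤ q) (hJ : ∀ k ∈ J, 2 ≤ k ∧ k ≤ w)
    (hC : ∀ c ∈ Cs, c < q) (V : Submodule ℚ ℝ) (hV : Module.Finite ℚ V) (h1 : (1 : ℝ) ∈ V)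
    (hs : Module.finrank ℚ V = s + 1)
    (hI : ∀ x ∈ I, x < q ∧ (∀ c ∈ Cs, 0 < (x + c) % q) ∧ Exc J Cs V q x) :
    ∃ D : Dat, D.q = q ∧ D.w = w ∧ D.s = s ∧ D.J = J ∧ D.Cs = Cs ∧ D.I = I := by
  classical
  obtain ⟨ξ, hξ⟩ := basis1 V hV h1 hs
  have hex : ∀ x, ∃ lam mu : ℕ → ℕ → ℚ, x ∈ I → (∃ c ∈ Cs, ∃ k ∈ J, lam c k ≠ (-1) ^ k * mu c k) ∧
      ∑ c ∈ Cs, ∑ k ∈ J, ((lam c k : ℝ) * hz k ((((x + c) % q : ℕ) : ℝ) / q) +
        (mu c k : ℝ) * hz k (1 - (((x + c) % q : ℕ) : ℝ) / q)) ∈ V := by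
    intro x
    by_cases hx : x ∈ I
    · obtain ⟨lam, mu, h2, h3⟩ := (hI x hx).2.2
      exact ⟨lam, mu, fun _ => ⟨h2, h3⟩⟩
    · exact ⟨0, 0, fun h => absurd h hx⟩
  choose lam mu hlm using hex
  have hb : ∀ x, ∃ (b₀ : ℚ) (b : Fin s → ℚ), x ∈ I →
      ∑ c ∈ Cs, ∑ k ∈ J, ((lam x c k : ℝ) * hz k ((((x + c) % q : ℕ) : ℝ) / q) +
        (mu x c k : ℝ) * hz k (1 - (((x + c) % q : ℕ) : ℝ) / q)) =
      (b₀ : ℝ) + ∑ l, (b l : ℝ) * ξ l := by
    intro x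
    by_cases hx : x ∈ I
    · obtain ⟨b₀, b, h⟩ := hξ _ (hlm x hx).2
      exact ⟨b₀, b, fun _ => h⟩
    · exact ⟨0, 0, fun h => absurd h hx⟩
  choose b₀ b hbb using hb
  have hq1 : 1 ≤ q := by omega
  have hq0 : (q : ℝ) ≠ 0 := by
    have : (0 : ℝ) < q := by exact_mod_cast hq1
    exact this.ne'
  refine ⟨{ q := q, w := w, s := s, J := J, Cs := Cs, I := I
            al := fun p x => (q : ℚ) ^ p.1 * (lam x p.2 p.1 - (-1) ^ p.1 * mu x p.2 p.1)
            ta := fun p x => (q : ℚ) ^ p.1 * ((-1) ^ p.1 * mu x p.2 p.1)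
            b₀ := b₀, b := b, ξ := ξ, hq := hq, hJ := hJ, hC := hC
            hI := fun x hx => (hI x hx).1
            hxc := fun x hx => (hI x hx).2.1
            hal := ?_, hrel := ?_ }, rfl, rfl, rfl, rfl, rfl, rfl⟩
  · intro x hx
    obtain ⟨c, hc, k, hk, h⟩ := (hlm x hx).1
    refine ⟨(k, c), Finset.mem_product.2 ⟨hk, hc⟩, ?_⟩
    refine mul_ne_zero (pow_ne_zero _ ?_) (sub_ne_zero.2 h)
    exact_mod_cast (by omega : q ≠ 0)
  · intro x hx
    rw [← hbb x hx, Finset.sum_product, Finset.sum_comm]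
    refine Finset.sum_congr rfl fun c _ => Finset.sum_congr rfl fun k _ => ?_
    have e1 : (1 : ℝ) - (((x + c) % q : ℕ) : ℝ) / q = ((q : ℝ) - (((x + c) % q : ℕ) : ℝ)) / q := by
      field_simp
    rw [e1, hz_scale hq1, hz_scale hq1]
    have e2 : ((-1 : ℝ) ^ k) * (-1) ^ k = 1 := by
      rw [← mul_pow]; norm_num
    push_cast
    linear_combination ((q : ℝ) ^ k * (mu x c k : ℝ) * sk q k ((q : ℝ) - (((x + c) % q : ℕ) : ℝ))) * e2

end CM68
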