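import Pool.Agent.LibCM68.Defs

/-!
# Row A1: convergence and the splitting of `s_k` (SHORT/MEDIUM)

Plan: `summ`: compare with `∑ 1 / (c (m + 1)) ^ 2`-like series: `a + b m ≥ c (m + 1)`, `c = min a b > 0`, and for
`k ≥ 2` use `Real.summable_one_div_nat_pow` shifted (`summable_nat_add_iff 1`), `1 / (c (m+1)) ^ k = (1/c^k) * ..`.
`tl_sum`: the special case used for the tails: `1 / (a m) ^ k` with `a m ≥ m + 1`, sum `≤ ∑ 1 / (m+1)^2 = π²/6 ≤ 2`
(`hasSum_zeta_two`, `Real.pi_lt_d2`).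
`split`: `j = q (j / q) + j % q` (`Nat.div_add_mod`); `Summable.sum_add_tsum_nat_add (j / q + T + 1)`:
`q (m + (j/q + T + 1)) + j % q = j + q (T + 1 + m)`.
-/

namespace CM68

open Finset

private theorem A1_summ0 {k : ℕ} (hk : 2 ≤ k) :
    Summable fun m : ℕ => 1 / ((m : ℝ) + 1) ^ k := by
  have h1 : Summable fun n : ℕ => 1 / ((n : ℝ)) ^ k :=
    Real.summable_one_div_nat_pow.2 (by omega)
  have h2 := (summable_nat_add_iff 1).2 h1
  refine h2.congr fun m => ?_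
  push_cast
  rfl

private theorem A1_tsum : ∑' m : ℕ, 1 / ((m : ℝ) + 1) ^ 2 ≤ 2 := by
  have h1 := hasSum_zeta_two
  have h2 := h1.summable.sum_add_tsum_nat_add 1
  rw [h1.tsum_eq, sum_range_one] at h2
  have h3 : ∑' m : ℕ, 1 / ((m : ℝ) + 1) ^ 2 = Real.pi ^ 2 / 6 := by
    rw [← h2]
    simp
  rw [h3]
  have h4 := Real.pi_lt_d2
  have h5 := Real.pi_pos
  nlinarith

theorem summ {a b : ℝ} (ha : 0 < a) (hb : 0 < b) {k : ℕ} (hk : 2 ≤ k) :
    Summable fun m : ℕ => 1 / (a + b * m) ^ k := by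
  have hc : 0 < min a b := lt_min ha hb
  refine Summable.of_nonneg_of_le (fun m => by positivity) (fun m => ?_)
    ((A1_summ0 hk).mul_left (1 / (min a b) ^ k))
  have hm : (0 : ℝ) ≤ m := Nat.cast_nonneg m
  have h1 : min a b * ((m : ℝ) + 1) ≤ a + b * m := by
    have h2 := min_le_left a b
    have h3 := min_le_right a b
    nlinarith
  have h4 : 0 < min a b * ((m : ℝ) + 1) := by positivity
  rw [div_mul_div_comm, one_mul, ← mul_pow]
  exact one_div_le_one_div_of_le (by positivity) (pow_le_pow_left₀ h4.le h1 k)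

theorem tl_sum {a : ℕ → ℝ} (ha : ∀ m : ℕ, (m : ℝ) + 1 ≤ a m) {k : ℕ} (hk : 2 ≤ k) :
    (Summable fun m : ℕ => 1 / a m ^ k) ∧ ∑' m : ℕ, 1 / a m ^ k ≤ 2 := by
  have h0 : ∀ m : ℕ, 0 ≤ 1 / a m ^ k := fun m => by
    have h1 := ha m
    have h2 : (0 : ℝ) ≤ m := Nat.cast_nonneg m
    have h3 : 0 < a m := by linarith
    positivity
  have hle : ∀ m : ℕ, 1 / a m ^ k ≤ 1 / ((m : ℝ) + 1) ^ 2 := fun m => by
    have h1 := ha m
    have h2 : (0 : ℝ) ≤ m := Nat.cast_nonneg m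
    have h3 : (1 : ℝ) ≤ (m : ℝ) + 1 := by linarith
    refine one_div_le_one_div_of_le (by positivity) ?_
    exact (pow_le_pow_right₀ h3 hk).trans (pow_le_pow_left₀ (by linarith) h1 k)
  have hs : Summable fun m : ℕ => 1 / a m ^ k :=
    Summable.of_nonneg_of_le h0 hle (A1_summ0 le_rfl)
  exact ⟨hs, (hs.tsum_le_tsum hle (A1_summ0 le_rfl)).trans A1_tsum⟩

theorem split {q k : ℕ} (hq : 1 ≤ q) (hk : 2 ≤ k) (T : ℕ) {j : ℕ} (hj : 0 < j % q) :
    sk q k ((j % q : ℕ) : ℝ) = ps q T k j + tl q k T j := by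
  unfold sk ps tl
  have hqR : (0 : ℝ) < q := by exact_mod_cast hq
  have hjR : (0 : ℝ) < ((j % q : ℕ) : ℝ) := by exact_mod_cast hj
  have hs : Summable fun m : ℕ => 1 / ((q : ℝ) * m + ((j % q : ℕ) : ℝ)) ^ k :=
    (summ hjR hqR hk).congr fun m => by rw [add_comm]
  rw [← hs.sum_add_tsum_nat_add (j / q + T + 1)]
  congr 1
  refine tsum_congr fun m => ?_
  have h1 : (j : ℝ) = (q : ℝ) * ((j / q : ℕ) : ℝ) + ((j % q : ℕ) : ℝ) := by
    exact_mod_cast (Nat.div_add_mod j q).symm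
  have h2 : (q : ℝ) * ((m + (j / q + T + 1) : ℕ) : ℝ) + ((j % q : ℕ) : ℝ) =
      (j : ℝ) + (q : ℝ) * (T + 1 + m) := by
    rw [h1]
    push_cast
    ring
  rw [h2]

end CM68
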