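import Pool.Agent.LibCM68.A2

/-!
# Row A3: the Taylor polynomial of a sum (MEDIUM, ONLY MATHLIB + A2; template LibHZ7 row C2)

Plan: `G = ∑_{i < N} C ((i + (k-1)).choose (k-1) * (-1) ^ i * ∑' m, 1 / a m ^ (k + i)) * X ^ i`; `1 / a m ^ (k+i)` is
summable (`≤ (1/h) ^ i * (1 / a m ^ k)`, `a m ≥ R h ≥ h > 0`).  `∑' m, 1 / (a m + v) ^ k` is summable
(`a m + v ≥ a m / 2`, since `|v| ≤ h ≤ a m / 2`).  `G(v) = ∑' m, (Taylor polynomial of the term m)`
(`Summable.tsum_finsetSum`, `tsum_mul_left`); with `x = v / a m`, `|x| ≤ 1 / R ≤ 1 / 2`, the difference is `∑' m` of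
the remainders, each `≤ 2^k (N+1)^k (1/R)^N / a m ^ k` (`taylorK`, `1 / (a + v) ^ k = (1 / a^k) * 1 / (1 + x)^k`):
`tsum_of_norm_bounded`, or `norm_tsum_le_tsum_norm` and `Summable.tsum_le_tsum`.
-/

namespace CM68

open Finset Polynomial

theorem sum_taylorK {a : ℕ → ℝ} {h A R : ℝ} (hh : 0 < h) (hR : 2 ≤ R) (ha : ∀ m, R * h ≤ a m)
    {k : ℕ} (hk : 1 ≤ k) (hs : Summable fun m => 1 / a m ^ k) (hA : ∑' m, 1 / a m ^ k ≤ A)
    {N : ℕ} (hN : 1 ≤ N) :
    ∃ G : ℝ[X], G.natDegree < N ∧ ∀ v : ℝ, |v| ≤ h →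
      |(∑' m, 1 / (a m + v) ^ k) - G.eval v| ≤ A * (2 ^ k * ((N : ℝ) + 1) ^ k * (1 / R) ^ N) := by
  have hR0 : (0 : ℝ) < R := by linarith
  have hah : ∀ m, h ≤ a m := fun m => by nlinarith [ha m]
  have ha0 : ∀ m, 0 < a m := fun m => lt_of_lt_of_le hh (hah m)
  have hsi : ∀ i : ℕ, Summable fun m => 1 / a m ^ (k + i) := by
    intro i
    refine Summable.of_nonneg_of_le (fun m => ?_) (fun m => ?_) (hs.mul_right ((1 / h) ^ i))
    · have := ha0 m
      positivity
    · have h0 : 1 / a m ^ (k + i) = (1 / a m) ^ i * (1 / a m ^ k) := by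
        rw [pow_add, one_div_pow, one_div_mul_one_div_rev]
      rw [h0]
      have h1 : (1 / a m) ^ i ≤ (1 / h) ^ i :=
        pow_le_pow_left₀ (by have := ha0 m; positivity) (one_div_le_one_div_of_le hh (hah m)) i
      have h2 : 0 ≤ 1 / a m ^ k := by have := ha0 m; positivity
      calc (1 / a m) ^ i * (1 / a m ^ k) ≤ (1 / h) ^ i * (1 / a m ^ k) :=
            mul_le_mul_of_nonneg_right h1 h2
        _ = 1 / a m ^ k * (1 / h) ^ i := mul_comm _ _
  set c : ℕ → ℝ := fun i => ((i + (k - 1)).choose (k - 1) : ℝ) * (-1) ^ i with hc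
  set S : ℕ → ℝ := fun i => ∑' m, 1 / a m ^ (k + i) with hS
  refine ⟨∑ i ∈ range N, C (c i * S i) * X ^ i, ?_, ?_⟩
  · have h1 : (∑ i ∈ range N, C (c i * S i) * X ^ i : ℝ[X]).natDegree ≤ N - 1 := by
      refine natDegree_sum_le_of_forall_le _ _ (fun i hi => ?_)
      have := Finset.mem_range.mp hi
      exact (natDegree_C_mul_X_pow_le _ _).trans (by omega)
    omega
  · intro v hv
    have hev : (∑ i ∈ range N, C (c i * S i) * X ^ i : ℝ[X]).eval v =
        ∑ i ∈ range N, c i * v ^ i * S i := by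
      rw [eval_finsetSum]
      refine Finset.sum_congr rfl (fun i _ => ?_)
      rw [eval_mul, eval_C, eval_pow, eval_X]
      ring
    rw [hev]
    have hT : HasSum (fun m => ∑ i ∈ range N, c i * v ^ i * (1 / a m ^ (k + i)))
        (∑ i ∈ range N, c i * v ^ i * S i) :=
      hasSum_sum (fun i _ => (hsi i).hasSum.mul_left (c i * v ^ i))
    have hD : ∀ m, |1 / (a m + v) ^ k - ∑ i ∈ range N, c i * v ^ i * (1 / a m ^ (k + i))| ≤
        1 / a m ^ k * (2 ^ k * ((N : ℝ) + 1) ^ k * (1 / R) ^ N) := by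
      intro m
      have hm := ha0 m
      have hx : |v / a m| ≤ 1 / R := by
        rw [abs_div, abs_of_pos hm, div_le_div_iff₀ hm hR0, one_mul]
        calc |v| * R ≤ h * R := mul_le_mul_of_nonneg_right hv hR0.le
          _ = R * h := mul_comm _ _
          _ ≤ a m := ha m
      have hx2 : |v / a m| ≤ 1 / 2 := hx.trans (one_div_le_one_div_of_le (by norm_num) hR)
      have h1 := taylorK hx2 hk N
      have h2 : 1 / (a m + v) ^ k - ∑ i ∈ range N, c i * v ^ i * (1 / a m ^ (k + i)) =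
          1 / a m ^ k * (1 / (1 + v / a m) ^ k -
            ∑ i ∈ range N, ((i + (k - 1)).choose (k - 1) : ℝ) * (-(v / a m)) ^ i) := by
        rw [mul_sub, Finset.mul_sum, one_div_mul_one_div_rev, ← mul_pow]
        have h3 : (1 + v / a m) * a m = a m + v := by
          field_simp
        rw [h3]
        congr 1
        refine Finset.sum_congr rfl (fun i _ => ?_)
        rw [hc, neg_pow, div_pow, pow_add]
        field_simp
      rw [h2, abs_mul, abs_of_nonneg (by positivity : 0 ≤ 1 / a m ^ k)]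
      refine mul_le_mul_of_nonneg_left (h1.trans ?_) (by positivity)
      refine mul_le_mul_of_nonneg_left ?_ (by positivity)
      exact pow_le_pow_left₀ (abs_nonneg _) hx N
    have hE : HasSum (fun m => 1 / a m ^ k * (2 ^ k * ((N : ℝ) + 1) ^ k * (1 / R) ^ N))
        ((∑' m, 1 / a m ^ k) * (2 ^ k * ((N : ℝ) + 1) ^ k * (1 / R) ^ N)) := hs.hasSum.mul_right _
    have hDs : Summable fun m =>
        1 / (a m + v) ^ k - ∑ i ∈ range N, c i * v ^ i * (1 / a m ^ (k + i)) :=
      Summable.of_norm_bounded hE.summable (fun m => by rw [Real.norm_eq_abs]; exact hD m)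
    have hsum : HasSum (fun m => 1 / (a m + v) ^ k)
        ((∑' m, (1 / (a m + v) ^ k - ∑ i ∈ range N, c i * v ^ i * (1 / a m ^ (k + i)))) +
          ∑ i ∈ range N, c i * v ^ i * S i) := by
      have h1 := hDs.hasSum.add hT
      simpa only [sub_add_cancel] using h1
    rw [hsum.tsum_eq, add_sub_cancel_right, ← Real.norm_eq_abs]
    refine (tsum_of_norm_bounded hE (fun m => by rw [Real.norm_eq_abs]; exact hD m)).trans ?_
    exact mul_le_mul_of_nonneg_right hA (by positivity)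

end CM68
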