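import Pool.Agent.LibCM68.A1
import Pool.Agent.LibCM68.A3

/-!
# Row A4: polynomial approximation of the tails (SHORT/MEDIUM; template LibHZ7 row C4)

Plan: `h = q n / 2 > 0`, `R = 2 r + 1`, `y = q n / 2 + v`, `|v| ≤ h`; the tail is `∑' m, 1 / (a m + v) ^ k` with
`a m = q n / 2 + q (r n + 1 + m) ≥ R h` and `a m ≥ m + 1`; `tl_sum` gives `A = 2`; `sum_taylorK`, and
`G = G₁.comp (X - C (q n / 2))` (`natDegree_comp`, `natDegree (X - C c) = 1`).
Second: `q n - y = q n / 2 - v`: `G = G₁.comp (C (q n / 2) - X)`.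
-/

namespace CM68

open Finset Polynomial

private theorem a4_deg {G L : ℝ[X]} {D : ℕ} (hG : G.natDegree < D) (hL : L.natDegree ≤ 1) :
    (G.comp L).natDegree < D := by
  refine lt_of_le_of_lt natDegree_comp_le ?_
  calc G.natDegree * L.natDegree ≤ G.natDegree * 1 := Nat.mul_le_mul_left _ hL
    _ = G.natDegree := mul_one _
    _ < D := hG

theorem tail_poly {q n r k N : ℕ} (hq : 1 ≤ q) (hn : 1 ≤ n) (hr : 1 ≤ r) (hk : 2 ≤ k) (hN : 1 ≤ N) :
    (∃ G : ℝ[X], G.natDegree < N ∧ ∀ y : ℝ, 0 ≤ y → y ≤ (q : ℝ) * n →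
      |tl q k (r * n) y - G.eval y| ≤
        2 ^ (k + 1) * ((N : ℝ) + 1) ^ k * (1 / (2 * (r : ℝ) + 1)) ^ N) ∧
    (∃ G : ℝ[X], G.natDegree < N ∧ ∀ y : ℝ, 0 ≤ y → y ≤ (q : ℝ) * n →
      |tl q k (r * n) ((q : ℝ) * n - y) - G.eval y| ≤
        2 ^ (k + 1) * ((N : ℝ) + 1) ^ k * (1 / (2 * (r : ℝ) + 1)) ^ N) := by
  have hq' : (1 : ℝ) ≤ q := by exact_mod_cast hq
  have hn' : (1 : ℝ) ≤ n := by exact_mod_cast hn
  have hr' : (1 : ℝ) ≤ r := by exact_mod_cast hr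
  set h : ℝ := q * n / 2 with hh
  have hh0 : 0 < h := by
    rw [hh]
    positivity
  have hqm : ∀ m : ℕ, (m : ℝ) ≤ q * m := fun m => by
    have : (0 : ℝ) ≤ m := Nat.cast_nonneg m
    nlinarith
  have hrn : (0 : ℝ) ≤ q * (r * n) := by positivity
  obtain ⟨s1, t1⟩ := tl_sum (a := fun m : ℕ => h + (q : ℝ) * (((r * n : ℕ) : ℝ) + 1 + m)) (fun m => by
    have h1 := hqm m
    show (m : ℝ) + 1 ≤ h + (q : ℝ) * (((r * n : ℕ) : ℝ) + 1 + m)
    push_cast
    have h2 : (q : ℝ) * ((r : ℝ) * n + 1 + m) = q * (r * n) + q + q * m := by ring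
    rw [h2]
    linarith) hk
  obtain ⟨G, d, e⟩ := sum_taylorK hh0 (R := 2 * (r : ℝ) + 1) (by linarith) (fun m => by
    have h1 := hqm m
    have h3 : (0 : ℝ) ≤ m := Nat.cast_nonneg m
    show (2 * (r : ℝ) + 1) * h ≤ h + (q : ℝ) * (((r * n : ℕ) : ℝ) + 1 + m)
    push_cast
    have h2 : (q : ℝ) * ((r : ℝ) * n + 1 + m) = q * (r * n) + q + q * m := by ring
    have h4 : (2 * (r : ℝ) + 1) * h = q * (r * n) + h := by
      rw [hh]
      ring
    rw [h2, h4]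
    linarith) (by omega) s1 t1 hN
  have key : ∀ v : ℝ, |v| ≤ h → |tl q k (r * n) (h + v) - G.eval v| ≤
      2 ^ (k + 1) * ((N : ℝ) + 1) ^ k * (1 / (2 * (r : ℝ) + 1)) ^ N := by
    intro v hv
    have h1 := e v hv
    have f1 : (fun m : ℕ => 1 / (h + (q : ℝ) * (((r * n : ℕ) : ℝ) + 1 + m) + v) ^ k) =
        fun m : ℕ => 1 / (h + v + (q : ℝ) * (((r * n : ℕ) : ℝ) + 1 + m)) ^ k := by
      funext m
      congr 2
      ring
    rw [f1] at h1
    refine h1.trans (le_of_eq ?_)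
    ring
  have hv : ∀ y : ℝ, 0 ≤ y → y ≤ (q : ℝ) * n → |y - h| ≤ h := by
    intro y h0 h1
    rw [abs_le]
    constructor <;> linarith
  refine ⟨⟨G.comp (X - C h), a4_deg d (by compute_degree), fun y h0 h1 => ?_⟩,
    ⟨G.comp (C h - X), a4_deg d (by compute_degree), fun y h0 h1 => ?_⟩⟩
  · have h2 := key (y - h) (hv y h0 h1)
    simp only [eval_comp, eval_sub, eval_X, eval_C]
    rwa [add_sub_cancel] at h2
  · have h2 := key (h - y) (by rw [abs_sub_comm]; exact hv y h0 h1)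
    simp only [eval_comp, eval_sub, eval_X, eval_C]
    have h3 : h + (h - y) = (q : ℝ) * n - y := by
      rw [hh]
      ring
    rwa [h3] at h2

end CM68
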