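import Pool.Agent.LibCM68.A1

/-!
# Row A5: the two sided sums (MEDIUM)

`T_k(x) = s_k(x) + (-1)^k s_k(q - x)` is the sum over all integers `≡ x mod q`; `x = j % q`, `j = q i + x`, `i = j / q`.
Plan: `split` gives `s_k(x) = ps + tl(j)`.  For `s_k(q - x)`: split off the first `n + T - i` terms
(`Summable.sum_add_tsum_nat_add`, `i < n`): the rest is `tl q k T (q n - j)`
(`q (m + (n + T - i)) + q - x = q n - j + q (T + 1 + m)`).  So it remains
`rr q n T k j = ps q T k j + (-1)^k ∑_{m < n + T - i} 1 / (q m + q - x) ^ k`: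
`win n T = (n + T - i) + (i + T + 1)`, `Finset.sum_range_add`-like (`Finset.sum_range_add_sum..`,
`Finset.range_add`/`Finset.sum_range_add`): the terms `i' = (n + T - i) + m` are
`1 / (j - q (n+T) + q i')^k = 1 / (q m + x)^k`, and the terms `i' < n + T - i`, reflected
(`Finset.sum_range_reflect`), `i' = n + T - i - 1 - m`, are `1 / (-(q m + q - x))^k = (-1)^k / (q m + q - x)^k`.
-/

namespace CM68

open Finset

theorem splitT {q n k : ℕ} (hq : 1 ≤ q) (hk : 2 ≤ k) (T : ℕ) {j : ℕ} (hj : 0 < j % q)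
    (hjn : j < q * n) :
    sk q k ((j % q : ℕ) : ℝ) + (-1) ^ k * sk q k ((q : ℝ) - ((j % q : ℕ) : ℝ)) =
      rr q n T k j + (tl q k T j + (-1) ^ k * tl q k T ((q : ℝ) * n - j)) := by
  have hq0 : 0 < q := hq
  have hqR : (0 : ℝ) < q := by exact_mod_cast hq0
  obtain ⟨i, hi⟩ : ∃ i, i = j / q := ⟨_, rfl⟩
  obtain ⟨x, hx⟩ : ∃ x, x = j % q := ⟨_, rfl⟩
  have hjx : q * i + x = j := by rw [hi, hx]; exact Nat.div_add_mod j q
  have hjR : (j : ℝ) = q * i + x := by rw [← hjx]; push_cast; ring
  have hin : i < n := by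
    rw [hi]
    exact (Nat.div_lt_iff_lt_mul hq0).2 (by rw [mul_comm]; exact hjn)
  have hxq : x < q := by rw [hx]; exact Nat.mod_lt _ hq0
  have hxR : (x : ℝ) < q := by exact_mod_cast hxq
  obtain ⟨N, hN⟩ : ∃ N, N = n + T - i := ⟨_, rfl⟩
  have hNi : N + i = n + T := by omega
  have hNR : (N : ℝ) = n + T - i := by
    have : ((N + i : ℕ) : ℝ) = ((n + T : ℕ) : ℝ) := by rw [hNi]
    push_cast at this
    linarith
  -- the second sum
  have hs : Summable fun m : ℕ => 1 / ((q : ℝ) * m + ((q : ℝ) - x)) ^ k := by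
    have h1 := summ (a := (q : ℝ) - x) (b := q) (by linarith) hqR hk
    refine h1.congr fun m => ?_
    rw [add_comm]
  have h2 : sk q k ((q : ℝ) - x) = (∑ m ∈ range N, 1 / ((q : ℝ) * m + ((q : ℝ) - x)) ^ k) +
      tl q k T ((q : ℝ) * n - j) := by
    rw [sk, ← hs.sum_add_tsum_nat_add N, tl]
    congr 1
    refine tsum_congr fun m => ?_
    congr 2
    push_cast
    rw [hjR, hNR]
    ring
  -- the window sum
  have h3 : rr q n T k j = ps q T k j +
      (-1) ^ k * ∑ m ∈ range N, 1 / ((q : ℝ) * m + ((q : ℝ) - x)) ^ k := by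
    have hw : win n T = N + (i + T + 1) := by
      unfold win
      omega
    rw [rr, hw, Finset.sum_range_add, add_comm]
    congr 1
    · rw [ps, ← hi, ← hx]
      refine Finset.sum_congr rfl fun m _ => ?_
      congr 2
      push_cast
      rw [hjR, hNR]
      ring
    · rw [← Finset.sum_range_reflect, Finset.mul_sum]
      refine Finset.sum_congr rfl fun m hm => ?_
      have hmN : m < N := Finset.mem_range.1 hm
      have e1 : ((N - 1 - m : ℕ) : ℝ) = N - 1 - m := by
        have : ((N - 1 - m + (m + 1) : ℕ) : ℝ) = (N : ℝ) := by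
          congr 1
          omega
        push_cast at this
        linarith
      rw [e1, hjR, hNR, show (q : ℝ) * i + x - q * (n + T) + q * (n + T - i - 1 - m) =
        -(q * m + (q - x)) by ring, neg_pow]
      rcases neg_one_pow_eq_or ℝ k with h | h
      · rw [h]; ring
      · rw [h, neg_one_mul, neg_one_mul, div_neg]
  rw [← hx, h2, h3, hx, split hq hk T hj]
  ring

end CM68
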