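import Pool.Agent.LibCM68.I1

/-!
# Row I2: integrality of the rows (SHORT/MEDIUM)

`D₀` is a common denominator of all the `al p x`, `ta p x`, `b₀ x`, `b x l`.  `rowA_int`: product of integers.
`rowB_int`: `(Om).eval j = ∏ c, (WP).eval (j + c)` (`eval_prod`, `taylor_eval`); all factors are integers (`W_int`), and for
`p = (k, c) ∈ Φ` the factor `c` times `ps q T k (j + c)`, `rr q n T k (j + c)` is an integer (`Wps_int`, `Wrr_int`;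
`j + c < q n` since `j < q (n - 1)`, `c < q`; `2 ≤ k ≤ w`), `Finset.mul_prod_erase`.  A sum of integers is an integer.
-/

namespace CM68

open Finset Polynomial

private theorem i2_sum {ι : Type*} (s : Finset ι) (f : ι → ℝ)
    (h : ∀ i ∈ s, ∃ z : ℤ, f i = z) : ∃ z : ℤ, ∑ i ∈ s, f i = z := by
  classical
  induction s using Finset.induction_on with
  | empty => exact ⟨0, by simp⟩
  | insert a s ha ih =>
    obtain ⟨z₁, h₁⟩ := h a (Finset.mem_insert_self a s)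
    obtain ⟨z₂, h₂⟩ := ih (fun i hi => h i (Finset.mem_insert_of_mem hi))
    refine ⟨z₁ + z₂, ?_⟩
    rw [Finset.sum_insert ha, h₁, h₂]
    push_cast
    ring

private theorem i2_prod {ι : Type*} (s : Finset ι) (f : ι → ℝ)
    (h : ∀ i ∈ s, ∃ z : ℤ, f i = z) : ∃ z : ℤ, ∏ i ∈ s, f i = z := by
  classical
  induction s using Finset.induction_on with
  | empty => exact ⟨1, by simp⟩
  | insert a s ha ih =>
    obtain ⟨z₁, h₁⟩ := h a (Finset.mem_insert_self a s)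
    obtain ⟨z₂, h₂⟩ := ih (fun i hi => h i (Finset.mem_insert_of_mem hi))
    refine ⟨z₁ * z₂, ?_⟩
    rw [Finset.prod_insert ha, h₁, h₂]
    push_cast
    ring

private theorem i2_cast {D₀ : ℕ} {x : ℚ} (h : ∃ m : ℤ, (D₀ : ℚ) * x = m) :
    ∃ m : ℤ, (D₀ : ℝ) * (x : ℝ) = m := by
  obtain ⟨m, hm⟩ := h
  exact ⟨m, by exact_mod_cast hm⟩

private theorem i2_Om (D : Dat) (n T j : ℕ) :
    (D.Om n T).eval (j : ℝ) = ∏ c ∈ D.Cs, (WP D.q n T D.w).eval ((j + c : ℕ) : ℝ) := by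
  unfold Dat.Om
  rw [eval_prod]
  refine Finset.prod_congr rfl fun c _ => ?_
  rw [taylor_eval]
  push_cast
  rfl

private theorem i2_mul (D : Dat) {n T j c : ℕ} (hc : c ∈ D.Cs) {y : ℝ}
    (h : ∃ z : ℤ, (WP D.q n T D.w).eval ((j + c : ℕ) : ℝ) * y = z) :
    ∃ z : ℤ, (D.Om n T).eval (j : ℝ) * y = z := by
  classical
  obtain ⟨z, hz⟩ := h
  obtain ⟨z', hz'⟩ := i2_prod (D.Cs.erase c)
    (fun c => (WP D.q n T D.w).eval ((j + c : ℕ) : ℝ)) (fun c _ => W_int D.q n T D.w (j + c))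
  refine ⟨z * z', ?_⟩
  rw [i2_Om, ← Finset.mul_prod_erase D.Cs
    (fun c => (WP D.q n T D.w).eval ((j + c : ℕ) : ℝ)) hc, hz']
  push_cast
  push_cast at hz
  linear_combination (z' : ℝ) * hz

theorem rowA_int (D : Dat) {d K D₀ : ℕ}
    (hal : ∀ p ∈ D.Φ, ∀ x < D.q, ∃ m : ℤ, (D₀ : ℚ) * D.al p x = m)
    (hta : ∀ p ∈ D.Φ, ∀ x < D.q, ∃ m : ℤ, (D₀ : ℚ) * D.ta p x = m)
    (hb : ∀ x < D.q, ∀ l, ∃ m : ℤ, (D₀ : ℚ) * D.b x l = m) (a : RA D.Φ D.s d K) (j : ℕ) :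
    ∃ z : ℤ, (D₀ : ℝ) * D.rowA d K a j = z := by
  have hq : j % D.q < D.q := Nat.mod_lt _ (by have := D.hq; omega)
  rcases a with ⟨p, i⟩ | ⟨p, i⟩ | ⟨l, i⟩
  · obtain ⟨m, hm⟩ := i2_cast (hal p.1 p.2 _ hq)
    refine ⟨m * (j.choose i : ℕ), ?_⟩
    show (D₀ : ℝ) * ((D.al p (j % D.q) : ℝ) * (j.choose i : ℝ)) = _
    rw [← mul_assoc, hm]
    push_cast
    rfl
  · obtain ⟨m, hm⟩ := i2_cast (hta p.1 p.2 _ hq)
    refine ⟨m * (j.choose i : ℕ), ?_⟩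
    show (D₀ : ℝ) * ((D.ta p (j % D.q) : ℝ) * (j.choose i : ℝ)) = _
    rw [← mul_assoc, hm]
    push_cast
    rfl
  · obtain ⟨m, hm⟩ := i2_cast (hb _ hq l)
    refine ⟨m * (j.choose i : ℕ), ?_⟩
    show (D₀ : ℝ) * ((D.b (j % D.q) l : ℝ) * (j.choose i : ℝ)) = _
    rw [← mul_assoc, hm]
    push_cast
    rfl

theorem rowB_int (D : Dat) {n T D₀ : ℕ}
    (hal : ∀ p ∈ D.Φ, ∀ x < D.q, ∃ m : ℤ, (D₀ : ℚ) * D.al p x = m)
    (hta : ∀ p ∈ D.Φ, ∀ x < D.q, ∃ m : ℤ, (D₀ : ℚ) * D.ta p x = m)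
    (hb₀ : ∀ x < D.q, ∃ m : ℤ, (D₀ : ℚ) * D.b₀ x = m) (i : ℕ) {j : ℕ} (hj : j < D.q * (n - 1)) :
    ∃ z : ℤ, (D₀ : ℝ) * D.rowB n T i j = z := by
  classical
  have hq : j % D.q < D.q := Nat.mod_lt _ (by have := D.hq; omega)
  obtain ⟨m₀, hm₀⟩ := i2_cast (hb₀ _ hq)
  obtain ⟨z₀, hz₀⟩ := i2_prod D.Cs
    (fun c => (WP D.q n T D.w).eval ((j + c : ℕ) : ℝ)) (fun c _ => W_int D.q n T D.w (j + c))
  rw [← i2_Om] at hz₀
  have hn : 1 ≤ n := by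
    rcases Nat.eq_zero_or_pos n with h | h
    · subst h
      simp at hj
    · exact h
  have hsum : ∃ z : ℤ, ∑ p ∈ D.Φ, (D₀ : ℝ) * ((D.Om n T).eval (j : ℝ) *
      ((D.al p (j % D.q) : ℝ) * ps D.q T p.1 (j + p.2) +
        (D.ta p (j % D.q) : ℝ) * rr D.q n T p.1 ((j + p.2 : ℕ) : ℝ))) = z := by
    refine i2_sum _ _ fun p hp => ?_
    obtain ⟨hpJ, hpC⟩ := Finset.mem_product.1 (show p ∈ D.J ×ˢ D.Cs from hp)
    have hk := D.hJ _ hpJ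
    have hc := D.hC _ hpC
    have hjc : j + p.2 < D.q * n := by
      have h1 : D.q * n = D.q * (n - 1) + D.q := by
        conv_lhs => rw [show n = (n - 1) + 1 by omega]
        ring
      omega
    obtain ⟨z₁, hz₁⟩ := i2_mul D (j := j) hpC
      (Wps_int (q := D.q) (n := n) (T := T) (w := D.w) (by omega : 1 ≤ p.1) hk.2 hjc)
    obtain ⟨z₂, hz₂⟩ := i2_mul D (j := j) hpC
      (Wrr_int (q := D.q) (n := n) (T := T) (w := D.w) (by omega : 1 ≤ p.1) hk.2 (j + p.2))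
    obtain ⟨a, ha⟩ := i2_cast (hal p hp _ hq)
    obtain ⟨t, ht⟩ := i2_cast (hta p hp _ hq)
    refine ⟨a * z₁ + t * z₂, ?_⟩
    push_cast
    push_cast at hz₁ hz₂
    rw [← ha, ← ht, ← hz₁, ← hz₂]
    ring
  obtain ⟨z₁, hz₁⟩ := hsum
  refine ⟨(m₀ * z₀ - z₁) * (j.choose i : ℕ), ?_⟩
  unfold Dat.rowB Dat.G
  push_cast
  rw [← hm₀, ← hz₀, ← hz₁, ← Finset.mul_sum, ← Finset.mul_sum]
  push_cast
  ring

end CM68
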