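import Mathlib

/-!
# Row LIM: the limit (SHORT/MEDIUM, 20 min; ONLY MATHLIB)

Divide by `n²`: the right hand side tends to `0` (`log n / n → 0`).
-/

namespace CM68

theorem lim_contra {E a R₁ c δ : ℝ} (hE : 0 < E) (hR₁ : 0 < R₁) (hδ : 0 < δ) (n₀ : ℕ)
    (h : ∀ n : ℕ, n₀ ≤ n → E * (n : ℝ) ^ 2 ≤ a * n + R₁ * n * Real.log (R₁ * n) +
      c * n * Real.log (200 * (δ * n + 2) ^ 2)) : False := by
  have hn : Filter.Tendsto (fun n : ℕ => (n : ℝ)) Filter.atTop Filter.atTop :=
    tendsto_natCast_atTop_atTop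
  have h0 : Filter.Tendsto (fun n : ℕ => (a + c * Real.log 200) / (n : ℝ)) Filter.atTop
      (nhds 0) := hn.const_div_atTop _
  have h1 : Filter.Tendsto (fun n : ℕ => Real.log (R₁ * (n : ℝ)) ^ 1 / (1 / R₁ * (R₁ * (n : ℝ)) + 0))
      Filter.atTop (nhds 0) :=
    (Real.tendsto_pow_log_div_mul_add_atTop (1 / R₁) 0 1 (by positivity)).comp
      (hn.const_mul_atTop hR₁)
  have h2 : Filter.Tendsto (fun n : ℕ => Real.log (δ * (n : ℝ) + 2) ^ 1 /
      (1 / δ * (δ * (n : ℝ) + 2) + -(2 / δ))) Filter.atTop (nhds 0) :=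
    (Real.tendsto_pow_log_div_mul_add_atTop (1 / δ) (-(2 / δ)) 1 (by positivity)).comp
      (Filter.tendsto_atTop_add_const_right _ _ (hn.const_mul_atTop hδ))
  have h3 := (h0.add (h1.const_mul R₁)).add (h2.const_mul (2 * c))
  have e : (0 : ℝ) + R₁ * 0 + 2 * c * 0 = 0 := by ring
  rw [e] at h3
  have h4 : E ≤ 0 := by
    refine ge_of_tendsto h3 ?_
    filter_upwards [Filter.eventually_ge_atTop n₀, Filter.eventually_ge_atTop 1] with n h5 h6
    have hn0 : (0 : ℝ) < n := by exact_mod_cast h6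
    have h7 := h n h5
    have h8 : Real.log (200 * (δ * n + 2) ^ 2) = Real.log 200 + 2 * Real.log (δ * n + 2) := by
      rw [Real.log_mul (by norm_num) (by positivity), Real.log_pow]
      push_cast
      ring
    rw [h8] at h7
    have h9 : 1 / R₁ * (R₁ * (n : ℝ)) + 0 = n := by
      field_simp
      ring
    have h10 : 1 / δ * (δ * (n : ℝ) + 2) + -(2 / δ) = n := by
      field_simp
      ring
    rw [h9, h10, pow_one, pow_one]
    have h11 : (a + c * Real.log 200) / (n : ℝ) + R₁ * (Real.log (R₁ * n) / n) +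
        2 * c * (Real.log (δ * n + 2) / n) =
        (a * n + R₁ * n * Real.log (R₁ * n) + c * n * (Real.log 200 + 2 * Real.log (δ * n + 2))) /
          (n : ℝ) ^ 2 := by
      field_simp
      ring
    rw [h11, le_div_iff₀ (by positivity)]
    exact h7
  linarith

end CM68
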