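import Pool.Agent.LibCM68.S1

/-!
# Row S2: sizes of the rows and of the multiplier (SHORT/MEDIUM)

Plan: `rowA_le`: `ch_le`.  `Om_le`, `Om_natDegree`, `Om_ne`: products over `c` of `W_le`, `W_natDegree`, `W_ne`
(`taylor_eval`, `natDegree_taylor`; `j + c < q n`; `Wb q n T (w * m) = Wb q n T w ^ m`).
-/

namespace CM68

open Finset Polynomial

private theorem S2_ch {B x : ℝ} {Q a i j : ℕ} (hx : |x| ≤ B) (hj : j ≤ Q * a) :
    |x * (j.choose i : ℝ)| ≤ B * (Real.exp a * (Q : ℝ) ^ i) := by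
  rw [abs_mul, abs_of_nonneg (Nat.cast_nonneg _ : (0 : ℝ) ≤ (j.choose i : ℝ))]
  exact mul_le_mul hx (ch_le hj) (Nat.cast_nonneg _) ((abs_nonneg _).trans hx)

theorem rowA_le (D : Dat) {n d K Q₁ Q₂ : ℕ} {B : ℝ} (h1 : D.q * n ≤ Q₁ * d) (h2 : D.q * n ≤ Q₂ * K)
    (hal : ∀ p ∈ D.Φ, ∀ x < D.q, |(D.al p x : ℝ)| ≤ B)
    (hta : ∀ p ∈ D.Φ, ∀ x < D.q, |(D.ta p x : ℝ)| ≤ B)
    (hb : ∀ x < D.q, ∀ l, |(D.b x l : ℝ)| ≤ B) (a : RA D.Φ D.s d K) {j : ℕ} (hj : j < D.q * n) :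
    |D.rowA d K a j| ≤ UA D.Φ D.s d K Q₁ Q₂ B a := by
  have hq : 0 < D.q := by
    have := D.hq
    omega
  have hm : j % D.q < D.q := Nat.mod_lt _ hq
  have hj1 : j ≤ Q₁ * d := hj.le.trans h1
  have hj2 : j ≤ Q₂ * K := hj.le.trans h2
  rcases a with ⟨p, i⟩ | ⟨p, i⟩ | ⟨l, i⟩
  · exact S2_ch (hal p.1 p.2 _ hm) hj1
  · exact S2_ch (hta p.1 p.2 _ hm) hj1
  · exact S2_ch (hb _ hm l) hj2

theorem Om_le (D : Dat) {n T j : ℕ} (hj : j < D.q * (n - 1)) :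
    |(D.Om n T).eval (j : ℝ)| ≤ Wb D.q n T D.ww := by
  have hq : 1 ≤ D.q := by
    have := D.hq
    omega
  have hn : 1 ≤ n := by
    rcases n with _ | n
    · simp at hj
    · omega
  unfold Dat.Om
  rw [eval_prod, Finset.abs_prod]
  have h1 : ∏ c ∈ D.Cs, |(taylor (c : ℝ) (WP D.q n T D.w)).eval (j : ℝ)| ≤
      ∏ _c ∈ D.Cs, Wb D.q n T D.w := by
    refine Finset.prod_le_prod (fun _ _ => abs_nonneg _) fun c hc => ?_
    rw [taylor_eval]
    have h2 : j + c < D.q * n := by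
      have h3 := D.hC c hc
      obtain ⟨m, rfl⟩ : ∃ m, n = m + 1 := ⟨n - 1, by omega⟩
      rw [Nat.add_sub_cancel] at hj
      rw [mul_add, mul_one]
      omega
    have h4 := W_le (T := T) (w := D.w) hq h2
    push_cast at h4
    exact h4
  refine h1.trans (le_of_eq ?_)
  rw [Finset.prod_const]
  unfold Wb Dat.ww
  rw [← pow_mul]

theorem Om_natDegree (D : Dat) (n T : ℕ) : (D.Om n T).natDegree ≤ D.ww * win n T := by
  unfold Dat.Om
  refine (natDegree_prod_le _ _).trans ?_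
  calc ∑ c ∈ D.Cs, (taylor (c : ℝ) (WP D.q n T D.w)).natDegree
      ≤ ∑ _c ∈ D.Cs, D.w * win n T := Finset.sum_le_sum fun c _ => by
        rw [natDegree_taylor]
        exact W_natDegree _ _ _ _
    _ = D.ww * win n T := by
        rw [Finset.sum_const, smul_eq_mul, Dat.ww]
        ring

theorem Om_ne (D : Dat) (n T : ℕ) : D.Om n T ≠ 0 := by
  have hq : 1 ≤ D.q := by
    have := D.hq
    omega
  unfold Dat.Om
  refine Finset.prod_ne_zero_iff.mpr fun c _ => ?_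
  intro h
  exact W_ne n T D.w hq ((taylor_injective (c : ℝ)) (by rw [h, map_zero]))

end CM68
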