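import Pool.Agent.LibCM68.Defs

/-!
# Row S3: the products of the sizes (MEDIUM; template LibHZ3 row PR1, store HZ3_PR1.lean)

Plan: `UA_one`: all factors `≥ 1`.  `UA_prod`: `Real.log_prod`, `Fintype.sum_sum_type`, `Fintype.sum_prod_type`,
`∑_{i < d} (log B + d + i log Q₁) ≤ d log B + d² + d²/2 log Q₁` (`∑ i = d (d-1) / 2`, `Finset.sum_range_id_mul_two`;
`log Q₁ ≥ 0`).
`EB_prod`: `log (2 r + 1)` times `∑_{p < κ} (d - w win - p)`; here `w * win + κ ≤ K ≤ d`, so the natural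
subtraction is exact.  `log Wb = w * win * (2 log q + 8 log 2 + 1) ≤ 13 w win log q` (`log 2 ≤ log q`, `log 2 ≥ 0.69`:
`8 log 2 + 1 ≤ 8 log q + 1.5 log q`, `1 ≤ 1.5 log 2`).
-/

namespace CM68

open Finset Polynomial

theorem UA_one {Φ : Finset (ℕ × ℕ)} {s d K Q₁ Q₂ : ℕ} {B : ℝ} (h1 : 1 ≤ Q₁) (h2 : 1 ≤ Q₂) (hB : 1 ≤ B)
    (a : RA Φ s d K) : 1 ≤ UA Φ s d K Q₁ Q₂ B a := by
  have h1' : (1 : ℝ) ≤ Q₁ := by exact_mod_cast h1
  have h2' : (1 : ℝ) ≤ Q₂ := by exact_mod_cast h2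
  rcases a with ⟨x, i⟩ | ⟨x, i⟩ | ⟨x, i⟩
  · show (1 : ℝ) ≤ B * (Real.exp d * (Q₁ : ℝ) ^ (i : ℕ))
    exact one_le_mul_of_one_le_of_one_le hB
      (one_le_mul_of_one_le_of_one_le (Real.one_le_exp (Nat.cast_nonneg _)) (one_le_pow₀ h1'))
  · show (1 : ℝ) ≤ B * (Real.exp d * (Q₁ : ℝ) ^ (i : ℕ))
    exact one_le_mul_of_one_le_of_one_le hB
      (one_le_mul_of_one_le_of_one_le (Real.one_le_exp (Nat.cast_nonneg _)) (one_le_pow₀ h1'))
  · show (1 : ℝ) ≤ B * (Real.exp K * (Q₂ : ℝ) ^ (i : ℕ))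
    exact one_le_mul_of_one_le_of_one_le hB
      (one_le_mul_of_one_le_of_one_le (Real.one_le_exp (Nat.cast_nonneg _)) (one_le_pow₀ h2'))

private theorem S3_sum (d : ℕ) : ∑ k : Fin d, ((k : ℕ) : ℝ) = (d : ℝ) * (d - 1) / 2 := by
  rw [Fin.sum_univ_eq_sum_range (fun k : ℕ => (k : ℝ))]
  induction d with
  | zero => simp
  | succ d ih =>
    rw [Finset.sum_range_succ, ih]
    push_cast
    ring

private theorem S3_log {d Q : ℕ} {B : ℝ} (h1 : 1 ≤ Q) (hB : 1 ≤ B) (i : ℕ) :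
    Real.log (B * (Real.exp d * (Q : ℝ) ^ i)) = (Real.log B + d) + (i : ℝ) * Real.log Q := by
  have h1' : (1 : ℝ) ≤ Q := by exact_mod_cast h1
  rw [Real.log_mul (by positivity) (by positivity),
    Real.log_mul (Real.exp_ne_zero _) (by positivity), Real.log_exp, Real.log_pow]
  ring

theorem UA_prod {Φ : Finset (ℕ × ℕ)} {s d K Q₁ Q₂ : ℕ} {B : ℝ} (h1 : 1 ≤ Q₁) (h2 : 1 ≤ Q₂)
    (hB : 1 ≤ B) :
    Real.log (∏ a, UA Φ s d K Q₁ Q₂ B a) ≤
      2 * Φ.card * (d * Real.log B + (d : ℝ) ^ 2 + (d : ℝ) ^ 2 / 2 * Real.log Q₁) +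
      s * (K * Real.log B + (K : ℝ) ^ 2 + (K : ℝ) ^ 2 / 2 * Real.log Q₂) := by
  have h1' : (1 : ℝ) ≤ Q₁ := by exact_mod_cast h1
  have h2' : (1 : ℝ) ≤ Q₂ := by exact_mod_cast h2
  have l1 : 0 ≤ Real.log Q₁ := Real.log_nonneg h1'
  have l2 : 0 ≤ Real.log Q₂ := Real.log_nonneg h2'
  rw [Real.log_prod (fun r _ => ne_of_gt (lt_of_lt_of_le one_pos (UA_one h1 h2 hB r))),
    Fintype.sum_sum_type, Fintype.sum_sum_type]
  have e1 : ∑ x : (Φ × Fin d), Real.log (UA Φ s d K Q₁ Q₂ B (Sum.inl x)) =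
      Φ.card * (d * (Real.log B + d) + (d : ℝ) * (d - 1) / 2 * Real.log Q₁) := by
    have : ∀ x : (Φ × Fin d), Real.log (UA Φ s d K Q₁ Q₂ B (Sum.inl x)) =
        (Real.log B + d) + ((x.2 : ℕ) : ℝ) * Real.log Q₁ := by
      rintro ⟨x, i⟩
      exact S3_log h1 hB i
    rw [Finset.sum_congr rfl fun k _ => this k, Fintype.sum_prod_type]
    simp only [Finset.sum_add_distrib, Finset.sum_const, ← Finset.sum_mul,
      S3_sum, Finset.card_univ, Fintype.card_fin, Fintype.card_coe, nsmul_eq_mul]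
    ring
  have e2 : ∑ x : (Φ × Fin d), Real.log (UA Φ s d K Q₁ Q₂ B (Sum.inr (Sum.inl x))) =
      Φ.card * (d * (Real.log B + d) + (d : ℝ) * (d - 1) / 2 * Real.log Q₁) := by
    have : ∀ x : (Φ × Fin d), Real.log (UA Φ s d K Q₁ Q₂ B (Sum.inr (Sum.inl x))) =
        (Real.log B + d) + ((x.2 : ℕ) : ℝ) * Real.log Q₁ := by
      rintro ⟨x, i⟩
      exact S3_log h1 hB i
    rw [Finset.sum_congr rfl fun k _ => this k, Fintype.sum_prod_type]
    simp only [Finset.sum_add_distrib, Finset.sum_const, ← Finset.sum_mul,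
      S3_sum, Finset.card_univ, Fintype.card_fin, Fintype.card_coe, nsmul_eq_mul]
    ring
  have e3 : ∑ x : (Fin s × Fin K), Real.log (UA Φ s d K Q₁ Q₂ B (Sum.inr (Sum.inr x))) =
      s * (K * (Real.log B + K) + (K : ℝ) * (K - 1) / 2 * Real.log Q₂) := by
    have : ∀ x : (Fin s × Fin K), Real.log (UA Φ s d K Q₁ Q₂ B (Sum.inr (Sum.inr x))) =
        (Real.log B + K) + ((x.2 : ℕ) : ℝ) * Real.log Q₂ := by
      rintro ⟨x, i⟩
      exact S3_log h2 hB i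
    rw [Finset.sum_congr rfl fun k _ => this k, Fintype.sum_prod_type]
    simp only [Finset.sum_add_distrib, Finset.sum_const, ← Finset.sum_mul,
      S3_sum, Finset.card_univ, Fintype.card_fin, nsmul_eq_mul]
    ring
  rw [e1, e2, e3]
  have hd : (0 : ℝ) ≤ d := Nat.cast_nonneg _
  have hK : (0 : ℝ) ≤ K := Nat.cast_nonneg _
  have f1 : (d : ℝ) * (Real.log B + d) + (d : ℝ) * (d - 1) / 2 * Real.log Q₁ ≤
      d * Real.log B + (d : ℝ) ^ 2 + (d : ℝ) ^ 2 / 2 * Real.log Q₁ := by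
    nlinarith [mul_nonneg hd l1]
  have f2 : (K : ℝ) * (Real.log B + K) + (K : ℝ) * (K - 1) / 2 * Real.log Q₂ ≤
      K * Real.log B + (K : ℝ) ^ 2 + (K : ℝ) ^ 2 / 2 * Real.log Q₂ := by
    nlinarith [mul_nonneg hK l2]
  have g1 := mul_le_mul_of_nonneg_left f1 (Nat.cast_nonneg (α := ℝ) Φ.card)
  have g2 := mul_le_mul_of_nonneg_left f2 (Nat.cast_nonneg (α := ℝ) s)
  calc _ ≤ (Φ.card : ℝ) * (d * Real.log B + (d : ℝ) ^ 2 + (d : ℝ) ^ 2 / 2 * Real.log Q₁) +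
      ((Φ.card : ℝ) * (d * Real.log B + (d : ℝ) ^ 2 + (d : ℝ) ^ 2 / 2 * Real.log Q₁) +
      s * (K * Real.log B + (K : ℝ) ^ 2 + (K : ℝ) ^ 2 / 2 * Real.log Q₂)) :=
        add_le_add g1 (add_le_add g1 g2)
    _ = _ := by ring

theorem EB_pos {q n r w d K Q₂ : ℕ} {M : ℝ} (hq : 1 ≤ q) (hQ : 1 ≤ Q₂) (hM : 1 ≤ M) (p : ℕ) :
    0 < EB q n r w d K Q₂ M p := by
  have h1 : (1 : ℝ) ≤ q := by exact_mod_cast hq
  have h2 : (1 : ℝ) ≤ Q₂ := by exact_mod_cast hQ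
  unfold EB Wb
  positivity

theorem EB_prod {q n r w d K κ Q₂ : ℕ} {M : ℝ} (hq : 2 ≤ q) (hQ : 1 ≤ Q₂) (hM : 1 ≤ M)
    (hκ : κ + w * win n (r * n) ≤ K) (hKd : K ≤ d) :
    Real.log (∏ p : Fin κ, EB q n r w d K Q₂ M p) ≤
      κ * (Real.log M + Real.log (2 ^ (w + 1) * ((d : ℝ) + 1) ^ w)) +
      κ * (13 * (w * win n (r * n)) * Real.log q) + (κ : ℝ) * K + (κ : ℝ) ^ 2 / 2 * Real.log Q₂ -
      (((d : ℝ) - w * win n (r * n)) * κ - (κ : ℝ) ^ 2 / 2) * Real.log (2 * r + 1) := by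
  have hq1 : 1 ≤ q := by omega
  have hq2 : (2 : ℝ) ≤ q := by exact_mod_cast hq
  have h2 : (1 : ℝ) ≤ Q₂ := by exact_mod_cast hQ
  have hr0 : (0 : ℝ) ≤ r := Nat.cast_nonneg _
  have l2 : 0 ≤ Real.log Q₂ := Real.log_nonneg h2
  have l3 : 0 ≤ Real.log (2 * (r : ℝ) + 1) := Real.log_nonneg (by linarith)
  have lq : Real.log 2 ≤ Real.log q := Real.log_le_log (by norm_num) hq2
  have l69 : (0.6931471803 : ℝ) < Real.log 2 := Real.log_two_gt_d9
  have hWb : Real.log (Wb q n (r * n) w) ≤ 13 * (w * win n (r * n)) * Real.log q := by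
    unfold Wb
    have hqp : (0 : ℝ) < q := by linarith
    rw [Real.log_pow, Real.log_mul (by positivity) (Real.exp_ne_zero _),
      Real.log_mul (by positivity) (by positivity), Real.log_pow, Real.log_pow, Real.log_exp]
    push_cast
    have hw : (0 : ℝ) ≤ w := Nat.cast_nonneg _
    have hwin : (0 : ℝ) ≤ win n (r * n) := Nat.cast_nonneg _
    have hh : 2 * Real.log q + 8 * Real.log 2 + 1 ≤ 13 * Real.log q := by linarith
    have := mul_le_mul_of_nonneg_left hh (mul_nonneg hw hwin)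
    nlinarith [this]
  rw [Real.log_prod (f := fun p : Fin κ => EB q n r w d K Q₂ M (p : ℕ))
    (fun p _ => ne_of_gt (EB_pos hq1 hQ hM (p : ℕ)))]
  have key : ∀ p : Fin κ, Real.log (EB q n r w d K Q₂ M p) =
      (Real.log M + Real.log (2 ^ (w + 1) * ((d : ℝ) + 1) ^ w) -
        ((d : ℝ) - w * win n (r * n)) * Real.log (2 * r + 1) + Real.log (Wb q n (r * n) w) + K) +
        ((p : ℕ) : ℝ) * (Real.log Q₂ + Real.log (2 * r + 1)) := by
    intro p
    have hp : (p : ℕ) < κ := p.2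
    have hWpos : 0 < Wb q n (r * n) w := by
      unfold Wb
      have hqp : (0 : ℝ) < q := by linarith
      positivity
    unfold EB
    have hle1 : w * win n (r * n) ≤ d := by omega
    have hle2 : (p : ℕ) ≤ d - w * win n (r * n) := by omega
    have hA : (0 : ℝ) < 2 ^ (w + 1) * ((d : ℝ) + 1) ^ w := by positivity
    have hR : (0 : ℝ) < 1 / (2 * (r : ℝ) + 1) := by positivity
    generalize (2 : ℝ) ^ (w + 1) * ((d : ℝ) + 1) ^ w = A at hA ⊢
    rw [Real.log_mul (by positivity) (by positivity),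
      Real.log_mul (by positivity) (by positivity),
      Real.log_mul (by positivity) (by positivity),
      Real.log_mul (by positivity) (by positivity),
      Real.log_mul (Real.exp_ne_zero _) (by positivity), Real.log_exp, Real.log_pow, Real.log_pow,
      one_div, Real.log_inv]
    rw [Nat.cast_sub hle2, Nat.cast_sub hle1]
    push_cast
    ring
  rw [Finset.sum_congr rfl fun k _ => key k]
  simp only [Finset.sum_add_distrib, Finset.sum_const, ← Finset.sum_mul,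
      S3_sum, Finset.card_univ, Fintype.card_fin, nsmul_eq_mul]
  have hκ0 : (0 : ℝ) ≤ κ := Nat.cast_nonneg _
  have m1 := mul_le_mul_of_nonneg_left hWb hκ0
  have m2 : (κ : ℝ) * (κ - 1) / 2 * (Real.log Q₂ + Real.log (2 * r + 1)) ≤
      (κ : ℝ) ^ 2 / 2 * (Real.log Q₂ + Real.log (2 * r + 1)) := by
    apply mul_le_mul_of_nonneg_right _ (by linarith)
    nlinarith
  nlinarith [m1, m2]

end CM68
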