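import Pool.Agent.LibCM68.A4
import Pool.Agent.LibCM68.A5
import Pool.Agent.LibCM68.D0
import Pool.Agent.LibCM68.S2

/-!
# Row SM: the rows (iv) are small modulo the others (MEDIUM; template LibHZ7 row D3, store HZ7_D3.lean)

Let `Ψ` be the polynomial of `C(j, i)` (`choose_poly`) and `Ω = Om * Ψ`, `natDegree Ω ≤ ww * win + i < K` (`Om_natDegree`),
`N = d - ww * win - i ≥ 1`, `x = j % q ∈ I`, `T = r n`.  For `p = (k, c) ∈ Φ`, `y = j + c < q n`, `y % q = (x + c) % q > 0`.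
By `hrel`, `split`, `splitT` at `y`:
`G n T j = ∑ p, al p x * tl(y) + ta p x * (tl(y) + (-1)^k tl(q n - y)) - ∑ l, b x l * ξ l`.
With the polynomials `G₁ k`, `G₂ k` of `tail_poly` (degree `< N`), shifted: `g₁ p = taylor c (G₁ k)`, `g₂ p = taylor c (G₂ k)`:
`v' j = (∑ p, al p x * (tl(y) - g₁ p(j)) + ta p x * ((tl(y) - g₁ p(j)) + (-1)^k (tl(q n - y) - g₂ p(j)))) * Ω(j)`;
`v' - rowB = ∑ l, ξ l * (b l * Ω) - ∑ p, al p * (g₁ p * Ω) - ∑ p, ta p * ((g₁ p + (-1)^k g₂ p) * Ω)`: `span_iii`,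
`span_al`, `span_ta` (`natDegree (g₁ p * Ω) ≤ (N - 1) + ww * win + i < d`).  The size: `tail_poly`,
`2^(k+1) (N+1)^k ≤ 2^(ww+1) (d+1)^ww` for `k ≤ w ≤ ww` (`Cs` is not empty if `Φ` is not empty; `ww = w |Cs|`).
-/

namespace CM68

open Finset Polynomial

theorem rows_small (D : Dat) {n r d K i : ℕ} (hn : 1 ≤ n) (hr : 1 ≤ r)
    (hK : i + D.ww * win n (r * n) < K) (hKd : K ≤ d) {M : ℝ}
    (hM : ∀ x ∈ D.I, ∑ p ∈ D.Φ, (|(D.al p x : ℝ)| + 2 * |(D.ta p x : ℝ)|) ≤ M) :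
    ∃ v' : D.Nd n → ℝ, (v' - fun j : D.Nd n => D.rowB n (r * n) i j) ∈ D.rsp n d K ∧
      ∀ j : D.Nd n, |v' j| ≤
        M * (2 ^ (D.ww + 1) * ((d : ℝ) + 1) ^ D.ww *
          (1 / (2 * (r : ℝ) + 1)) ^ (d - D.ww * win n (r * n) - i)) *
        (|(D.Om n (r * n)).eval ((j : ℕ) : ℝ)| * ((j : ℕ).choose i : ℝ)) := by
  classical
  obtain ⟨Ψ, hΨ, hΨ'⟩ := choose_poly i
  obtain ⟨N, hN⟩ : ∃ N, N = d - D.ww * win n (r * n) - i := ⟨_, rfl⟩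
  have hN1 : 1 ≤ N := by omega
  have hq1 : 1 ≤ D.q := le_trans (by norm_num) D.hq
  -- the polynomials
  have hG : ∀ k : ℕ, ∃ G₁ G₂ : ℝ[X], 2 ≤ k → G₁.natDegree < N ∧ G₂.natDegree < N ∧
      (∀ y : ℝ, 0 ≤ y → y ≤ (D.q : ℝ) * n → |tl D.q k (r * n) y - G₁.eval y| ≤
        2 ^ (k + 1) * ((N : ℝ) + 1) ^ k * (1 / (2 * (r : ℝ) + 1)) ^ N) ∧
      (∀ y : ℝ, 0 ≤ y → y ≤ (D.q : ℝ) * n →
        |tl D.q k (r * n) ((D.q : ℝ) * n - y) - G₂.eval y| ≤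
        2 ^ (k + 1) * ((N : ℝ) + 1) ^ k * (1 / (2 * (r : ℝ) + 1)) ^ N) := by
    intro k
    by_cases hk : 2 ≤ k
    · obtain ⟨⟨G₁, h1, h2⟩, ⟨G₂, h3, h4⟩⟩ :=
        tail_poly (q := D.q) (n := n) (r := r) (k := k) (N := N) hq1 hn hr hk hN1
      exact ⟨G₁, G₂, fun _ => ⟨h1, h3, h2, h4⟩⟩
    · exact ⟨0, 0, fun h => absurd h hk⟩
  choose G₁ G₂ hG using hG
  obtain ⟨g₁, hg₁⟩ : ∃ g₁ : ℕ × ℕ → ℝ[X], ∀ p, g₁ p = taylor (p.2 : ℝ) (G₁ p.1) :=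
    ⟨_, fun p => rfl⟩
  obtain ⟨g₂, hg₂⟩ : ∃ g₂ : ℕ × ℕ → ℝ[X], ∀ p, g₂ p = taylor (p.2 : ℝ) (G₂ p.1) :=
    ⟨_, fun p => rfl⟩
  have hΦ : ∀ p ∈ D.Φ, 2 ≤ p.1 ∧ p.1 ≤ D.w ∧ p.2 < D.q ∧ p.2 ∈ D.Cs := by
    intro p hp
    have h1 := mem_product.1 hp
    exact ⟨(D.hJ _ h1.1).1, (D.hJ _ h1.1).2, D.hC _ h1.2, h1.2⟩
  have hgd : ∀ p ∈ D.Φ, (g₁ p).natDegree < N ∧ (g₂ p).natDegree < N := by
    intro p hp
    have h1 := hG p.1 (hΦ p hp).1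
    rw [hg₁, hg₂, natDegree_taylor, natDegree_taylor]
    exact ⟨h1.1, h1.2.1⟩
  obtain ⟨Ω, hΩ⟩ : ∃ Ω : ℝ[X], Ω = D.Om n (r * n) * Ψ := ⟨_, rfl⟩
  have hΩd : Ω.natDegree ≤ D.ww * win n (r * n) + i := by
    rw [hΩ]
    refine natDegree_mul_le.trans ?_
    have h1 := Om_natDegree D n (r * n)
    omega
  have hΩe : ∀ j : ℕ, Ω.eval (j : ℝ) = (D.Om n (r * n)).eval (j : ℝ) * (j.choose i : ℝ) := by
    intro j
    rw [hΩ, eval_mul, hΨ']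
  -- facts on the nodes
  have hnode : ∀ j : D.Nd n, (j : ℕ) % D.q ∈ D.I ∧ ∀ p ∈ D.Φ, (j : ℕ) + p.2 < D.q * n := by
    intro j
    obtain ⟨hj1, hj2⟩ : (j : ℕ) ∈ range (D.q * (n - 1)) ∧ (j : ℕ) % D.q ∈ D.I :=
      mem_filter.1 j.2
    refine ⟨hj2, fun p hp => ?_⟩
    have h1 := mem_range.1 hj1
    have h2 := (hΦ p hp).2.2.1
    obtain ⟨n', rfl⟩ : ∃ n', n = n' + 1 := ⟨n - 1, by omega⟩
    rw [Nat.add_sub_cancel] at h1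
    have h3 : D.q * (n' + 1) = D.q * n' + D.q := by ring
    omega
  -- the relation
  have hrel : ∀ j : D.Nd n, D.G n (r * n) j = ∑ p ∈ D.Φ,
      ((D.al p ((j : ℕ) % D.q) : ℝ) * tl D.q p.1 (r * n) (((j : ℕ) + p.2 : ℕ) : ℝ) +
        (D.ta p ((j : ℕ) % D.q) : ℝ) * (tl D.q p.1 (r * n) (((j : ℕ) + p.2 : ℕ) : ℝ) +
          (-1) ^ p.1 * tl D.q p.1 (r * n) ((D.q : ℝ) * n - (((j : ℕ) + p.2 : ℕ) : ℝ)))) -
      ∑ l, (D.b ((j : ℕ) % D.q) l : ℝ) * D.ξ l := by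
    intro j
    obtain ⟨hjI, hjn⟩ := hnode j
    have h1 := D.hrel _ hjI
    have h2 : ∀ p ∈ D.J ×ˢ D.Cs, ((D.al p ((j : ℕ) % D.q) : ℝ) *
        sk D.q p.1 ((((j : ℕ) % D.q + p.2) % D.q : ℕ) : ℝ) +
        (D.ta p ((j : ℕ) % D.q) : ℝ) * (sk D.q p.1 ((((j : ℕ) % D.q + p.2) % D.q : ℕ) : ℝ) +
        (-1) ^ p.1 * sk D.q p.1 ((D.q : ℝ) - ((((j : ℕ) % D.q + p.2) % D.q : ℕ) : ℝ)))) =
        ((D.al p ((j : ℕ) % D.q) : ℝ) * ps D.q (r * n) p.1 ((j : ℕ) + p.2) +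
          (D.ta p ((j : ℕ) % D.q) : ℝ) * rr D.q n (r * n) p.1 (((j : ℕ) + p.2 : ℕ) : ℝ)) +
        ((D.al p ((j : ℕ) % D.q) : ℝ) * tl D.q p.1 (r * n) (((j : ℕ) + p.2 : ℕ) : ℝ) +
        (D.ta p ((j : ℕ) % D.q) : ℝ) * (tl D.q p.1 (r * n) (((j : ℕ) + p.2 : ℕ) : ℝ) +
          (-1) ^ p.1 * tl D.q p.1 (r * n)
            ((D.q : ℝ) * n - (((j : ℕ) + p.2 : ℕ) : ℝ)))) := by
      intro p hp
      have hp' : p ∈ D.Φ := hp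
      have e1 : ((j : ℕ) % D.q + p.2) % D.q = ((j : ℕ) + p.2) % D.q := Nat.mod_add_mod _ _ _
      have hpos := D.hxc _ hjI p.2 (hΦ p hp').2.2.2
      rw [e1] at hpos ⊢
      rw [splitT hq1 (hΦ p hp').1 (r * n) hpos (hjn p hp'),
        split hq1 (hΦ p hp').1 (r * n) hpos]
      ring
    rw [sum_congr rfl h2, sum_add_distrib] at h1
    unfold Dat.G
    have h3 : D.Φ = D.J ×ˢ D.Cs := rfl
    rw [h3]
    linear_combination (-1 : ℝ) * h1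
  refine ⟨fun j => (∑ p ∈ D.Φ, ((D.al p ((j : ℕ) % D.q) : ℝ) *
      (tl D.q p.1 (r * n) (((j : ℕ) + p.2 : ℕ) : ℝ) - (g₁ p).eval ((j : ℕ) : ℝ)) +
    (D.ta p ((j : ℕ) % D.q) : ℝ) *
      ((tl D.q p.1 (r * n) (((j : ℕ) + p.2 : ℕ) : ℝ) - (g₁ p).eval ((j : ℕ) : ℝ)) +
      (-1) ^ p.1 * (tl D.q p.1 (r * n) ((D.q : ℝ) * n - (((j : ℕ) + p.2 : ℕ) : ℝ)) -
        (g₂ p).eval ((j : ℕ) : ℝ))))) * Ω.eval ((j : ℕ) : ℝ), ?_, ?_⟩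
  · obtain ⟨g₃, hg₃⟩ : ∃ g₃ : ℕ × ℕ → ℝ[X], ∀ p, g₃ p = g₁ p + C ((-1 : ℝ) ^ p.1) * g₂ p :=
      ⟨_, fun p => rfl⟩
    have h1 : ((fun j : D.Nd n => (∑ p ∈ D.Φ, ((D.al p ((j : ℕ) % D.q) : ℝ) *
          (tl D.q p.1 (r * n) (((j : ℕ) + p.2 : ℕ) : ℝ) - (g₁ p).eval ((j : ℕ) : ℝ)) +
        (D.ta p ((j : ℕ) % D.q) : ℝ) *
          ((tl D.q p.1 (r * n) (((j : ℕ) + p.2 : ℕ) : ℝ) - (g₁ p).eval ((j : ℕ) : ℝ)) +
          (-1) ^ p.1 * (tl D.q p.1 (r * n) ((D.q : ℝ) * n - (((j : ℕ) + p.2 : ℕ) : ℝ)) -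
            (g₂ p).eval ((j : ℕ) : ℝ))))) * Ω.eval ((j : ℕ) : ℝ)) -
        fun j : D.Nd n => D.rowB n (r * n) i j) =
        (∑ l, D.ξ l • fun j : D.Nd n => (D.b ((j : ℕ) % D.q) l : ℝ) * Ω.eval ((j : ℕ) : ℝ)) -
        (∑ p ∈ D.Φ, fun j : D.Nd n =>
          (D.al p ((j : ℕ) % D.q) : ℝ) * (g₁ p * Ω).eval ((j : ℕ) : ℝ)) -
        (∑ p ∈ D.Φ, fun j : D.Nd n =>
          (D.ta p ((j : ℕ) % D.q) : ℝ) * (g₃ p * Ω).eval ((j : ℕ) : ℝ)) := by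
      funext j
      simp only [Pi.sub_apply, Finset.sum_apply, Pi.smul_apply, smul_eq_mul]
      unfold Dat.rowB
      rw [hrel j, ← hΩe, sub_mul, sum_mul, sum_mul, sum_mul]
      have e1 : ∀ p ∈ D.Φ, ((D.al p ((j : ℕ) % D.q) : ℝ) *
          (tl D.q p.1 (r * n) (((j : ℕ) + p.2 : ℕ) : ℝ) - (g₁ p).eval ((j : ℕ) : ℝ)) +
        (D.ta p ((j : ℕ) % D.q) : ℝ) *
          ((tl D.q p.1 (r * n) (((j : ℕ) + p.2 : ℕ) : ℝ) - (g₁ p).eval ((j : ℕ) : ℝ)) +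
          (-1) ^ p.1 * (tl D.q p.1 (r * n) ((D.q : ℝ) * n - (((j : ℕ) + p.2 : ℕ) : ℝ)) -
            (g₂ p).eval ((j : ℕ) : ℝ)))) * Ω.eval ((j : ℕ) : ℝ) =
          (((D.al p ((j : ℕ) % D.q) : ℝ) * tl D.q p.1 (r * n) (((j : ℕ) + p.2 : ℕ) : ℝ) +
        (D.ta p ((j : ℕ) % D.q) : ℝ) * (tl D.q p.1 (r * n) (((j : ℕ) + p.2 : ℕ) : ℝ) +
          (-1) ^ p.1 * tl D.q p.1 (r * n)
            ((D.q : ℝ) * n - (((j : ℕ) + p.2 : ℕ) : ℝ)))) * Ω.eval ((j : ℕ) : ℝ) -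
          (D.al p ((j : ℕ) % D.q) : ℝ) * (g₁ p * Ω).eval ((j : ℕ) : ℝ)) -
          (D.ta p ((j : ℕ) % D.q) : ℝ) * (g₃ p * Ω).eval ((j : ℕ) : ℝ) := by
        intro p hp
        rw [hg₃, eval_mul, eval_mul, eval_add, eval_mul, eval_C]
        ring
      rw [sum_congr rfl e1, sum_sub_distrib, sum_sub_distrib]
      have e2 : ∀ l ∈ (univ : Finset (Fin D.s)), (D.b ((j : ℕ) % D.q) l : ℝ) * D.ξ l *
          Ω.eval ((j : ℕ) : ℝ) =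
          D.ξ l * ((D.b ((j : ℕ) % D.q) l : ℝ) * Ω.eval ((j : ℕ) : ℝ)) := by
        intro l _
        ring
      rw [sum_congr rfl e2]
      ring
    rw [h1]
    refine Submodule.sub_mem _ (Submodule.sub_mem _ (Submodule.sum_mem _ fun l _ =>
      Submodule.smul_mem _ _ (span_iii D (by omega) l)) (Submodule.sum_mem _ fun p hp =>
      span_al D ?_ hp)) (Submodule.sum_mem _ fun p hp => span_ta D ?_ hp)
    · have h2 := (hgd p hp).1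
      have h3 : (g₁ p * Ω).natDegree ≤ (g₁ p).natDegree + Ω.natDegree := natDegree_mul_le
      omega
    · have h2 := hgd p hp
      have h3 : (g₃ p * Ω).natDegree ≤ (g₃ p).natDegree + Ω.natDegree := natDegree_mul_le
      have h4 : (g₃ p).natDegree ≤ max (g₁ p).natDegree (g₂ p).natDegree := by
        rw [hg₃]
        exact (natDegree_add_le _ _).trans (max_le_max le_rfl (natDegree_C_mul_le _ _))
      have h5 : max (g₁ p).natDegree (g₂ p).natDegree < N := max_lt h2.1 h2.2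
      omega
  · intro j
    obtain ⟨hjI, hjn⟩ := hnode j
    obtain ⟨Bd, hBd⟩ : ∃ Bd : ℝ, Bd = 2 ^ (D.ww + 1) * ((d : ℝ) + 1) ^ D.ww *
      (1 / (2 * (r : ℝ) + 1)) ^ N := ⟨_, rfl⟩
    have hρ : 0 ≤ (1 / (2 * (r : ℝ) + 1)) ^ N := by positivity
    have hBd0 : 0 ≤ Bd := by rw [hBd]; positivity
    have hB : ∀ p ∈ D.Φ, 2 ^ (p.1 + 1) * ((N : ℝ) + 1) ^ p.1 *
        (1 / (2 * (r : ℝ) + 1)) ^ N ≤ Bd := by
      intro p hp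
      obtain ⟨h2, hw, hcq, hc⟩ := hΦ p hp
      have hcard : 1 ≤ D.Cs.card := card_pos.2 ⟨_, hc⟩
      have hkw : p.1 ≤ D.ww := by
        unfold Dat.ww
        exact hw.trans (Nat.le_mul_of_pos_right _ hcard)
      rw [hBd]
      refine mul_le_mul_of_nonneg_right ?_ hρ
      have h3 : (2 : ℝ) ^ (p.1 + 1) ≤ 2 ^ (D.ww + 1) :=
        pow_le_pow_right₀ (by norm_num) (by omega)
      have hNd : (N : ℝ) ≤ d := by
        have : N ≤ d := by omega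
        exact_mod_cast this
      have h4 : ((N : ℝ) + 1) ^ p.1 ≤ ((d : ℝ) + 1) ^ p.1 :=
        pow_le_pow_left₀ (by positivity) (by linarith) _
      have h5 : ((d : ℝ) + 1) ^ p.1 ≤ ((d : ℝ) + 1) ^ D.ww :=
        pow_le_pow_right₀ (by have : (0 : ℝ) ≤ d := Nat.cast_nonneg d
                              linarith) hkw
      exact mul_le_mul h3 (h4.trans h5) (by positivity) (by positivity)
    have hsum : |∑ p ∈ D.Φ, ((D.al p ((j : ℕ) % D.q) : ℝ) *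
          (tl D.q p.1 (r * n) (((j : ℕ) + p.2 : ℕ) : ℝ) - (g₁ p).eval ((j : ℕ) : ℝ)) +
        (D.ta p ((j : ℕ) % D.q) : ℝ) *
          ((tl D.q p.1 (r * n) (((j : ℕ) + p.2 : ℕ) : ℝ) - (g₁ p).eval ((j : ℕ) : ℝ)) +
          (-1) ^ p.1 * (tl D.q p.1 (r * n) ((D.q : ℝ) * n - (((j : ℕ) + p.2 : ℕ) : ℝ)) -
            (g₂ p).eval ((j : ℕ) : ℝ))))| ≤ M * Bd := by
      refine (abs_sum_le_sum_abs _ _).trans ?_
      have h1 : ∀ p ∈ D.Φ, |(D.al p ((j : ℕ) % D.q) : ℝ) *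
          (tl D.q p.1 (r * n) (((j : ℕ) + p.2 : ℕ) : ℝ) - (g₁ p).eval ((j : ℕ) : ℝ)) +
        (D.ta p ((j : ℕ) % D.q) : ℝ) *
          ((tl D.q p.1 (r * n) (((j : ℕ) + p.2 : ℕ) : ℝ) - (g₁ p).eval ((j : ℕ) : ℝ)) +
          (-1) ^ p.1 * (tl D.q p.1 (r * n) ((D.q : ℝ) * n - (((j : ℕ) + p.2 : ℕ) : ℝ)) -
            (g₂ p).eval ((j : ℕ) : ℝ)))| ≤
          (|(D.al p ((j : ℕ) % D.q) : ℝ)| + 2 * |(D.ta p ((j : ℕ) % D.q) : ℝ)|) * Bd := by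
        intro p hp
        have hk2 := (hΦ p hp).1
        have hy0 : (0 : ℝ) ≤ (((j : ℕ) + p.2 : ℕ) : ℝ) := Nat.cast_nonneg _
        have hyn : (((j : ℕ) + p.2 : ℕ) : ℝ) ≤ (D.q : ℝ) * n := by
          exact_mod_cast (hjn p hp).le
        have hGk := hG p.1 hk2
        have a1 : |tl D.q p.1 (r * n) (((j : ℕ) + p.2 : ℕ) : ℝ) -
            (g₁ p).eval ((j : ℕ) : ℝ)| ≤ Bd := by
          have h2 := (hGk.2.2.1 _ hy0 hyn).trans (hB p hp)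
          rw [hg₁, taylor_eval]
          have e : ((j : ℕ) : ℝ) + (p.2 : ℝ) = (((j : ℕ) + p.2 : ℕ) : ℝ) := by push_cast; ring
          rw [e]
          exact h2
        have a2 : |tl D.q p.1 (r * n) ((D.q : ℝ) * n - (((j : ℕ) + p.2 : ℕ) : ℝ)) -
            (g₂ p).eval ((j : ℕ) : ℝ)| ≤ Bd := by
          have h2 := (hGk.2.2.2 _ hy0 hyn).trans (hB p hp)
          rw [hg₂, taylor_eval]
          have e : ((j : ℕ) : ℝ) + (p.2 : ℝ) = (((j : ℕ) + p.2 : ℕ) : ℝ) := by push_cast; ring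
          rw [e]
          exact h2
        refine (abs_add_le _ _).trans ?_
        rw [abs_mul, abs_mul]
        have a3 : |(tl D.q p.1 (r * n) (((j : ℕ) + p.2 : ℕ) : ℝ) - (g₁ p).eval ((j : ℕ) : ℝ)) +
            (-1) ^ p.1 * (tl D.q p.1 (r * n) ((D.q : ℝ) * n - (((j : ℕ) + p.2 : ℕ) : ℝ)) -
            (g₂ p).eval ((j : ℕ) : ℝ))| ≤ 2 * Bd := by
          refine (abs_add_le _ _).trans ?_
          rw [abs_mul, abs_pow, abs_neg, abs_one, one_pow, one_mul]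
          linarith
        have a4 := mul_le_mul_of_nonneg_left a1 (abs_nonneg (D.al p ((j : ℕ) % D.q) : ℝ))
        have a5 := mul_le_mul_of_nonneg_left a3 (abs_nonneg (D.ta p ((j : ℕ) % D.q) : ℝ))
        linarith
      refine (sum_le_sum h1).trans ?_
      rw [← sum_mul]
      exact mul_le_mul_of_nonneg_right (hM _ hjI) hBd0
    have hΩa : |Ω.eval ((j : ℕ) : ℝ)| =
        |(D.Om n (r * n)).eval ((j : ℕ) : ℝ)| * ((j : ℕ).choose i : ℝ) := by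
      rw [hΩe, abs_mul, Nat.abs_cast]
    rw [← hN, ← hBd, ← hΩa, abs_mul]
    exact mul_le_mul_of_nonneg_right hsum (abs_nonneg _)

end CM68
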