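import Mathlib

/-!
# Row Z3: Casorati's lemma for several sums (STRONG, ONLY MATHLIB)

`F` a field over `ℝ` with an automorphism `σ`, whose fixed elements are real.  `A k l = ∑_{l' < l} σ^l' (ρ k)`.
Plan: induction on `p`, for all `ρ, c, e`.
`p = 0`: Casorati's lemma for `f`, induction on `S` as in LibHZ6Z/C2.lean (HZ6Z_C2.lean in the store; here in a field,
so simpler: divide by the last coefficient `x` and take `x = 1`; apply `σ.symm` to the difference of `σ (E l)` and
`E (l + 1)`: the coefficients `c i - σ.symm (c i)` vanish, so the `c i` are real, contradiction with `hf`).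
Step `p + 1`: `x = e (last)`.  If `x = 0` use the first `S + p` equations.  If `x ≠ 0` divide all by `x`, so `x = 1`.
Write `E l` for the equation, `u = ∑ μ i • f i`, `A k (l + 1) = σ (A k l) + ρ k`.  For `l < S + p`:
`E (l + 1) - σ (E l)` is
`∑ i, (c i - σ (c i) + μ i * ∑_{k ≤ p} e k * ρ k) * σ^(l+1) (f i) + σ^(l+1) u * ∑_{k < p} (e k - σ (e k)) * σ (A k l) = 0`
(use `e k * A k (l+1) - σ (e k) * σ (A k l) = (e k - σ (e k)) * σ (A k l) + e k * ρ k`).  Apply `σ.symm`: the induction
hypothesis (for `ρ` restricted to `k < p`, `hns` extends by `0`) gives `e k = σ (e k)`, so `e k = a k` real, `a p = 1`,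
and `c i - σ (c i) + μ i * ∑ a k * ρ k = 0` for all `i`.  For an `i` with `μ i ≠ 0` put `g = c i / μ i`:
`σ g - g = ∑ a k * ρ k`, so `a = 0` by `hns`, a contradiction.
-/

namespace CM68

open Finset

theorem Z3_symm {F : Type*} [Field F] (σ : F ≃+* F) (l : ℕ) (y : F) :
    σ.symm ((⇑σ)^[l + 1] y) = (⇑σ)^[l] y := by
  rw [Function.iterate_succ_apply', RingEquiv.symm_apply_apply]

theorem Z3_sum {F : Type*} [Field F] [Algebra ℝ F] (σ : F ≃+* F)
    (hσ : ∀ r : ℝ, σ (algebraMap ℝ F r) = algebraMap ℝ F r)
    {S : ℕ} (f : Fin S → F) (μ : Fin S → ℝ) (l : ℕ) :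
    (⇑σ)^[l] (∑ i, algebraMap ℝ F (μ i) * f i) = ∑ i, algebraMap ℝ F (μ i) * (⇑σ)^[l] (f i) := by
  induction l with
  | zero => rfl
  | succ l ih =>
    rw [Function.iterate_succ_apply', ih, map_sum]
    refine Finset.sum_congr rfl fun i _ => ?_
    rw [map_mul, hσ, Function.iterate_succ_apply']

/-- Casorati's lemma. -/
theorem Z3_cas {F : Type*} [Field F] [Algebra ℝ F] (σ : F ≃+* F)
    (hconst : ∀ g : F, σ g = g → ∃ r : ℝ, g = algebraMap ℝ F r) :
    ∀ {S : ℕ} (f : Fin S → F), LinearIndependent ℝ f → ∀ (c : Fin S → F),
      (∀ l < S, ∑ i, c i * (⇑σ)^[l] (f i) = 0) → c = 0 := by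
  intro S
  induction S with
  | zero => intro f _ c _; exact Subsingleton.elim _ _
  | succ S ih =>
    intro f hf c h
    have hf' : LinearIndependent ℝ fun i : Fin S => f i.castSucc :=
      hf.comp _ (Fin.castSucc_injective S)
    by_cases hx : c (Fin.last S) = 0
    · have h1 : (fun i : Fin S => c i.castSucc) = 0 := by
        refine ih _ hf' _ fun l hl => ?_
        have := h l (by omega)
        rw [Fin.sum_univ_castSucc, hx, zero_mul, add_zero] at this
        exact this
      funext i
      refine Fin.lastCases ?_ (fun j => ?_) i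
      · simpa using hx
      · simpa using congrFun h1 j
    · exfalso
      set x := c (Fin.last S) with hxd
      set d : Fin (S + 1) → F := fun i => c i / x with hd
      have hE : ∀ l < S + 1, ∑ i, d i * (⇑σ)^[l] (f i) = 0 := by
        intro l hl
        have : ∑ i, d i * (⇑σ)^[l] (f i) = (∑ i, c i * (⇑σ)^[l] (f i)) / x := by
          rw [Finset.sum_div]
          exact Finset.sum_congr rfl fun i _ => by simp only [hd]; ring
        rw [this, h l hl, zero_div]
      have hdl : d (Fin.last S) = 1 := div_self hx
      have h1 : (fun i : Fin S => σ.symm (d i.castSucc - σ (d i.castSucc))) = 0 := by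
        refine ih _ hf' _ fun l hl => ?_
        have e1 := hE (l + 1) (by omega)
        have e0 := congrArg σ (hE l (by omega))
        rw [map_sum, map_zero] at e0
        have e2 : ∑ i : Fin (S + 1), (d i - σ (d i)) * (⇑σ)^[l + 1] (f i) = 0 := by
          rw [← sub_eq_zero.2 (e1.trans e0.symm), ← Finset.sum_sub_distrib]
          refine Finset.sum_congr rfl fun i _ => ?_
          rw [map_mul, ← Function.iterate_succ_apply' (⇑σ) l (f i)]
          ring
        rw [Fin.sum_univ_castSucc, hdl, map_one, sub_self, zero_mul, add_zero] at e2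
        have e3 := congrArg σ.symm e2
        rw [map_sum, map_zero] at e3
        rw [← e3]
        refine Finset.sum_congr rfl fun i _ => ?_
        rw [map_mul, Z3_symm]
      have h2 : ∀ i : Fin (S + 1), ∃ r : ℝ, d i = algebraMap ℝ F r := by
        intro i
        refine Fin.lastCases ?_ (fun j => ?_) i
        · exact ⟨1, by rw [hdl, map_one]⟩
        · refine hconst _ ?_
          have := congrFun h1 j
          simp only [Pi.zero_apply] at this
          have := (map_eq_zero_iff σ.symm σ.symm.injective).1 this
          exact (sub_eq_zero.1 this).symm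
      choose r hr using h2
      have h3 := hE 0 (by omega)
      simp only [Function.iterate_zero, id_eq] at h3
      have h4 : ∑ i, r i • f i = 0 := by
        rw [← h3]
        exact Finset.sum_congr rfl fun i _ => by rw [hr i, Algebra.smul_def]
      have h5 := Fintype.linearIndependent_iff.1 hf r h4 (Fin.last S)
      have h6 := hr (Fin.last S)
      rw [h5, hdl, map_zero] at h6
      exact one_ne_zero h6

theorem cas3 {F : Type*} [Field F] [Algebra ℝ F] (σ : F ≃+* F)
    (hσ : ∀ r : ℝ, σ (algebraMap ℝ F r) = algebraMap ℝ F r)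
    (hconst : ∀ g : F, σ g = g → ∃ r : ℝ, g = algebraMap ℝ F r)
    {S : ℕ} (f : Fin S → F) (hf : LinearIndependent ℝ f) (μ : Fin S → ℝ) (hμ : ∃ i, μ i ≠ 0)
    {p : ℕ} (ρ : Fin p → F)
    (hns : ∀ (a : Fin p → ℝ) (g : F), σ g - g = ∑ k, algebraMap ℝ F (a k) * ρ k → a = 0)
    (c : Fin S → F) (e : Fin p → F)
    (h : ∀ l < S + p, ∑ i, c i * (⇑σ)^[l] (f i) +
      (⇑σ)^[l] (∑ i, algebraMap ℝ F (μ i) * f i) *
        ∑ k, e k * ∑ l' ∈ range l, (⇑σ)^[l'] (ρ k) = 0) :
    c = 0 ∧ e = 0 := by
  induction p generalizing c with
  | zero =>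
    refine ⟨Z3_cas σ hconst f hf c fun l hl => ?_, Subsingleton.elim _ _⟩
    have := h l (by omega)
    simpa using this
  | succ p ih =>
    have hns' : ∀ (a : Fin p → ℝ) (g : F),
        σ g - g = ∑ k, algebraMap ℝ F (a k) * ρ (Fin.castSucc k) → a = 0 := by
      intro a g hg
      have := hns (Fin.snoc a (0 : ℝ)) g (by
        rw [hg, Fin.sum_univ_castSucc]
        simp)
      funext k
      have h1 := congrFun this k.castSucc
      simpa using h1
    by_cases hx : e (Fin.last p) = 0
    · obtain ⟨h1, h2⟩ := ih (fun k => ρ k.castSucc) hns' c (fun k => e k.castSucc) (by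
        intro l hl
        have := h l (by omega)
        rw [Fin.sum_univ_castSucc (n := p), hx, zero_mul, add_zero] at this
        exact this)
      refine ⟨h1, ?_⟩
      funext k
      refine Fin.lastCases ?_ (fun j => ?_) k
      · simpa using hx
      · simpa using congrFun h2 j
    · exfalso
      set x := e (Fin.last p) with hxd
      set d : Fin S → F := fun i => c i / x with hd
      set t : Fin (p + 1) → F := fun k => e k / x with ht
      set u : F := ∑ i, algebraMap ℝ F (μ i) * f i with hu
      set A : Fin (p + 1) → ℕ → F := fun k l => ∑ l' ∈ range l, (⇑σ)^[l'] (ρ k) with hA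
      have hAs : ∀ k l, A k (l + 1) = σ (A k l) + ρ k := by
        intro k l
        simp only [hA]
        rw [Finset.sum_range_succ', map_sum]
        simp only [Function.iterate_succ_apply', Function.iterate_zero, id_eq]
      have hE : ∀ l < S + (p + 1), ∑ i, d i * (⇑σ)^[l] (f i) + (⇑σ)^[l] u * ∑ k, t k * A k l = 0 := by
        intro l hl
        have e1 : ∑ i, d i * (⇑σ)^[l] (f i) = (∑ i, c i * (⇑σ)^[l] (f i)) / x := by
          rw [Finset.sum_div]
          exact Finset.sum_congr rfl fun i _ => by simp only [hd]; ring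
        have e2 : ∑ k, t k * A k l = (∑ k, e k * A k l) / x := by
          rw [Finset.sum_div]
          exact Finset.sum_congr rfl fun i _ => by simp only [ht]; ring
        rw [e1, e2, ← mul_div_assoc, ← add_div]
        have := h l hl
        simp only [hA]
        rw [this, zero_div]
      have htl : t (Fin.last p) = 1 := div_self hx
      obtain ⟨h1, h2⟩ := ih (fun k => ρ k.castSucc) hns'
        (fun i => σ.symm (d i - σ (d i) + algebraMap ℝ F (μ i) * ∑ k, t k * ρ k))
        (fun k => σ.symm (t k.castSucc - σ (t k.castSucc))) (by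
          intro l hl
          have e1 := hE (l + 1) (by omega)
          have e0 := congrArg σ (hE l (by omega))
          rw [map_add, map_sum, map_zero, map_mul, map_sum,
            ← Function.iterate_succ_apply' (⇑σ) l u] at e0
          have e2 : ∑ i, (d i - σ (d i)) * (⇑σ)^[l + 1] (f i) +
              (⇑σ)^[l + 1] u * (∑ k, (t k - σ (t k)) * σ (A k l) + ∑ k, t k * ρ k) = 0 := by
            have e3 : ∑ i, (d i - σ (d i)) * (⇑σ)^[l + 1] (f i) =
                ∑ i, d i * (⇑σ)^[l + 1] (f i) - ∑ i, σ (d i * (⇑σ)^[l] (f i)) := by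
              rw [← Finset.sum_sub_distrib]
              refine Finset.sum_congr rfl fun i _ => ?_
              rw [map_mul, ← Function.iterate_succ_apply' (⇑σ) l (f i)]
              ring
            have e4 : ∑ k, (t k - σ (t k)) * σ (A k l) + ∑ k, t k * ρ k =
                ∑ k, t k * A k (l + 1) - ∑ k, σ (t k * A k l) := by
              rw [← Finset.sum_sub_distrib, ← Finset.sum_add_distrib]
              refine Finset.sum_congr rfl fun k _ => ?_
              rw [map_mul, hAs]
              ring
            rw [e3, e4]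
            linear_combination e1 - e0
          have e5 : ∑ k, (t k - σ (t k)) * σ (A k l) =
              ∑ k : Fin p, (t k.castSucc - σ (t k.castSucc)) * σ (A k.castSucc l) := by
            rw [Fin.sum_univ_castSucc, htl, map_one, sub_self, zero_mul, add_zero]
          rw [e5] at e2
          have e6 : (⇑σ)^[l + 1] u = ∑ i, algebraMap ℝ F (μ i) * (⇑σ)^[l + 1] (f i) :=
            Z3_sum σ hσ f μ (l + 1)
          have e7 : ∑ i, (d i - σ (d i) + algebraMap ℝ F (μ i) * ∑ k, t k * ρ k) *
                (⇑σ)^[l + 1] (f i) +
              (⇑σ)^[l + 1] u *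
                ∑ k : Fin p, (t k.castSucc - σ (t k.castSucc)) * σ (A k.castSucc l) = 0 := by
            have e8 : ∑ i, (d i - σ (d i) + algebraMap ℝ F (μ i) * ∑ k, t k * ρ k) *
                (⇑σ)^[l + 1] (f i) = ∑ i, (d i - σ (d i)) * (⇑σ)^[l + 1] (f i) +
                  (⇑σ)^[l + 1] u * ∑ k, t k * ρ k := by
              rw [e6, Finset.sum_mul, ← Finset.sum_add_distrib]
              exact Finset.sum_congr rfl fun i _ => by ring
            rw [e8]
            linear_combination e2
          have e9 := congrArg σ.symm e7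
          rw [map_add, map_sum, map_zero, map_mul, map_sum, Z3_symm] at e9
          rw [← e9]
          congr 1
          · refine Finset.sum_congr rfl fun i _ => ?_
            rw [map_mul, Z3_symm]
          · congr 1
            refine Finset.sum_congr rfl fun k _ => ?_
            rw [map_mul, RingEquiv.symm_apply_apply])
      have h3 : ∀ k : Fin (p + 1), ∃ r : ℝ, t k = algebraMap ℝ F r := by
        intro k
        refine Fin.lastCases ?_ (fun j => ?_) k
        · exact ⟨1, by rw [htl, map_one]⟩
        · refine hconst _ ?_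
          have := congrFun h2 j
          simp only [Pi.zero_apply] at this
          have := (map_eq_zero_iff σ.symm σ.symm.injective).1 this
          exact (sub_eq_zero.1 this).symm
      choose r hr using h3
      obtain ⟨i, hi⟩ := hμ
      have hi' : algebraMap ℝ F (μ i) ≠ 0 := by
        intro h0
        exact hi ((algebraMap ℝ F).injective (by rw [h0, map_zero]))
      have h4 := congrFun h1 i
      simp only [Pi.zero_apply] at h4
      have h5 := (map_eq_zero_iff σ.symm σ.symm.injective).1 h4
      have h6 := hns r (d i / algebraMap ℝ F (μ i)) (by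
        rw [map_div₀, hσ, ← sub_div, div_eq_iff hi']
        have : ∑ k, algebraMap ℝ F (r k) * ρ k = ∑ k, t k * ρ k :=
          Finset.sum_congr rfl fun k _ => by rw [hr k]
        rw [this]
        linear_combination -h5)
      have h7 := hr (Fin.last p)
      rw [h6, htl, Pi.zero_apply, map_zero] at h7
      exact one_ne_zero h7

end CM68
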