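import Pool.Agent.LibCM68.Z2
import Pool.Agent.LibCM68.Z3
import Pool.Agent.LibCM68.Z4a

/-!
# Row Z4: the zero estimate (STRONG)

Suppose `u ≠ 0`.  Let `S' = finrank W ≤ S`, `f : Fin S' → ℝ[X]` a basis of `W` (`Module.finBasis ℝ W`), `u = ∑ μ i • f i`,
`Φ = J ×ˢ Cs`, `t = Φ.card`, `Φ ≃ Fin t` (`Finset.equivFin`), `L = S' + t`, `Δ = DP q T w L Cs`.
Matrix `m : Matrix (Fin L) (Fin S' ⊕ Fin t) ℝ[X]` (reindex with `finSumFinEquiv`):
`m l (inl i) = taylor (l q) (f i)` (degree `≤ d`), `m l (inr p) = taylor (l q) u * g p l`, `g p l` from `DP_sum`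
(`p = (k, c)`; degree `≤ d + w L |Cs|`).
For a node `j ∈ P q (n - L) I` (so `j + q l < q n` for `l < L`; `card_nodes`: there are `I.card * (n - L)`) the vector
`v (inl i) = Δ(j) * (coordinate i of w' x - μ i * ∑ p, α p x * ps q T k (j + c))`, `v (inr p) = - α p x` (`x = j % q`) is
not `0` (some `α p x ≠ 0`) and `∑ m l i (j) * v i = Δ(j) * (the relation at j + q l) = 0` (`ps_shift` with `u := j + c`,
`taylor_eval`).
So `det m` vanishes at all these `j`; its degree is at most `S' d + t (d + w L |Cs|)`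
(`Matrix.det_apply`, `natDegree_sum_le_of_forall_le`, `natDegree_prod_le`, cf. HZ6Z_D1.lean in the store) `< I.card (n - L)`,
so `det m = 0` (`Polynomial.eq_zero_of_natDegree_lt_card_of_eval_eq_zero'`).  In `F = FractionRing ℝ[X]`
(`RingHom.map_det`) there is a vector `(c, e) ≠ 0` with
`∑ i, c i * algebraMap (m l (inl i)) + ∑ p, e p * algebraMap (m l (inr p)) = 0` (`Matrix.exists_mulVec_eq_zero_iff`).
With `σ = SG q`, `σ^[l] (algebraMap p) = algebraMap (taylor (l q) p)`, `ρ p = 1 / algebraMap (X + C (c + q (T+1)))^k`,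
`σ^[l'] (ρ p) = 1 / algebraMap (X + C (c + q (T + 1 + l')))^k`, this is `cas3` for `c` and `p ↦ algebraMap Δ * e p`
(`hns` from `nonsum`, `f` independent in `F`: `LinearIndependent.map'` with the injective `ℝ`-linear map `algebraMap`),
so `c = 0` and `e = 0` (`Δ ≠ 0`), a contradiction.
-/

namespace CM68

open Finset Polynomial

private theorem Z4_det_deg {ι : Type*} [Fintype ι] [DecidableEq ι] (M : Matrix ι ι ℝ[X]) (b : ι → ℕ)
    (h : ∀ i j, (M i j).natDegree ≤ b j) : M.det.natDegree ≤ ∑ j, b j := by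
  rw [Matrix.det_apply']
  refine natDegree_sum_le_of_forall_le _ _ ?_
  intro σ _
  refine natDegree_mul_le.trans ?_
  rw [natDegree_intCast, zero_add]
  refine (natDegree_prod_le _ _).trans ?_
  exact Finset.sum_le_sum fun j _ => h _ _

private theorem Z4_iter (h : ℝ) (p : ℝ[X]) (l : ℕ) :
    (⇑(SG h))^[l] (algebraMap ℝ[X] (FractionRing ℝ[X]) p) =
      algebraMap ℝ[X] (FractionRing ℝ[X]) (taylor (h * l) p) := by
  induction l with
  | zero => simp
  | succ l ih =>
    rw [Function.iterate_succ_apply', ih, SG_alg, taylor_taylor]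
    congr 2
    push_cast
    congr 1
    ring

private theorem Z4_iter_rho (h y : ℝ) (k l : ℕ) :
    (⇑(SG h))^[l] (1 / algebraMap ℝ[X] (FractionRing ℝ[X]) (X + C y) ^ k) =
      1 / algebraMap ℝ[X] (FractionRing ℝ[X]) (X + C (y + h * l)) ^ k := by
  induction l with
  | zero => simp
  | succ l ih =>
    rw [Function.iterate_succ_apply', ih, map_div₀, map_one, map_pow, SG_alg, map_add, taylor_X, taylor_C]
    congr 3
    rw [add_assoc, ← C_add]
    congr 2
    push_cast
    ring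

/-- the matrix -/
private noncomputable def Z4_M (h : ℝ) {S' t : ℕ} (f : Fin S' → ℝ[X]) (u : ℝ[X]) (g : Fin t → ℕ → ℝ[X]) :
    Matrix (Fin S' ⊕ Fin t) (Fin S' ⊕ Fin t) ℝ[X] :=
  fun a b => Sum.elim (fun i => taylor (h * ((finSumFinEquiv a : Fin (S' + t)) : ℕ)) (f i))
    (fun p => taylor (h * ((finSumFinEquiv a : Fin (S' + t)) : ℕ)) u *
      g p ((finSumFinEquiv a : Fin (S' + t)) : ℕ)) b

private theorem Z4_det_ne {q T S' t : ℕ} (hq : 1 ≤ q) (f : Fin S' → ℝ[X])
    (hf : LinearIndependent ℝ f) (μ : Fin S' → ℝ) (hμ : ∃ i, μ i ≠ 0) (φ : Fin t → ℕ × ℕ)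
    (hφ : Function.Injective φ) (h1 : ∀ p, 1 ≤ (φ p).1) (hC : ∀ p, (φ p).2 < q)
    (Δ : ℝ[X]) (hΔ : Δ ≠ 0) (g : Fin t → ℕ → ℝ[X])
    (hg : ∀ p, ∀ l < S' + t, algebraMap ℝ[X] (FractionRing ℝ[X]) (g p l) =
      algebraMap ℝ[X] (FractionRing ℝ[X]) Δ * ∑ l' ∈ range l,
        1 / algebraMap ℝ[X] (FractionRing ℝ[X])
          (X + C (((φ p).2 : ℝ) + (q : ℝ) * (T + 1 + l'))) ^ (φ p).1) :
    (Z4_M (q : ℝ) f (∑ i, μ i • f i) g).det ≠ 0 := by
  intro hdet
  have hq0 : (0 : ℝ) < q := by exact_mod_cast hq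
  set A := algebraMap ℝ[X] (FractionRing ℝ[X]) with hA
  have hdet2 : (A.mapMatrix (Z4_M (q : ℝ) f (∑ i, μ i • f i) g)).det = 0 := by
    rw [← RingHom.map_det, hdet, map_zero]
  obtain ⟨v, hv0, hv⟩ := Matrix.exists_mulVec_eq_zero_iff.2 hdet2
  have hAinj : Function.Injective A := IsFractionRing.injective ℝ[X] (FractionRing ℝ[X])
  have hreal : ∀ r : ℝ, algebraMap ℝ (FractionRing ℝ[X]) r = A (C r) := by
    intro r
    rw [IsScalarTower.algebraMap_apply ℝ ℝ[X] (FractionRing ℝ[X])]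
    rfl
  have hΔ' : A Δ ≠ 0 := by
    intro h0
    exact hΔ (hAinj (by rw [h0, map_zero]))
  have hlin : LinearIndependent ℝ (fun i => A (f i)) := by
    have h2 := hf.map' (IsScalarTower.toAlgHom ℝ ℝ[X] (FractionRing ℝ[X])).toLinearMap
      (LinearMap.ker_eq_bot.2 (fun x y hxy => hAinj hxy))
    exact h2
  have key := cas3 (SG (q : ℝ)) (SG_real (q : ℝ)) (SG_const hq0) (fun i => A (f i)) hlin μ hμ
    (fun p : Fin t => 1 / A (X + C (((φ p).2 : ℝ) + (q : ℝ) * (T + 1))) ^ (φ p).1)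
    (by
      intro a g' hg'
      have h3 := nonsum hq0 ((q : ℝ) * (T + 1)) (univ.image φ)
        (by
          intro p hp
          obtain ⟨i, _, rfl⟩ := mem_image.1 hp
          exact h1 i)
        (by
          intro p hp
          obtain ⟨i, _, rfl⟩ := mem_image.1 hp
          exact_mod_cast hC i)
        (Function.extend φ a 0) g'
        (by
          rw [hg', sum_image hφ.injOn]
          apply Finset.sum_congr rfl
          intro k _
          rw [hφ.extend_apply])
      funext k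
      have h4 := h3 (φ k) (mem_image_of_mem _ (mem_univ k))
      rw [hφ.extend_apply] at h4
      exact h4)
    (fun i => v (Sum.inl i)) (fun p => A Δ * v (Sum.inr p))
    (by
      intro l hl
      have h5 := congrFun hv (finSumFinEquiv.symm ⟨l, hl⟩)
      rw [Matrix.mulVec, dotProduct, Fintype.sum_sum_type, Pi.zero_apply] at h5
      rw [← h5]
      have hu : ∑ i, algebraMap ℝ (FractionRing ℝ[X]) (μ i) * A (f i) = A (∑ i, μ i • f i) := by
        rw [map_sum]
        apply Finset.sum_congr rfl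
        intro i _
        rw [hreal, ← map_mul, smul_eq_C_mul]
      rw [hu]
      congr 1
      · apply Finset.sum_congr rfl
        intro i _
        rw [Z4_iter, mul_comm]
        simp [Z4_M, hA, Matrix.map_apply]
      · rw [Z4_iter, Finset.mul_sum]
        apply Finset.sum_congr rfl
        intro p _
        have h6 : ∀ l' : ℕ, (⇑(SG (q : ℝ)))^[l'] (1 / A (X + C (((φ p).2 : ℝ) + (q : ℝ) * (T + 1))) ^ (φ p).1)
            = 1 / A (X + C (((φ p).2 : ℝ) + (q : ℝ) * (T + 1 + l'))) ^ (φ p).1 := by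
          intro l'
          rw [Z4_iter_rho]
          congr 5
          ring
        simp only [h6]
        have h7 : (Z4_M (q : ℝ) f (∑ i, μ i • f i) g) (finSumFinEquiv.symm ⟨l, hl⟩) (Sum.inr p) =
            taylor ((q : ℝ) * l) (∑ i, μ i • f i) * g p l := by
          simp [Z4_M]
        rw [RingHom.mapMatrix_apply, Matrix.map_apply, h7, map_mul, hg p l hl]
        ring)
  obtain ⟨hc, he⟩ := key
  apply hv0
  funext b
  rcases b with i | p
  · exact congrFun hc i
  · have h8 := congrFun he p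
    simp only [Pi.zero_apply, mul_eq_zero] at h8
    rcases h8 with h8 | h8
    · exact absurd h8 hΔ'
    · exact h8

theorem zeroW {q n d w T S : ℕ} (hq : 1 ≤ q) {I J Cs : Finset ℕ} (hI : ∀ x ∈ I, x < q)
    (hJ : ∀ k ∈ J, 1 ≤ k ∧ k ≤ w) (hC : ∀ c ∈ Cs, c < q)
    (W : Submodule ℝ ℝ[X]) [Module.Finite ℝ W]
    (hS : Module.finrank ℝ W ≤ S) (hW : ∀ p ∈ W, p.natDegree ≤ d)
    (u : ℝ[X]) (hu : u ∈ W) (w' : ℕ → ℝ[X]) (hw' : ∀ x ∈ I, w' x ∈ W)
    (α : ℕ × ℕ → ℕ → ℝ) (hα : ∀ x ∈ I, ∃ p ∈ J ×ˢ Cs, α p x ≠ 0)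
    (hrel : ∀ j ∈ P q n I, (w' (j % q)).eval (j : ℝ) -
      (∑ p ∈ J ×ˢ Cs, α p (j % q) * ps q T p.1 (j + p.2)) * u.eval (j : ℝ) = 0)
    (hcount : (S + (J ×ˢ Cs).card) * d +
      (J ×ˢ Cs).card * (w * (S + (J ×ˢ Cs).card) * Cs.card) + I.card * (S + (J ×ˢ Cs).card) <
        I.card * n) :
    u = 0 := by
  by_contra hu0
  classical
  set bs := Module.finBasis ℝ W with hbs
  set S' := Module.finrank ℝ W with hS'
  set Φ := J ×ˢ Cs with hΦ
  set t := Φ.card with ht
  set L := S' + t with hL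
  have hLS : L ≤ S + t := by omega
  set f : Fin S' → ℝ[X] := fun i => (bs i : ℝ[X]) with hf
  have hlin : LinearIndependent ℝ f :=
    bs.linearIndependent.map' W.subtype (Submodule.ker_subtype W)
  have hrep : ∀ p ∈ W, ∃ ν : Fin S' → ℝ, p = ∑ i, ν i • f i := by
    intro p hp
    refine ⟨fun i => bs.repr ⟨p, hp⟩ i, ?_⟩
    have h1 := congrArg (W.subtype) (bs.sum_repr ⟨p, hp⟩)
    rw [map_sum] at h1
    simp only [map_smul, Submodule.subtype_apply] at h1
    exact h1.symm
  obtain ⟨μ, hμ⟩ := hrep u hu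
  have hμ0 : ∃ i, μ i ≠ 0 := by
    by_contra h
    push Not at h
    apply hu0
    rw [hμ]
    exact Finset.sum_eq_zero fun i _ => by rw [h i, zero_smul]
  have hν : ∀ x, ∃ ν : Fin S' → ℝ, x ∈ I → w' x = ∑ i, ν i • f i := by
    intro x
    by_cases hx : x ∈ I
    · obtain ⟨ν, h⟩ := hrep (w' x) (hw' x hx)
      exact ⟨ν, fun _ => h⟩
    · exact ⟨0, fun h => absurd h hx⟩
  choose ν hν using hν
  set φ : Fin t → ℕ × ℕ := fun i => (Φ.equivFin.symm i : ℕ × ℕ) with hφd
  have hφ : Function.Injective φ := fun a b hab => Φ.equivFin.symm.injective (Subtype.ext hab)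
  have hφmem : ∀ p, φ p ∈ Φ := fun p => (Φ.equivFin.symm p).2
  have hφJ : ∀ p, (φ p).1 ∈ J := fun p => (mem_product.1 (hφmem p)).1
  have hφC : ∀ p, (φ p).2 ∈ Cs := fun p => (mem_product.1 (hφmem p)).2
  have hφsum : ∀ G : ℕ × ℕ → ℝ, ∑ p ∈ Φ, G p = ∑ p : Fin t, G (φ p) := by
    intro G
    rw [← Finset.sum_coe_sort Φ G]
    exact (Equiv.sum_comp Φ.equivFin.symm (fun p : Φ => G (p : ℕ × ℕ))).symm
  set Δ := DP q T w L Cs with hΔ
  have hg : ∀ p : Fin t, ∀ l : ℕ, ∃ g : ℝ[X], l ≤ L → g.natDegree ≤ w * L * Cs.card ∧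
      algebraMap ℝ[X] (FractionRing ℝ[X]) g = algebraMap ℝ[X] (FractionRing ℝ[X]) Δ *
        ∑ l' ∈ range l, 1 / algebraMap ℝ[X] (FractionRing ℝ[X])
          (X + C (((φ p).2 : ℝ) + (q : ℝ) * (T + 1 + l'))) ^ (φ p).1 ∧
      ∀ y : ℝ, 0 ≤ y → g.eval y = Δ.eval y *
          ∑ l' ∈ range l, 1 / (y + (((φ p).2 : ℝ) + (q : ℝ) * (T + 1 + l'))) ^ (φ p).1 := by
    intro p l
    by_cases hl : l ≤ L
    · obtain ⟨g, h⟩ := DP_sum (T := T) hq (hJ _ (hφJ p)).2 hl (hφC p)
      exact ⟨g, fun _ => h⟩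
    · exact ⟨0, fun h => absurd h hl⟩
  choose g hg using hg
  have hne := Z4_det_ne (T := T) hq f hlin μ hμ0 φ hφ (fun p => (hJ _ (hφJ p)).1) (fun p => hC _ (hφC p))
    Δ (DP_ne q T w L Cs) g (fun p l hl => (hg p l hl.le).2.1)
  rw [← hμ] at hne
  -- the degree
  have hfd : ∀ i, (f i).natDegree ≤ d := fun i => hW _ (bs i).2
  have hdeg : (Z4_M (q : ℝ) f u g).det.natDegree ≤ S' * d + t * (d + w * L * Cs.card) := by
    refine (Z4_det_deg _ (Sum.elim (fun _ => d) (fun _ => d + w * L * Cs.card)) ?_).trans ?_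
    · intro a b
      rcases b with i | p
      · simp only [Z4_M, Sum.elim_inl]
        rw [natDegree_taylor]
        exact hfd i
      · simp only [Z4_M, Sum.elim_inr]
        refine natDegree_mul_le.trans ?_
        rw [natDegree_taylor]
        exact add_le_add (hW u hu) (hg p _ (finSumFinEquiv a).2.le).1
    · rw [Fintype.sum_sum_type]
      simp
  -- the zeros
  apply hne
  apply eq_zero_of_natDegree_lt_card_of_eval_eq_zero' _ ((P q (n - L) I).image (Nat.cast : ℕ → ℝ))
  · intro y hy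
    obtain ⟨j, hj, rfl⟩ := mem_image.1 hy
    have hj' := mem_filter.1 hj
    have hjI : j % q ∈ I := hj'.2
    have hjq : j < q * (n - L) := mem_range.1 hj'.1
    have hj0 : (0 : ℝ) ≤ (j : ℝ) := Nat.cast_nonneg j
    have hmap : eval (j : ℝ) (Z4_M (q : ℝ) f u g).det =
        ((evalRingHom (j : ℝ)).mapMatrix (Z4_M (q : ℝ) f u g)).det := by
      rw [← RingHom.map_det]
      rfl
    rw [hmap]
    apply Matrix.exists_mulVec_eq_zero_iff.1
    set x := j % q with hx
    refine ⟨Sum.elim (fun i => Δ.eval (j : ℝ) * (ν x i - μ i * ∑ p : Fin t, α (φ p) x *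
        ps q T (φ p).1 (j + (φ p).2))) (fun p => - α (φ p) x), ?_, ?_⟩
    · obtain ⟨p, hp, hp0⟩ := hα x hjI
      intro h0
      have h2 := congrFun h0 (Sum.inr (Φ.equivFin ⟨p, hp⟩))
      simp only [Sum.elim_inr, Pi.zero_apply, neg_eq_zero, hφd, Equiv.symm_apply_apply] at h2
      exact hp0 h2
    · funext a
      rw [Matrix.mulVec, dotProduct, Fintype.sum_sum_type, Pi.zero_apply]
      set l : ℕ := ((finSumFinEquiv a : Fin (S' + t)) : ℕ) with hl
      have hlL : l < L := (finSumFinEquiv a).2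
      have hlq : j + q * l < q * n := by
        have h3 : q * (n - L) + q * l = q * (n - L + l) := by ring
        have h4 : n - L + l ≤ n := by
          have h5 : 0 < n - L := by
            by_contra h6
            have h7 : n - L = 0 := by omega
            rw [h7, mul_zero] at hjq
            omega
          omega
        have h5 : q * (n - L + l) ≤ q * n := Nat.mul_le_mul_left _ h4
        omega
      have hmod : (j + q * l) % q = x := Nat.add_mul_mod_self_left j q l
      have hmem : j + q * l ∈ P q n I := by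
        refine mem_filter.2 ⟨mem_range.2 hlq, ?_⟩
        rw [hmod]
        exact hjI
      have hR := hrel _ hmem
      rw [hmod, hφsum] at hR
      have hcast : ((j + q * l : ℕ) : ℝ) = (j : ℝ) + (q : ℝ) * l := by push_cast; ring
      rw [hcast] at hR
      have hps : ∀ p : Fin t, ps q T (φ p).1 (j + q * l + (φ p).2) =
          ps q T (φ p).1 (j + (φ p).2) +
            ∑ l' ∈ range l, 1 / ((j : ℝ) + (((φ p).2 : ℝ) + (q : ℝ) * (T + 1 + l'))) ^ (φ p).1 := by
        intro p
        have h8 : j + q * l + (φ p).2 = (j + (φ p).2) + q * l := by ring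
        rw [h8, ps_shift hq]
        congr 1
        apply Finset.sum_congr rfl
        intro l' _
        push_cast
        rw [add_assoc]
      simp only [hps] at hR
      have hw1 : eval ((j : ℝ) + (q : ℝ) * l) (w' x) = ∑ i, ν x i * eval ((j : ℝ) + (q : ℝ) * l) (f i) := by
        rw [hν x hjI, eval_finsetSum]
        apply Finset.sum_congr rfl
        intro i _
        rw [eval_smul, smul_eq_mul]
      have hu1 : eval ((j : ℝ) + (q : ℝ) * l) u = ∑ i, μ i * eval ((j : ℝ) + (q : ℝ) * l) (f i) := by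
        conv_lhs => rw [hμ]
        rw [eval_finsetSum]
        apply Finset.sum_congr rfl
        intro i _
        rw [eval_smul, smul_eq_mul]
      have e1 : ∀ i : Fin S', ((evalRingHom (j : ℝ)).mapMatrix (Z4_M (q : ℝ) f u g)) a (Sum.inl i) =
          eval ((j : ℝ) + (q : ℝ) * l) (f i) := by
        intro i
        rw [RingHom.mapMatrix_apply, Matrix.map_apply]
        simp only [Z4_M, Sum.elim_inl, coe_evalRingHom]
        rw [taylor_eval]
      have e2 : ∀ p : Fin t, ((evalRingHom (j : ℝ)).mapMatrix (Z4_M (q : ℝ) f u g)) a (Sum.inr p) =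
          eval ((j : ℝ) + (q : ℝ) * l) u * (Δ.eval (j : ℝ) *
          ∑ l' ∈ range l, 1 / ((j : ℝ) + (((φ p).2 : ℝ) + (q : ℝ) * (T + 1 + l'))) ^ (φ p).1) := by
        intro p
        rw [RingHom.mapMatrix_apply, Matrix.map_apply]
        simp only [Z4_M, Sum.elim_inr, coe_evalRingHom]
        rw [eval_mul, taylor_eval, (hg p l hlL.le).2.2 (j : ℝ) hj0]
      simp only [e1, e2, Sum.elim_inl, Sum.elim_inr]
      set y := (j : ℝ) + (q : ℝ) * l with hy'
      set Q := ∑ p : Fin t, α (φ p) x * ps q T (φ p).1 (j + (φ p).2) with hQ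
      set Z : Fin t → ℝ := fun p => ∑ l' ∈ range l,
        1 / ((j : ℝ) + (((φ p).2 : ℝ) + (q : ℝ) * (T + 1 + l'))) ^ (φ p).1 with hZ
      have s1 : ∑ i, eval y (f i) * (eval (j : ℝ) Δ * (ν x i - μ i * Q)) =
          eval (j : ℝ) Δ * (eval y (w' x) - Q * eval y u) := by
        rw [hw1, hu1, Finset.mul_sum, ← Finset.sum_sub_distrib, Finset.mul_sum]
        apply Finset.sum_congr rfl
        intro i _
        ring
      have s2 : ∑ p, eval y u * (eval (j : ℝ) Δ * Z p) * -α (φ p) x =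
          - (eval (j : ℝ) Δ * eval y u * ∑ p, α (φ p) x * Z p) := by
        rw [Finset.mul_sum, ← Finset.sum_neg_distrib]
        apply Finset.sum_congr rfl
        intro p _
        ring
      have s3 : ∑ p, α (φ p) x * (ps q T (φ p).1 (j + (φ p).2) + Z p) = Q + ∑ p, α (φ p) x * Z p := by
        rw [hQ, ← Finset.sum_add_distrib]
        apply Finset.sum_congr rfl
        intro p _
        ring
      have hR' : eval y (w' x) - (Q + ∑ p, α (φ p) x * Z p) * eval y u = 0 := by
        rw [← s3]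
        exact hR
      calc ∑ i, eval y (f i) * (eval (j : ℝ) Δ * (ν x i - μ i * Q)) +
            ∑ p, eval y u * (eval (j : ℝ) Δ * Z p) * -α (φ p) x
          = eval (j : ℝ) Δ * (eval y (w' x) - (Q + ∑ p, α (φ p) x * Z p) * eval y u) := by
            rw [s1, s2]; ring
        _ = 0 := by rw [hR', mul_zero]
  · rw [card_image_of_injective _ Nat.cast_injective, card_nodes hq hI]
    refine lt_of_le_of_lt hdeg ?_
    have h9 : I.card * L + (S' * d + t * (d + w * L * Cs.card)) < I.card * n := by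
      refine lt_of_le_of_lt ?_ hcount
      have h10 : w * L * Cs.card ≤ w * (S + t) * Cs.card := by gcongr
      have h11 : S' * d ≤ S * d := by gcongr
      calc I.card * L + (S' * d + t * (d + w * L * Cs.card))
          ≤ I.card * (S + t) + (S * d + t * (d + w * (S + t) * Cs.card)) := by gcongr
        _ = (S + t) * d + t * (w * (S + t) * Cs.card) + I.card * (S + t) := by ring
    rw [Nat.mul_sub]
    omega

end CM68
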