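import Pool.Agent.LibCM68.S2

/-!
# Row Z5: the window sums times the multiplier (SHORT/MEDIUM)

Plan: `D.Om n T = taylor c (WP ..) * ∏ (the others)` (`Finset.mul_prod_erase`), and for each `i < win n T` the factor
`(X + C (c - q (n + T) + q i))^k` divides `taylor c WP` (`taylor` of `(X + C ..)^w`, `k ≤ w`), so `Om = (X + C ..)^k * g i`,
`natDegree (g i) ≤ natDegree Om ≤ ww * win` (`natDegree_le_of_dvd`, `Om_ne`, `Om_natDegree`), and
`g i (j) = Om(j) / (j + c - q (n + T) + q i)^k`, where the denominator is not zero since `q` does not divide `j + c`.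
Take the sum over `i`.
-/

namespace CM68

open Finset Polynomial

private noncomputable def Z5_L (q n T i : ℕ) : ℝ[X] := X + C (-(q : ℝ) * (n + T) + q * i)

private theorem Z5_WP {q n T w k i : ℕ} (hk : k ≤ w) (hi : i < win n T) :
    ∃ g : ℝ[X], WP q n T w = Z5_L q n T i ^ k * g := by
  refine ⟨Z5_L q n T i ^ (w - k) *
    (C (bet q n T) * ∏ i' ∈ (range (win n T)).erase i, Z5_L q n T i') ^ w, ?_⟩
  have h1 : ∏ i' ∈ range (win n T), Z5_L q n T i' =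
      Z5_L q n T i * ∏ i' ∈ (range (win n T)).erase i, Z5_L q n T i' :=
    (Finset.mul_prod_erase _ _ (Finset.mem_range.2 hi)).symm
  have h2 : WP q n T w = (C (bet q n T) * ∏ i' ∈ range (win n T), Z5_L q n T i') ^ w := rfl
  have h3 : Z5_L q n T i ^ w = Z5_L q n T i ^ k * Z5_L q n T i ^ (w - k) := by
    rw [← pow_add, Nat.add_sub_cancel' hk]
  rw [h2, h1, mul_left_comm, mul_pow, h3, mul_assoc]

private theorem Z5_ne {q n T i y : ℕ} (hy : 0 < y % q) :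
    (y : ℝ) - (q : ℝ) * (n + T) + q * i ≠ 0 := by
  intro h
  have h1 : (y : ℝ) = (q : ℝ) * ((n : ℝ) + T - i) := by linarith
  have h2 : (y : ℤ) = (q : ℤ) * ((n : ℤ) + T - i) := by exact_mod_cast h1
  have h3 : (q : ℤ) ∣ (y : ℤ) := ⟨_, h2⟩
  have h4 : q ∣ y := Int.natCast_dvd_natCast.1 h3
  rw [Nat.mod_eq_zero_of_dvd h4] at hy
  exact lt_irrefl 0 hy

private theorem Z5_one (D : Dat) (n T : ℕ) {p : ℕ × ℕ} (hp : p ∈ D.Φ) {i : ℕ} (hi : i < win n T) :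
    ∃ g : ℝ[X], g.natDegree ≤ D.ww * win n T ∧ ∀ j : ℕ, 0 < (j + p.2) % D.q →
      g.eval (j : ℝ) = (D.Om n T).eval (j : ℝ) *
        (1 / (((j + p.2 : ℕ) : ℝ) - (D.q : ℝ) * (n + T) + D.q * i) ^ p.1) := by
  have hp1 : p.1 ∈ D.J := (Finset.mem_product.1 hp).1
  have hp2 : p.2 ∈ D.Cs := (Finset.mem_product.1 hp).2
  obtain ⟨g, hg⟩ := Z5_WP (q := D.q) (n := n) (T := T) (D.hJ _ hp1).2 hi
  have h1 : D.Om n T = taylor (p.2 : ℝ) (Z5_L D.q n T i) ^ p.1 *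
      (taylor (p.2 : ℝ) g * ∏ c ∈ D.Cs.erase p.2, taylor (c : ℝ) (WP D.q n T D.w)) := by
    have h2 : D.Om n T = taylor (p.2 : ℝ) (WP D.q n T D.w) *
        ∏ c ∈ D.Cs.erase p.2, taylor (c : ℝ) (WP D.q n T D.w) :=
      (Finset.mul_prod_erase _ _ hp2).symm
    rw [h2, hg, taylor_mul, taylor_pow, mul_assoc]
  refine ⟨taylor (p.2 : ℝ) g * ∏ c ∈ D.Cs.erase p.2, taylor (c : ℝ) (WP D.q n T D.w), ?_, ?_⟩
  · refine (natDegree_le_of_dvd ⟨taylor (p.2 : ℝ) (Z5_L D.q n T i) ^ p.1, ?_⟩ (Om_ne D n T)).trans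
      (Om_natDegree D n T)
    rw [h1, mul_comm]
  · intro j hj
    have h3 : (taylor (p.2 : ℝ) (Z5_L D.q n T i)).eval (j : ℝ) =
        ((j + p.2 : ℕ) : ℝ) - (D.q : ℝ) * (n + T) + D.q * i := by
      rw [taylor_eval, Z5_L, eval_add, eval_X, eval_C]
      push_cast
      ring
    have h4 : ((j + p.2 : ℕ) : ℝ) - (D.q : ℝ) * (n + T) + D.q * i ≠ 0 := Z5_ne hj
    rw [h1, eval_mul (p := taylor (p.2 : ℝ) (Z5_L D.q n T i) ^ p.1), eval_pow, h3]
    have h5 : (((j + p.2 : ℕ) : ℝ) - (D.q : ℝ) * (n + T) + D.q * i) ^ p.1 ≠ 0 := pow_ne_zero _ h4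
    field_simp

theorem rr_poly (D : Dat) (n T : ℕ) {p : ℕ × ℕ} (hp : p ∈ D.Φ) :
    ∃ g : ℝ[X], g.natDegree ≤ D.ww * win n T ∧ ∀ j : ℕ, 0 < (j + p.2) % D.q →
      g.eval (j : ℝ) = (D.Om n T).eval (j : ℝ) * rr D.q n T p.1 ((j + p.2 : ℕ) : ℝ) := by
  classical
  have h : ∀ i : ℕ, ∃ g : ℝ[X], i < win n T → g.natDegree ≤ D.ww * win n T ∧
      ∀ j : ℕ, 0 < (j + p.2) % D.q → g.eval (j : ℝ) = (D.Om n T).eval (j : ℝ) *
        (1 / (((j + p.2 : ℕ) : ℝ) - (D.q : ℝ) * (n + T) + D.q * i) ^ p.1) := by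
    intro i
    by_cases hi : i < win n T
    · obtain ⟨g, hg⟩ := Z5_one D n T hp hi
      exact ⟨g, fun _ => hg⟩
    · exact ⟨0, fun h => absurd h hi⟩
  choose g hg using h
  refine ⟨∑ i ∈ range (win n T), g i, ?_, fun j hj => ?_⟩
  · exact natDegree_sum_le_of_forall_le _ _ fun i hi => (hg i (Finset.mem_range.1 hi)).1
  · rw [eval_finsetSum, rr, Finset.mul_sum]
    exact Finset.sum_congr rfl fun i hi => (hg i (Finset.mem_range.1 hi)).2 j hj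

end CM68
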