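import Pool.Agent.LibCM68.D0
import Pool.Agent.LibCM68.Z4
import Pool.Agent.LibCM68.Z5

/-!
# Row Z6: the rows (iv) are independent modulo the others (MEDIUM; template HZ7_E5.lean)

By `Submodule.mem_span_range_iff_exists_fun` there is `e : RA → ℝ` with `∑ a, e a • rowA a = ∑ i, v i • rowB i` on the
nodes.  `choose_comb` (or sums of `choose_poly`) gives polynomials: `Q` for `v` (degree `< κ`), `R p` for `e (inl (p, ·))`,
`H p` for `e (inr (inl (p, ·)))` (degree `< d`), `U l` for `e (inr (inr (l, ·)))` (degree `< K ≤ d`) (for `p ∉ Φ`: `0`, `dite`).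
`u = Om * Q` (degree `≤ ww win + κ ≤ K ≤ d`), `g p` from `rr_poly`.  The relation on the nodes:
`(b₀ - ∑ al p * ps - ∑ ta p * rr) u = ∑ al p * R p + ∑ ta p * H p + ∑ b l * U l`, so with
`w' x = C (b₀ x) * u - ∑_{p ∈ Φ} C (ta p x) * (g p * Q + H p) - ∑_{p ∈ Φ} C (al p x) * R p - ∑ l, C (b x l) * U l`
and `α = al`: `w'(j) - (∑ al p * ps q T k (j + c)) u(j) = 0`.  `W` = the span of `u`, the `g p * Q + H p`, the `R p`, the
`U l`, of dimension at most `S = 2 Φ.card + s + 1` (`finrank_range_le_card` for the span of the range of a function on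
`Unit ⊕ Φ ⊕ Φ ⊕ Fin s`).  `zeroW` (with `n - 1` for `n`) gives `u = 0`, so `Q = 0` (`Om_ne`), `v = 0`.
-/

namespace CM68

open Finset Polynomial

theorem rows_ind (D : Dat) {n T d K κ : ℕ} (hκ1 : 1 ≤ κ) (hκ : κ + D.ww * win n T ≤ K) (hKd : K < d)
    (hdeg : (3 * D.Φ.card + D.s + 1) * d +
      D.Φ.card * (D.w * (3 * D.Φ.card + D.s + 1) * D.Cs.card) +
      D.I.card * (3 * D.Φ.card + D.s + 1) < D.I.card * (n - 1))
    (v : Fin κ → ℝ)
    (hv : (∑ i, v i • fun j : D.Nd n => D.rowB n T i j) ∈ D.rsp n d K) :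
    v = 0 := by
  classical
  obtain ⟨e, he⟩ := (Submodule.mem_span_range_iff_exists_fun ℝ).1 hv
  have hK1 : 1 ≤ K := by omega
  have hd1 : 1 ≤ d := by omega
  obtain ⟨Q, hQ1, hQ2, hQ3⟩ := choose_comb (K := κ) hκ1 v
  choose R hR1 hR2 hR3 using fun p : D.Φ => choose_comb hd1 fun i => e (Sum.inl (p, i))
  choose H hH1 hH2 hH3 using fun p : D.Φ => choose_comb hd1 fun i => e (Sum.inr (Sum.inl (p, i)))
  choose U hU1 hU2 hU3 using fun l : Fin D.s =>
    choose_comb hK1 fun i => e (Sum.inr (Sum.inr (l, i)))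
  choose g hg1 hg2 using fun p : D.Φ => rr_poly D n T p.2
  set u : ℝ[X] := D.Om n T * Q with hu
  have hOd := Om_natDegree D n T
  have hud : u.natDegree ≤ d := by
    refine natDegree_mul_le.trans ?_
    omega
  set f : Unit ⊕ (D.Φ ⊕ (D.Φ ⊕ Fin D.s)) → ℝ[X] := fun z => match z with
    | Sum.inl _ => u
    | Sum.inr (Sum.inl p) => g p * Q + H p
    | Sum.inr (Sum.inr (Sum.inl p)) => R p
    | Sum.inr (Sum.inr (Sum.inr l)) => U l with hf
  set W : Submodule ℝ ℝ[X] := Submodule.span ℝ (Set.range f) with hWdef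
  have hmem : ∀ z, f z ∈ W := fun z => Submodule.subset_span ⟨z, rfl⟩
  haveI : Module.Finite ℝ W := by
    rw [hWdef]
    exact Module.Finite.span_of_finite ℝ (Set.finite_range f)
  have hS : Module.finrank ℝ W ≤ 2 * D.Φ.card + D.s + 1 := by
    refine (finrank_range_le_card (R := ℝ) f).trans (le_of_eq ?_)
    simp only [Fintype.card_sum, Fintype.card_unit, Fintype.card_coe, Fintype.card_fin]
    ring
  have hW : ∀ p ∈ W, p.natDegree ≤ d := by
    have h1 : W ≤ degreeLE ℝ d := by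
      rw [hWdef, Submodule.span_le]
      rintro _ ⟨z, rfl⟩
      rw [SetLike.mem_coe, mem_degreeLE, ← natDegree_le_iff_degree_le]
      rcases z with z | z | z | z
      · exact hud
      · refine (natDegree_add_le _ _).trans (max_le (natDegree_mul_le.trans ?_) (hH1 z).le)
        have := hg1 z
        omega
      · exact (hR1 z).le
      · exact ((hU1 z).le.trans hKd.le)
    intro p hp
    have := h1 hp
    rwa [mem_degreeLE, ← natDegree_le_iff_degree_le] at this
  have key := zeroW (q := D.q) (n := n - 1) (d := d) (w := D.w) (T := T)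
    (S := 2 * D.Φ.card + D.s + 1) (by have := D.hq; omega) (I := D.I) (J := D.J) (Cs := D.Cs)
    D.hI (fun k hk => ⟨by have := (D.hJ k hk).1; omega, (D.hJ k hk).2⟩) D.hC W hS hW u
    (hmem (Sum.inl ()))
    (fun x => C (D.b₀ x : ℝ) * u - ∑ p : D.Φ, C (D.ta p x : ℝ) * (g p * Q + H p) -
      ∑ p : D.Φ, C (D.al p x : ℝ) * R p - ∑ l, C (D.b x l : ℝ) * U l)
    (by
      intro x _
      refine W.sub_mem (W.sub_mem (W.sub_mem ?_ ?_) ?_) ?_
      · rw [C_mul']
        exact W.smul_mem _ (hmem (Sum.inl ()))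
      · refine W.sum_mem fun p _ => ?_
        rw [C_mul']
        exact W.smul_mem _ (hmem (Sum.inr (Sum.inl p)))
      · refine W.sum_mem fun p _ => ?_
        rw [C_mul']
        exact W.smul_mem _ (hmem (Sum.inr (Sum.inr (Sum.inl p))))
      · refine W.sum_mem fun l _ => ?_
        rw [C_mul']
        exact W.smul_mem _ (hmem (Sum.inr (Sum.inr (Sum.inr l)))))
    (fun p x => (D.al p x : ℝ))
    (by
      intro x hx
      obtain ⟨p, hp, h⟩ := D.hal x hx
      exact ⟨p, hp, by exact_mod_cast h⟩)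
    (by
      intro j hj
      have hj' : j ∈ D.Nd n := hj
      have hx : j % D.q ∈ D.I := (Finset.mem_filter.1 hj).2
      have h1 := congrFun he ⟨j, hj'⟩
      simp only [Finset.sum_apply, Pi.smul_apply, smul_eq_mul] at h1
      rw [Fintype.sum_sum_type, Fintype.sum_sum_type] at h1
      have e0 : ∑ z : D.Φ × Fin d, e (Sum.inl z) * D.rowA d K (Sum.inl z) j =
          ∑ p : D.Φ, (D.al p (j % D.q) : ℝ) * (R p).eval (j : ℝ) := by
        rw [Fintype.sum_prod_type]
        refine Finset.sum_congr rfl fun p _ => ?_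
        rw [hR2, Finset.mul_sum]
        refine Finset.sum_congr rfl fun i _ => ?_
        simp only [Dat.rowA]
        ring
      have e1 : ∑ z : D.Φ × Fin d, e (Sum.inr (Sum.inl z)) * D.rowA d K (Sum.inr (Sum.inl z)) j =
          ∑ p : D.Φ, (D.ta p (j % D.q) : ℝ) * (H p).eval (j : ℝ) := by
        rw [Fintype.sum_prod_type]
        refine Finset.sum_congr rfl fun p _ => ?_
        rw [hH2, Finset.mul_sum]
        refine Finset.sum_congr rfl fun i _ => ?_
        simp only [Dat.rowA]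
        ring
      have e2 : ∑ z : Fin D.s × Fin K, e (Sum.inr (Sum.inr z)) *
          D.rowA d K (Sum.inr (Sum.inr z)) j =
          ∑ l, (D.b (j % D.q) l : ℝ) * (U l).eval (j : ℝ) := by
        rw [Fintype.sum_prod_type]
        refine Finset.sum_congr rfl fun l _ => ?_
        rw [hU2, Finset.mul_sum]
        refine Finset.sum_congr rfl fun i _ => ?_
        simp only [Dat.rowA]
        ring
      have e3 : ∑ i : Fin κ, v i * D.rowB n T i j = D.G n T j * u.eval (j : ℝ) := by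
        rw [hu, eval_mul, hQ2, Finset.mul_sum, Finset.mul_sum]
        refine Finset.sum_congr rfl fun i _ => ?_
        simp only [Dat.rowB]
        ring
      have h2 : ∑ p : D.Φ, (D.al p (j % D.q) : ℝ) * (R p).eval (j : ℝ) +
          (∑ p : D.Φ, (D.ta p (j % D.q) : ℝ) * (H p).eval (j : ℝ) +
            ∑ l, (D.b (j % D.q) l : ℝ) * (U l).eval (j : ℝ)) = D.G n T j * u.eval (j : ℝ) := by
        rw [← e0, ← e1, ← e2, ← e3]
        exact h1
      have e4 : ∀ p : D.Φ, (g p).eval (j : ℝ) =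
          (D.Om n T).eval (j : ℝ) * rr D.q n T p.1.1 ((j + p.1.2 : ℕ) : ℝ) := by
        intro p
        refine hg2 p j ?_
        have h3 := D.hxc _ hx p.1.2 (Finset.mem_product.1 p.2).2
        rwa [Nat.mod_add_mod] at h3
      have hG : D.G n T j = (D.b₀ (j % D.q) : ℝ) -
          ∑ p : D.Φ, (D.al p (j % D.q) : ℝ) * ps D.q T p.1.1 (j + p.1.2) -
          ∑ p : D.Φ, (D.ta p (j % D.q) : ℝ) * rr D.q n T p.1.1 ((j + p.1.2 : ℕ) : ℝ) := by
        unfold Dat.G
        rw [Finset.sum_add_distrib, ← Finset.sum_coe_sort D.Φ, ← Finset.sum_coe_sort D.Φ]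
        ring
      have hsum : ∑ p ∈ D.J ×ˢ D.Cs, (D.al p (j % D.q) : ℝ) * ps D.q T p.1 (j + p.2) =
          ∑ p : D.Φ, (D.al p (j % D.q) : ℝ) * ps D.q T p.1.1 (j + p.1.2) :=
        (Finset.sum_coe_sort D.Φ
          (fun p => (D.al p (j % D.q) : ℝ) * ps D.q T p.1 (j + p.2))).symm
      simp only [eval_sub, eval_mul, eval_C, eval_finset_sum, eval_add]
      rw [hsum]
      have e5 : ∑ p : D.Φ, (D.ta p (j % D.q) : ℝ) *
          ((g p).eval (j : ℝ) * Q.eval (j : ℝ) + (H p).eval (j : ℝ)) =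
          (∑ p : D.Φ, (D.ta p (j % D.q) : ℝ) * rr D.q n T p.1.1 ((j + p.1.2 : ℕ) : ℝ)) *
            u.eval (j : ℝ) + ∑ p : D.Φ, (D.ta p (j % D.q) : ℝ) * (H p).eval (j : ℝ) := by
        rw [Finset.sum_mul, ← Finset.sum_add_distrib]
        refine Finset.sum_congr rfl fun p _ => ?_
        rw [e4, hu, eval_mul]
        ring
      rw [e5]
      have e6 : (D.b₀ (j % D.q) : ℝ) * u.eval (j : ℝ) =
          (D.G n T j + ∑ p : D.Φ, (D.al p (j % D.q) : ℝ) * ps D.q T p.1.1 (j + p.1.2) +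
            ∑ p : D.Φ, (D.ta p (j % D.q) : ℝ) * rr D.q n T p.1.1 ((j + p.1.2 : ℕ) : ℝ)) *
              u.eval (j : ℝ) := by
        rw [hG]
        ring
      rw [e6, add_mul, add_mul, ← h2]
      ring)
    (by
      have hΦ : (D.J ×ˢ D.Cs).card = D.Φ.card := rfl
      rw [hΦ]
      have e7 : 2 * D.Φ.card + D.s + 1 + D.Φ.card = 3 * D.Φ.card + D.s + 1 := by ring
      rw [e7]
      exact hdeg)
  have hQ : Q = 0 := by
    rcases mul_eq_zero.1 key with h | h
    · exact absurd h (Om_ne D n T)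
    · exact h
  exact hQ3 hQ

end CM68
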