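import Pool.Agent.LibCM68.Det
import Pool.Agent.LibCM68.LIM
import Pool.Agent.LibCM68.I2
import Pool.Agent.LibCM68.S2
import Pool.Agent.LibCM68.S3
import Pool.Agent.LibCM68.SM
import Pool.Agent.LibCM68.Z6

/-!
# The contradiction (assembly, helper68)
-/

namespace CM68

open Finset Polynomial

/-- a common denominator of finitely many rational numbers -/
theorem exists_den {ι : Type*} (S : Finset ι) (f : ι → ℚ) :
    ∃ D₀ : ℕ, 1 ≤ D₀ ∧ ∀ i ∈ S, ∃ m : ℤ, (D₀ : ℚ) * f i = m := by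
  classical
  refine ⟨∏ i ∈ S, (f i).den, Nat.one_le_iff_ne_zero.2 (Finset.prod_ne_zero_iff.2 fun i _ => (f i).den_nz),
    fun i hi => ?_⟩
  rw [← Finset.mul_prod_erase S _ hi]
  refine ⟨(f i).num * ((∏ i ∈ S.erase i, (f i).den : ℕ) : ℤ), ?_⟩
  have h1 : (f i).num = f i * (f i).den := by
    rw [Rat.mul_den_eq_num]
  push_cast
  rw [h1]
  ring

/-- the inequality for one `n` -/
theorem core_n (D : Dat) {δ k r Q₁ Q₂ n D₀ : ℕ} {B M : ℝ}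
    (hA : Adm D.q D.Φ.card D.ww D.s D.I.card δ k r Q₁ Q₂) (hD₀ : 1 ≤ D₀)
    (hal : ∀ p ∈ D.Φ, ∀ x < D.q, ∃ m : ℤ, (D₀ : ℚ) * D.al p x = m)
    (hta : ∀ p ∈ D.Φ, ∀ x < D.q, ∃ m : ℤ, (D₀ : ℚ) * D.ta p x = m)
    (hb₀ : ∀ x < D.q, ∃ m : ℤ, (D₀ : ℚ) * D.b₀ x = m)
    (hb : ∀ x < D.q, ∀ l, ∃ m : ℤ, (D₀ : ℚ) * D.b x l = m)
    (hB1 : 1 ≤ B) (halB : ∀ p ∈ D.Φ, ∀ x < D.q, |(D.al p x : ℝ)| ≤ B)
    (htaB : ∀ p ∈ D.Φ, ∀ x < D.q, |(D.ta p x : ℝ)| ≤ B)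
    (hbB : ∀ x < D.q, ∀ l, |(D.b x l : ℝ)| ≤ B) (hM1 : 1 ≤ M)
    (hM : ∀ x ∈ D.I, ∑ p ∈ D.Φ, (|(D.al p x : ℝ)| + 2 * |(D.ta p x : ℝ)|) ≤ M)
    (hn : D.Φ.card * (D.w * (3 * D.Φ.card + D.s + 1) * D.Cs.card) +
      D.I.card * (3 * D.Φ.card + D.s + 1) + D.I.card + 1 ≤ n) :
    1 ≤ ((D₀ : ℝ) * (1 : ℕ)) ^ (Fintype.card (RA D.Φ D.s (δ * n) ((k + D.ww * (2 * r + 2)) * n)) +
        Fintype.card (Fin (k * n))) *
      (Fintype.card (RA D.Φ D.s (δ * n) ((k + D.ww * (2 * r + 2)) * n)) +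
        Fintype.card (Fin (k * n))).factorial *
      (∏ a, UA D.Φ D.s (δ * n) ((k + D.ww * (2 * r + 2)) * n) Q₁ Q₂ B a) *
      ∏ p : Fin (k * n), EB D.q n r D.ww (δ * n) ((k + D.ww * (2 * r + 2)) * n) Q₂ M p := by
  classical
  obtain ⟨hk, hr, hδ, hQ₁, hQ₂, hZE, -⟩ := hA
  have hn1 : 1 ≤ n := by omega
  have hq2 := D.hq
  set d := δ * n with hd
  set K := (k + D.ww * (2 * r + 2)) * n with hK
  set κ := k * n with hκ
  have hwin : D.ww * win n (r * n) ≤ D.ww * (2 * r + 2) * n := by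
    rw [mul_assoc]
    refine Nat.mul_le_mul_left _ ?_
    unfold win
    have h0 : (2 * r + 2) * n = 2 * (r * n) + n + n := by ring
    omega
  have hκK : κ + D.ww * win n (r * n) ≤ K := by
    rw [hK, hκ, add_mul]
    omega
  have hKd : K < d := Nat.mul_lt_mul_of_pos_right hδ hn1
  have hκ1 : 1 ≤ κ := Nat.mul_pos hk hn1
  have hdeg : (3 * D.Φ.card + D.s + 1) * d +
      D.Φ.card * (D.w * (3 * D.Φ.card + D.s + 1) * D.Cs.card) +
      D.I.card * (3 * D.Φ.card + D.s + 1) < D.I.card * (n - 1) := by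
    have h1 : ((3 * D.Φ.card + D.s + 1) * δ + 1) * n ≤ D.I.card * n := Nat.mul_le_mul_right n hZE
    have h2 : ((3 * D.Φ.card + D.s + 1) * δ + 1) * n = (3 * D.Φ.card + D.s + 1) * d + n := by
      rw [hd]
      ring
    have h3 : D.I.card * (n - 1) + D.I.card = D.I.card * n := by
      rw [← Nat.mul_succ]
      congr 1
      omega
    omega
  have hQ1 : D.q * n ≤ Q₁ * d := by
    rw [hd, ← mul_assoc]
    exact Nat.mul_le_mul_right n hQ₁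
  have hQ2 : D.q * n ≤ Q₂ * K := by
    rw [hK, ← mul_assoc]
    refine Nat.mul_le_mul_right n (hQ₂.trans (Nat.mul_le_mul_left _ ?_))
    omega
  have hQ11 : 1 ≤ Q₁ := by
    rcases Nat.eq_zero_or_pos Q₁ with h0 | h0
    · rw [h0] at hQ₁
      omega
    · exact h0
  have hQ21 : 1 ≤ Q₂ := by
    rcases Nat.eq_zero_or_pos Q₂ with h0 | h0
    · rw [h0] at hQ₂
      omega
    · exact h0
  have hj : ∀ j ∈ D.Nd n, j < D.q * (n - 1) := fun j hj => by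
    unfold Dat.Nd P at hj
    exact mem_range.1 (mem_filter.1 hj).1
  have hsm := fun p : Fin κ => rows_small D (n := n) (r := r) (d := d) (K := K) (i := p) hn1 hr
    (lt_of_lt_of_le (Nat.add_lt_add_right p.2 _) hκK) hKd.le hM
  choose v' hv'1 hv'2 using hsm
  refine det_ineq (J := D.Nd n) (fun (a : RA D.Φ D.s d K) (j : D.Nd n) => D.rowA d K a j)
    (fun (p : Fin κ) (j : D.Nd n) => D.rowB n (r * n) p j) v' (fun _ => 1) ?_ ?_ ?_ ?_ hD₀ le_rfl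
    (fun _ => le_rfl) (fun _ => le_rfl) ?_ ?_ ?_
  · intro c hc
    exact rows_ind D hκ1 hκK hKd hdeg c hc
  · exact hv'1
  · rintro a ⟨j, _⟩
    obtain ⟨z, hz⟩ := rowA_int D hal hta hb a j
    exact ⟨z, by rw [← hz]; simp⟩
  · rintro p ⟨j, hjm⟩
    obtain ⟨z, hz⟩ := rowB_int D (T := r * n) hal hta hb₀ p (hj j hjm)
    exact ⟨z, by rw [← hz]; simp⟩
  · rintro a ⟨j, hjm⟩
    refine rowA_le D hQ1 hQ2 halB htaB hbB a ((hj j hjm).trans_le ?_)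
    exact Nat.mul_le_mul_left _ (Nat.sub_le _ _)
  · intro a
    exact UA_one hQ11 hQ21 hB1 a
  · rintro p ⟨j, hjm⟩
    refine (hv'2 p ⟨j, hjm⟩).trans ?_
    have h3 : (j.choose p : ℝ) ≤ Real.exp K * (Q₂ : ℝ) ^ (p : ℕ) := by
      refine ch_le (((hj j hjm).le.trans ?_).trans hQ2)
      exact Nat.mul_le_mul_left _ (Nat.sub_le _ _)
    have h4 := Om_le D (T := r * n) (hj j hjm)
    unfold EB
    have h5 : (0 : ℝ) ≤ M := by linarith
    have h6 : (0 : ℝ) ≤ Wb D.q n (r * n) D.ww := by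
      unfold Wb
      positivity
    gcongr

theorem core (D : Dat) {δ k r Q₁ Q₂ : ℕ} (hJ : D.Φ.Nonempty)
    (hA : Adm D.q D.Φ.card D.ww D.s D.I.card δ k r Q₁ Q₂) : False := by
  classical
  obtain ⟨hk, hr, hδ, hQ₁, hQ₂, hZE, hIN⟩ := id hA
  have hq2 := D.hq
  have hQ11 : 1 ≤ Q₁ := by
    rcases Nat.eq_zero_or_pos Q₁ with h0 | h0
    · rw [h0] at hQ₁
      omega
    · exact h0
  have hQ21 : 1 ≤ Q₂ := by
    rcases Nat.eq_zero_or_pos Q₂ with h0 | h0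
    · rw [h0] at hQ₂
      omega
    · exact h0
  -- the denominator and the bounds
  obtain ⟨D₀, hD₀, hden⟩ := exists_den
    ((range D.q) ×ˢ ((D.Φ ×ˢ (univ : Finset Bool)).disjSum (univ : Finset (Option (Fin D.s)))))
    (fun t => match t.2 with
      | Sum.inl (p, false) => D.al p t.1
      | Sum.inl (p, true) => D.ta p t.1
      | Sum.inr none => D.b₀ t.1
      | Sum.inr (some l) => D.b t.1 l)
  have hal : ∀ p ∈ D.Φ, ∀ x < D.q, ∃ m : ℤ, (D₀ : ℚ) * D.al p x = m := fun p hp x hx =>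
    hden (x, Sum.inl (p, false)) (mem_product.2 ⟨mem_range.2 hx,
      inl_mem_disjSum.2 (mem_product.2 ⟨hp, mem_univ _⟩)⟩)
  have hta : ∀ p ∈ D.Φ, ∀ x < D.q, ∃ m : ℤ, (D₀ : ℚ) * D.ta p x = m := fun p hp x hx =>
    hden (x, Sum.inl (p, true)) (mem_product.2 ⟨mem_range.2 hx,
      inl_mem_disjSum.2 (mem_product.2 ⟨hp, mem_univ _⟩)⟩)
  have hb₀ : ∀ x < D.q, ∃ m : ℤ, (D₀ : ℚ) * D.b₀ x = m := fun x hx =>
    hden (x, Sum.inr none) (mem_product.2 ⟨mem_range.2 hx, inr_mem_disjSum.2 (mem_univ _)⟩)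
  have hb : ∀ x < D.q, ∀ l, ∃ m : ℤ, (D₀ : ℚ) * D.b x l = m := fun x hx l =>
    hden (x, Sum.inr (some l)) (mem_product.2 ⟨mem_range.2 hx, inr_mem_disjSum.2 (mem_univ _)⟩)
  have hbd : ∀ (ι : Type) (S : Finset ι) (f : ι → ℕ → ℝ), ∀ i ∈ S, ∀ x < D.q,
      |f i x| ≤ ∑ i ∈ S, ∑ x ∈ range D.q, |f i x| := by
    intro ι S f i hi x hx
    have h1 : |f i x| ≤ ∑ x ∈ range D.q, |f i x| :=
      single_le_sum (f := fun x => |f i x|) (fun _ _ => abs_nonneg _) (mem_range.2 hx)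
    have h2 : ∑ x ∈ range D.q, |f i x| ≤ ∑ i ∈ S, ∑ x ∈ range D.q, |f i x| :=
      single_le_sum (f := fun i => ∑ x ∈ range D.q, |f i x|)
        (fun _ _ => sum_nonneg fun _ _ => abs_nonneg _) hi
    exact h1.trans h2
  have hpos : ∀ (ι : Type) (S : Finset ι) (f : ι → ℕ → ℝ),
      0 ≤ ∑ i ∈ S, ∑ x ∈ range D.q, |f i x| := fun _ _ _ =>
    sum_nonneg fun _ _ => sum_nonneg fun _ _ => abs_nonneg _
  obtain ⟨B, hB1, halB, htaB, hbB⟩ : ∃ B : ℝ, 1 ≤ B ∧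
      (∀ p ∈ D.Φ, ∀ x < D.q, |(D.al p x : ℝ)| ≤ B) ∧
      (∀ p ∈ D.Φ, ∀ x < D.q, |(D.ta p x : ℝ)| ≤ B) ∧
      (∀ x < D.q, ∀ l, |(D.b x l : ℝ)| ≤ B) := by
    have p1 := hpos _ D.Φ (fun p x => (D.al p x : ℝ))
    have p2 := hpos _ D.Φ (fun p x => (D.ta p x : ℝ))
    have p3 := hpos _ (univ : Finset (Fin D.s)) (fun l x => (D.b x l : ℝ))
    refine ⟨1 + (∑ p ∈ D.Φ, ∑ x ∈ range D.q, |(D.al p x : ℝ)|) +
      (∑ p ∈ D.Φ, ∑ x ∈ range D.q, |(D.ta p x : ℝ)|) +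
      ∑ l : Fin D.s, ∑ x ∈ range D.q, |(D.b x l : ℝ)|, by linarith, fun p hp x hx => ?_,
      fun p hp x hx => ?_, fun x hx l => ?_⟩
    · have := hbd _ D.Φ (fun p x => (D.al p x : ℝ)) p hp x hx
      linarith
    · have := hbd _ D.Φ (fun p x => (D.ta p x : ℝ)) p hp x hx
      linarith
    · have := hbd _ (univ : Finset (Fin D.s)) (fun l x => (D.b x l : ℝ)) l (mem_univ l) x hx
      linarith
  obtain ⟨M, hM1, hM⟩ : ∃ M : ℝ, 1 ≤ M ∧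
      ∀ x ∈ D.I, ∑ p ∈ D.Φ, (|(D.al p x : ℝ)| + 2 * |(D.ta p x : ℝ)|) ≤ M := by
    refine ⟨1 + ∑ p ∈ D.Φ, (B + 2 * B), ?_, fun x hx => ?_⟩
    · have : (0 : ℝ) ≤ ∑ p ∈ D.Φ, (B + 2 * B) := sum_nonneg fun _ _ => by linarith
      linarith
    · have h1 : ∑ p ∈ D.Φ, (|(D.al p x : ℝ)| + 2 * |(D.ta p x : ℝ)|) ≤ ∑ p ∈ D.Φ, (B + 2 * B) := by
        refine sum_le_sum fun p hp => ?_
        have h2 := halB p hp x (D.hI x hx)
        have h3 := htaB p hp x (D.hI x hx)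
        linarith
      linarith
  -- the constants
  have hq1 : (1 : ℝ) ≤ D.q := by exact_mod_cast (by omega : 1 ≤ D.q)
  have hlogq : 0 ≤ Real.log D.q := Real.log_nonneg hq1
  have hδ0 : (0 : ℝ) < δ := by exact_mod_cast (by omega : 0 < δ)
  obtain ⟨W, hW⟩ : ∃ W : ℕ, W = D.Φ.card := ⟨_, rfl⟩
  obtain ⟨w, hw⟩ : ∃ w : ℕ, w = D.ww := ⟨_, rfl⟩
  obtain ⟨s, hs⟩ : ∃ s : ℕ, s = D.s := ⟨_, rfl⟩
  obtain ⟨g, hg⟩ : ∃ g : ℕ, g = w * (2 * r + 2) := ⟨_, rfl⟩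
  obtain ⟨ρ, hρ⟩ : ∃ ρ : ℕ, ρ = 2 * W * δ + s * (k + g) + k := ⟨_, rfl⟩
  have hρ1 : 1 ≤ ρ := by omega
  have hgR : (g : ℝ) = w * (2 * r + 2) := by rw [hg]; push_cast; ring
  have hρR : (ρ : ℝ) = 2 * W * δ + s * (k + g) + k := by rw [hρ]; push_cast; ring
  rw [← hW, ← hw, ← hs, ← hgR] at hIN
  obtain ⟨E, hE⟩ : ∃ E : ℝ, E = ((2 * ((δ : ℝ) - g) * k - (k : ℝ) ^ 2) * Real.log (2 * r + 1) -
      (2 * W * (δ : ℝ) ^ 2 * (Real.log Q₁ + 2) + ((s : ℝ) + 1) * ((k : ℝ) + g) ^ 2 * (Real.log Q₂ + 2) +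
      26 * k * g * Real.log D.q)) / 2 := ⟨_, rfl⟩
  have hE0 : 0 < E := by
    rw [hE]
    linarith
  refine lim_contra (E := E) (a := ρ * Real.log D₀ + 2 * W * δ * Real.log B + s * (k + g) * Real.log B +
      k * (Real.log M + (w + 1) * Real.log 2)) (R₁ := ρ) (c := k * w) (δ := δ) hE0
    (by exact_mod_cast hρ1) hδ0
    (D.Φ.card * (D.w * (3 * D.Φ.card + D.s + 1) * D.Cs.card) +
      D.I.card * (3 * D.Φ.card + D.s + 1) + D.I.card + 1) ?_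
  intro n hn
  have hn1 : 1 ≤ n := by omega
  have h := core_n D hA hD₀ hal hta hb₀ hb hB1 halB htaB hbB hM1 hM hn
  have hcard : Fintype.card (RA D.Φ D.s (δ * n) ((k + D.ww * (2 * r + 2)) * n)) +
      Fintype.card (Fin (k * n)) = ρ * n := by
    simp only [RA, Fintype.card_sum, Fintype.card_prod, Fintype.card_fin, Fintype.card_coe]
    rw [hρ, hW, hg, hw, hs]
    ring
  rw [hcard] at h
  have hUpos : 0 < ∏ a, UA D.Φ D.s (δ * n) ((k + D.ww * (2 * r + 2)) * n) Q₁ Q₂ B a :=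
    prod_pos fun a _ => zero_lt_one.trans_le (UA_one hQ11 hQ21 hB1 a)
  have hEpos : 0 < ∏ p : Fin (k * n),
      EB D.q n r D.ww (δ * n) ((k + D.ww * (2 * r + 2)) * n) Q₂ M p :=
    prod_pos fun p _ => EB_pos (by omega) hQ21 hM1 p
  have hUlog := UA_prod (Φ := D.Φ) (s := D.s) (d := δ * n) (K := (k + D.ww * (2 * r + 2)) * n)
    (B := B) hQ11 hQ21 hB1
  have hwinle : D.ww * win n (r * n) ≤ g * n := by
    rw [hg, hw, mul_assoc]
    refine Nat.mul_le_mul_left _ ?_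
    unfold win
    have h0 : (2 * r + 2) * n = 2 * (r * n) + n + n := by ring
    omega
  have hκK : k * n + D.ww * win n (r * n) ≤ (k + D.ww * (2 * r + 2)) * n := by
    rw [add_mul]
    rw [hg, hw] at hwinle
    omega
  have hElog := EB_prod (q := D.q) (n := n) (r := r) (w := D.ww) (d := δ * n)
    (K := (k + D.ww * (2 * r + 2)) * n) (κ := k * n) (Q₂ := Q₂) (M := M) D.hq hQ21 hM1 hκK
    (Nat.mul_le_mul_right n hδ.le)
  obtain ⟨Up, hUp⟩ : ∃ Up, Up = ∏ a, UA D.Φ D.s (δ * n) ((k + D.ww * (2 * r + 2)) * n) Q₁ Q₂ B a :=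
    ⟨_, rfl⟩
  obtain ⟨Ep, hEp⟩ : ∃ Ep, Ep = ∏ p : Fin (k * n),
      EB D.q n r D.ww (δ * n) ((k + D.ww * (2 * r + 2)) * n) Q₂ M p := ⟨_, rfl⟩
  rw [← hUp] at h hUpos hUlog
  rw [← hEp] at h hEpos hElog
  obtain ⟨ω, hω⟩ : ∃ ω : ℕ, ω = D.ww * win n (r * n) := ⟨_, rfl⟩
  obtain ⟨R, hR⟩ : ∃ R, R = ρ * n := ⟨_, rfl⟩
  rw [← hR] at h
  have hR1 : 1 ≤ R := by
    rw [hR]
    exact Nat.mul_pos hρ1 hn1
  have hD0 : (0 : ℝ) < D₀ := by exact_mod_cast hD₀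
  have hlog := Real.log_nonneg h
  rw [Real.log_mul (by positivity) hEpos.ne', Real.log_mul (by positivity) hUpos.ne',
    Real.log_mul (by positivity) (by positivity), Real.log_pow, Nat.cast_one, mul_one] at hlog
  have hfac : Real.log ((R.factorial : ℕ) : ℝ) ≤ R * Real.log R := by
    rw [← Real.log_pow]
    refine Real.log_le_log (by exact_mod_cast R.factorial_pos) ?_
    exact_mod_cast R.factorial_le_pow
  have hRn : (R : ℝ) = ρ * n := by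
    rw [hR]
    push_cast
    ring
  -- the factor `2^(w+1) (d+1)^w`
  have hn0 : (0 : ℝ) ≤ n := Nat.cast_nonneg n
  have hdn : (0 : ℝ) ≤ δ * n := by positivity
  have hpoly : Real.log (2 ^ (D.ww + 1) * (((δ * n : ℕ) : ℝ) + 1) ^ D.ww) ≤
      (w + 1) * Real.log 2 + w * Real.log (200 * (δ * n + 2) ^ 2) := by
    rw [Real.log_mul (by positivity) (by positivity), Real.log_pow, Real.log_pow, ← hw]
    push_cast
    have h1 : Real.log ((δ : ℝ) * n + 1) ≤ Real.log (200 * (δ * n + 2) ^ 2) := by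
      refine Real.log_le_log (by positivity) ?_
      have h3 : 0 ≤ ((δ : ℝ) * n) ^ 2 := by positivity
      have h4 : 200 * ((δ : ℝ) * n + 2) ^ 2 = 200 * ((δ : ℝ) * n) ^ 2 + 800 * (δ * n) + 800 := by ring
      rw [h4]
      linarith
    have h2 : (0 : ℝ) ≤ w := Nat.cast_nonneg w
    have h5 := mul_le_mul_of_nonneg_left h1 h2
    linarith
  have hωR : (ω : ℝ) ≤ g * n := by
    have : ω ≤ g * n := by rw [hω]; exact hwinle
    exact_mod_cast this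
  have hKR : (((k + D.ww * (2 * r + 2)) * n : ℕ) : ℝ) = (k + g) * n := by
    rw [← hw, ← hg]
    push_cast
    ring
  have hωR' : (D.ww : ℝ) * (win n (r * n) : ℝ) = ω := by
    rw [hω]
    push_cast
    ring
  rw [hKR] at hElog hUlog
  rw [hωR'] at hElog
  push_cast at hUlog hElog hpoly
  rw [← hW, ← hs] at hUlog
  have hk0 : (0 : ℝ) ≤ k := Nat.cast_nonneg k
  have hg0 : (0 : ℝ) ≤ g := Nat.cast_nonneg g
  have hkn : (0 : ℝ) ≤ k * n := by positivity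
  have hlr : 0 ≤ Real.log (2 * (r : ℝ) + 1) := Real.log_nonneg (by
    have : (0 : ℝ) ≤ r := Nat.cast_nonneg r
    linarith)
  have hlQ2 : 0 ≤ Real.log (Q₂ : ℝ) := Real.log_nonneg (by exact_mod_cast hQ21)
  -- termwise bounds
  have t1 : (k : ℝ) * n * (13 * ω * Real.log D.q) ≤ 13 * k * g * Real.log D.q * (n : ℝ) ^ 2 := by
    have := mul_le_mul_of_nonneg_left (mul_le_mul_of_nonneg_right hωR hlogq)
      (mul_nonneg (by norm_num : (0 : ℝ) ≤ 13) hkn)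
    calc (k : ℝ) * n * (13 * ω * Real.log D.q) = 13 * (k * n) * (ω * Real.log D.q) := by ring
      _ ≤ 13 * (k * n) * (g * n * Real.log D.q) := this
      _ = _ := by ring
  have t2 : (k : ℝ) * n * ((k + g) * n) ≤ ((k : ℝ) + g) ^ 2 * (n : ℝ) ^ 2 := by
    have h1 : (k : ℝ) ≤ k + g := by linarith
    calc (k : ℝ) * n * ((k + g) * n) = k * (k + g) * (n : ℝ) ^ 2 := by ring
      _ ≤ (k + g) * (k + g) * (n : ℝ) ^ 2 := by gcongr
      _ = _ := by ring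
  have t3 : ((k : ℝ) * n) ^ 2 / 2 * Real.log Q₂ ≤ ((k : ℝ) + g) ^ 2 / 2 * Real.log Q₂ * (n : ℝ) ^ 2 := by
    have h1 : (k : ℝ) ^ 2 ≤ (k + g) ^ 2 := by
      apply pow_le_pow_left₀ hk0
      linarith
    calc ((k : ℝ) * n) ^ 2 / 2 * Real.log Q₂ = (k : ℝ) ^ 2 / 2 * Real.log Q₂ * (n : ℝ) ^ 2 := by ring
      _ ≤ _ := by gcongr
  have t4 : ((δ : ℝ) - g) * k * Real.log (2 * r + 1) * (n : ℝ) ^ 2 ≤
      ((δ : ℝ) * n - ω) * (k * n) * Real.log (2 * r + 1) := by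
    have h1 : ((δ : ℝ) - g) * n ≤ (δ : ℝ) * n - ω := by linarith
    calc ((δ : ℝ) - g) * k * Real.log (2 * r + 1) * (n : ℝ) ^ 2 =
        (((δ : ℝ) - g) * n) * (k * n) * Real.log (2 * r + 1) := by ring
      _ ≤ _ := by gcongr
  have t5 := mul_le_mul_of_nonneg_left hpoly hkn
  rw [hRn] at hlog hfac
  rw [hE]
  linarith [hlog, hfac, hUlog, hElog, t1, t2, t3, t4, t5]

end CM68
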