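import Mathlib

/-!
# CM68: linear independence of `ζ(k, x/q)`, `ζ(k, 1 - x/q)` (`k ∈ J`): definitions
-/

namespace CM68

open Finset Polynomial

/-- the Hurwitz zeta value `ζ(k, y)` -/
noncomputable def hz (k : ℕ) (y : ℝ) : ℝ := ∑' n : ℕ, 1 / ((n : ℝ) + y) ^ k

/-- `s_k(x)`, the sum of `(q m + x)^(-k)` over `m ≥ 0` -/
noncomputable def sk (q k : ℕ) (x : ℝ) : ℝ := ∑' m : ℕ, 1 / ((q : ℝ) * m + x) ^ k

/-- the tail: the sum of `(y + q t)^(-k)` over `t > T` -/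
noncomputable def tl (q k T : ℕ) (y : ℝ) : ℝ := ∑' m : ℕ, 1 / (y + (q : ℝ) * (T + 1 + m)) ^ k

/-- the partial sum of `s_k(j mod q)` up to `j + q T` -/
noncomputable def ps (q T k j : ℕ) : ℝ :=
  ∑ m ∈ range (j / q + T + 1), 1 / ((q : ℝ) * m + ((j % q : ℕ) : ℝ)) ^ k

/-- the length of the windows -/
def win (n T : ℕ) : ℕ := 2 * T + n + 1

/-- the window sum: the sum of `(y + q t)^(-k)` over `-n - T ≤ t ≤ T` -/
noncomputable def rr (q n T k : ℕ) (y : ℝ) : ℝ :=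
  ∑ i ∈ range (win n T), 1 / (y - (q : ℝ) * (n + T) + q * i) ^ k

/-- the nodes -/
def P (q n : ℕ) (I : Finset ℕ) : Finset ℕ := (range (q * n)).filter fun j => j % q ∈ I

/-- the normalisation of the multiplier -/
noncomputable def bet (q n T : ℕ) : ℝ :=
  (q : ℝ) ^ win n T * (Nat.lcmUpto (win n T) : ℝ) / ((win n T).factorial : ℝ)

/-- the multiplier -/
noncomputable def WP (q n T w : ℕ) : ℝ[X] :=
  (C (bet q n T) * ∏ i ∈ range (win n T), (X + C (-(q : ℝ) * (n + T) + q * i))) ^ w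

/-- the index set of the rows (i), (ii), (iii) -/
abbrev RA (Φ : Finset (ℕ × ℕ)) (s d K : ℕ) : Type := (Φ × Fin d) ⊕ ((Φ × Fin d) ⊕ (Fin s × Fin K))

/-- The data: level `q`, weights `J` (all `≤ w`), shifts `Cs`, classes `I`, rational class functions and the relation
`∑ (k, c), al (k, c) x * s_k(y) + ta (k, c) x * (s_k(y) + (-1)^k s_k(q - y)) = b₀ x + ∑ l, b x l * ξ l`,
`y = (x + c) mod q`. -/
structure Dat where
  q : ℕ
  w : ℕ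
  s : ℕ
  J : Finset ℕ
  Cs : Finset ℕ
  I : Finset ℕ
  al : ℕ × ℕ → ℕ → ℚ
  ta : ℕ × ℕ → ℕ → ℚ
  b₀ : ℕ → ℚ
  b : ℕ → Fin s → ℚ
  ξ : Fin s → ℝ
  hq : 2 ≤ q
  hJ : ∀ k ∈ J, 2 ≤ k ∧ k ≤ w
  hC : ∀ c ∈ Cs, c < q
  hI : ∀ x ∈ I, x < q
  hxc : ∀ x ∈ I, ∀ c ∈ Cs, 0 < (x + c) % q
  hal : ∀ x ∈ I, ∃ p ∈ J ×ˢ Cs, al p x ≠ 0
  hrel : ∀ x ∈ I, ∑ p ∈ J ×ˢ Cs, ((al p x : ℝ) * sk q p.1 (((x + p.2) % q : ℕ) : ℝ) +
      (ta p x : ℝ) * (sk q p.1 (((x + p.2) % q : ℕ) : ℝ) +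
        (-1) ^ p.1 * sk q p.1 ((q : ℝ) - (((x + p.2) % q : ℕ) : ℝ)))) =
    (b₀ x : ℝ) + ∑ l, (b x l : ℝ) * ξ l

namespace Dat

variable (D : Dat)

/-- the pairs (weight, shift) -/
def Φ : Finset (ℕ × ℕ) := D.J ×ˢ D.Cs

/-- the nodes `j`; all `j + c` are less than `q n` -/
def Nd (n : ℕ) : Finset ℕ := P D.q (n - 1) D.I

/-- the total exponent `w |Cs|` -/
def ww : ℕ := D.w * D.Cs.card

/-- the rows (i), (ii), (iii) -/
noncomputable def rowA (d K : ℕ) : RA D.Φ D.s d K → ℕ → ℝ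
  | Sum.inl (p, i), j => (D.al p (j % D.q) : ℝ) * (j.choose i : ℝ)
  | Sum.inr (Sum.inl (p, i)), j => (D.ta p (j % D.q) : ℝ) * (j.choose i : ℝ)
  | Sum.inr (Sum.inr (l, i)), j => (D.b (j % D.q) l : ℝ) * (j.choose i : ℝ)

/-- the multiplier, the product of `WP (y + c)` -/
noncomputable def Om (n T : ℕ) : ℝ[X] := ∏ c ∈ D.Cs, taylor (c : ℝ) (WP D.q n T D.w)

/-- the first factor of the rows (iv) -/
noncomputable def G (n T j : ℕ) : ℝ :=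
  (D.b₀ (j % D.q) : ℝ) - ∑ p ∈ D.Φ, ((D.al p (j % D.q) : ℝ) * ps D.q T p.1 (j + p.2) +
    (D.ta p (j % D.q) : ℝ) * rr D.q n T p.1 ((j + p.2 : ℕ) : ℝ))

/-- the rows (iv) -/
noncomputable def rowB (n T i j : ℕ) : ℝ :=
  D.G n T j * ((D.Om n T).eval (j : ℝ) * (j.choose i : ℝ))

/-- the span of the rows (i), (ii), (iii), as functions on the nodes -/
noncomputable def rsp (n d K : ℕ) : Submodule ℝ (D.Nd n → ℝ) :=
  Submodule.span ℝ (Set.range fun (a : RA D.Φ D.s d K) (j : D.Nd n) => D.rowA d K a j)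

end Dat

/-- the sizes of the rows (i), (ii), (iii) -/
noncomputable def UA (Φ : Finset (ℕ × ℕ)) (s d K Q₁ Q₂ : ℕ) (B : ℝ) : RA Φ s d K → ℝ
  | Sum.inl (_, i) => B * (Real.exp d * (Q₁ : ℝ) ^ (i : ℕ))
  | Sum.inr (Sum.inl (_, i)) => B * (Real.exp d * (Q₁ : ℝ) ^ (i : ℕ))
  | Sum.inr (Sum.inr (_, i)) => B * (Real.exp K * (Q₂ : ℝ) ^ (i : ℕ))

/-- the bound for the multiplier -/
noncomputable def Wb (q n T w : ℕ) : ℝ :=
  ((q : ℝ) ^ (2 * win n T) * 2 ^ (8 * win n T) * Real.exp (win n T)) ^ w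

/-- the sizes of the rows (iv) modulo the others -/
noncomputable def EB (q n r w d K Q₂ : ℕ) (M : ℝ) (p : ℕ) : ℝ :=
  M * (2 ^ (w + 1) * ((d : ℝ) + 1) ^ w * (1 / (2 * (r : ℝ) + 1)) ^ (d - w * win n (r * n) - p)) *
    (Wb q n (r * n) w * (Real.exp K * (Q₂ : ℝ) ^ p))

/-- admissible parameters: `W` = number of pairs (weight, shift), `w` = largest weight times number of shifts,
`s + 1` = dimension, `m` = number of classes -/
structure Adm (q W w s m δ k r Q₁ Q₂ : ℕ) : Prop where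
  hk : 1 ≤ k
  hr : 1 ≤ r
  hδ : k + w * (2 * r + 2) < δ
  hQ₁ : q ≤ Q₁ * δ
  hQ₂ : q ≤ Q₂ * k
  hZE : (3 * W + s + 1) * δ < m
  hIN : 2 * W * (δ : ℝ) ^ 2 * (Real.log Q₁ + 2) +
      ((s : ℝ) + 1) * ((k : ℝ) + w * (2 * r + 2)) ^ 2 * (Real.log Q₂ + 2) +
      26 * k * (w * (2 * r + 2)) * Real.log q <
    (2 * ((δ : ℝ) - w * (2 * r + 2)) * k - (k : ℝ) ^ 2) * Real.log (2 * r + 1)

end CM68
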