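import Pool.Agent.LibCM68.Defs

/-!
# Exceptional points
-/

namespace CM68

open Finset

/-- There is a rational relation modulo `V` between the numbers `ζ(k, y)`, `ζ(k, 1 - y)`, `k ∈ J`,
`y = ((x + c) mod q) / q`, `c ∈ Cs`, which is not a relation between the cotangent numbers
`ζ(k, y) + (-1)^k ζ(k, 1 - y)`. -/
def Exc (J Cs : Finset ℕ) (V : Submodule ℚ ℝ) (q x : ℕ) : Prop :=
  ∃ lam mu : ℕ → ℕ → ℚ, (∃ c ∈ Cs, ∃ k ∈ J, lam c k ≠ (-1) ^ k * mu c k) ∧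
    ∑ c ∈ Cs, ∑ k ∈ J, ((lam c k : ℝ) * hz k ((((x + c) % q : ℕ) : ℝ) / q) +
      (mu c k : ℝ) * hz k (1 - (((x + c) % q : ℕ) : ℝ) / q)) ∈ V

end CM68
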