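import Pool.Agent.LibCM68.WA1a
import Pool.Agent.LibCM68.WA1b

/-!
# Row A1: the window with one term omitted (SHORT/MEDIUM)

Plan: `∏_{k ∈ (range T).erase i} f k = (∏_{k < i} f k) * ∏_{k < T - 1 - i} f (i + 1 + k)`
(`Finset.prod_erase..`, `Finset.prod_range_add_..`; e.g. `range T = range (i + 1 + (T - 1 - i))`,
`Finset.prod_range_add`, `Finset.prod_range_succ`, and cancel nothing: show
`(range T).erase i = range i ∪ (Ico (i+1) T)`, `Finset.prod_union`, `Finset.prod_Ico_eq_prod_range`).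
`ap_dvd q i u` and `ap_dvd q (T - 1 - i) (u + q (i + 1))` give `i! (T-1-i)! ∣ q ^ (T - 1) * ∏`; `choose_dvd_lcm`;
`T! = (T * C(T-1, i)) * (i! * (T-1-i)!)` (`Nat.choose_mul_factorial_mul_factorial`, `T! = T * (T-1)!`);
`mul_dvd_mul`, and one more factor `q`.
-/

namespace CM68

open Finset

theorem a1_prod {M : Type*} [CommMonoid M] (f : ℕ → M) (i m : ℕ) :
    ∏ k ∈ (range (i + 1 + m)).erase i, f k =
      (∏ k ∈ range i, f k) * ∏ k ∈ range m, f (i + 1 + k) := by
  have hi : i ∈ range (i + 1 + m) := Finset.mem_range.mpr (by omega)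
  have h1 : ∏ k ∈ (range (i + 1 + m)).erase i, f k =
      ∏ k ∈ (range (i + 1 + m)).erase i, (if k = i then 1 else f k) :=
    Finset.prod_congr rfl (fun k hk => by rw [if_neg (Finset.ne_of_mem_erase hk)])
  have h2 := Finset.mul_prod_erase (range (i + 1 + m)) (fun k => if k = i then 1 else f k) hi
  simp only [if_true, one_mul] at h2
  rw [h1, h2, Finset.prod_range_add, Finset.prod_range_succ]
  simp only [if_true, mul_one]
  congr 1
  · exact Finset.prod_congr rfl (fun k hk => by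
      rw [if_neg]
      have := Finset.mem_range.mp hk
      omega)
  · exact Finset.prod_congr rfl (fun k _ => by rw [if_neg (by omega)])

theorem win_dvd (q : ℕ) {T i : ℕ} (hi : i < T) (u : ℤ) :
    ((T.factorial : ℕ) : ℤ) ∣ (q : ℤ) ^ T * (Nat.lcmUpto T : ℤ) *
      ∏ k ∈ (range T).erase i, (u + q * k) := by
  obtain ⟨m, rfl⟩ : ∃ m, T = i + 1 + m := ⟨T - (i + 1), by omega⟩
  rw [a1_prod (fun k : ℕ => u + (q : ℤ) * (k : ℤ)) i m]
  have hA := ap_dvd q i u
  have hB := ap_dvd q m (u + q * (i + 1))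
  have hC : (((i + 1 + m) * (i + 1 + m - 1).choose i : ℕ) : ℤ) ∣
      ((Nat.lcmUpto (i + 1 + m) : ℕ) : ℤ) := Int.natCast_dvd_natCast.mpr (choose_dvd_lcm hi)
  have hfac : (((i + 1 + m).factorial : ℕ) : ℤ) =
      (((i + 1 + m) * (i + 1 + m - 1).choose i : ℕ) : ℤ) *
        (((i.factorial : ℕ) : ℤ) * ((m.factorial : ℕ) : ℤ)) := by
    have h1 : (i + 1 + m).factorial = (i + 1 + m) * (i + m).factorial := by
      have : i + 1 + m = (i + m) + 1 := by omega
      rw [this, Nat.factorial_succ]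
    have h2 : (i + m).choose i * i.factorial * m.factorial = (i + m).factorial := by
      have h3 := Nat.choose_mul_factorial_mul_factorial (n := i + m) (k := i) (by omega)
      rwa [Nat.add_sub_cancel_left] at h3
    have h4 : i + 1 + m - 1 = i + m := by omega
    rw [h4, h1, ← h2]
    push_cast
    ring
  rw [hfac]
  have hD := (mul_dvd_mul hC (mul_dvd_mul hA hB)).mul_right (q : ℤ)
  refine hD.trans (dvd_of_eq ?_)
  have h5 : ∏ k ∈ range m, (u + (q : ℤ) * (((i + 1 + k : ℕ) : ℤ))) =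
      ∏ k ∈ range m, (u + (q : ℤ) * ((i : ℤ) + 1) + (q : ℤ) * (k : ℤ)) :=
    Finset.prod_congr rfl (fun k _ => by push_cast; ring)
  rw [h5, pow_add, pow_add]
  ring

end CM68
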