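import Pool.Agent.LibCM68.Defs
import Pool.Agent.LibCM68.WA1

/-!
# Row I1: integrality of the multiplier (MEDIUM; template LibHZ7 row A2, store HZ7_A2.lean)

Plan: with `v : ℤ = j - q (n + T)` the factors of `WP` at `j` are `v + q i`, `i < win n T`.  By `win_dvd` there is an
integer `z i` with `q ^ win * lcmUpto win * ∏_{erase i} (v + q k) = win! * z i`, so `bet * ∏_{all} = z i * (v + q i)`
(`Finset.mul_prod_erase`; `win n T ≥ 1`).  `W_int`: `i = 0`, power.  `W_term_int`: for `v + q i ≠ 0`, `k ≤ w`: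
`(z i * (v + q i)) ^ w * (1 / (v + q i) ^ k) = z i ^ w * (v + q i) ^ (w - k)`; if `v + q i = 0` the term `1 / 0 ^ k` is
`0` (`k ≥ 1`).  `Wrr_int`: sum over `i`.  `Wps_int`: the terms `m < j / q + T + 1` of `ps` are the terms
`i = n + T - j / q + m < win n T` of the window (`j < q n` gives `j / q < n`; `q m + j % q = v + q i`).
-/

namespace CM68

open Finset Polynomial

private theorem i1_key (q n T : ℕ) (v : ℤ) {i : ℕ} (hi : i < win n T) :
    ∃ z : ℤ, bet q n T * ∏ k ∈ range (win n T), ((v : ℝ) + q * k) = z * ((v : ℝ) + q * i) := by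
  obtain ⟨z, hz⟩ := win_dvd q hi v
  refine ⟨z, ?_⟩
  have hz' := congrArg (Int.cast : ℤ → ℝ) hz
  push_cast at hz'
  have hf : (((win n T).factorial : ℕ) : ℝ) ≠ 0 := by exact_mod_cast Nat.factorial_ne_zero _
  rw [← Finset.mul_prod_erase (range (win n T)) (fun k : ℕ => (v : ℝ) + q * k)
    (Finset.mem_range.2 hi)]
  unfold bet
  rw [div_mul_eq_mul_div, div_eq_iff hf]
  linear_combination ((v : ℝ) + q * i) * hz'

private theorem i1_eval (q n T w j : ℕ) : (WP q n T w).eval (j : ℝ) =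
    (bet q n T * ∏ k ∈ range (win n T),
      ((((j : ℤ) - q * (n + T) : ℤ) : ℝ) + q * k)) ^ w := by
  unfold WP
  rw [eval_pow, eval_mul, eval_C, eval_prod]
  congr 2
  refine Finset.prod_congr rfl fun k _ => ?_
  simp only [eval_add, eval_X, eval_C]
  push_cast
  ring

private theorem i1_sum {ι : Type*} (s : Finset ι) (f : ι → ℝ)
    (h : ∀ i ∈ s, ∃ z : ℤ, f i = z) : ∃ z : ℤ, ∑ i ∈ s, f i = z := by
  classical
  induction s using Finset.induction_on with
  | empty => exact ⟨0, by simp⟩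
  | insert a s ha ih =>
    obtain ⟨z₁, h₁⟩ := h a (Finset.mem_insert_self a s)
    obtain ⟨z₂, h₂⟩ := ih (fun i hi => h i (Finset.mem_insert_of_mem hi))
    refine ⟨z₁ + z₂, ?_⟩
    rw [Finset.sum_insert ha, h₁, h₂]
    push_cast
    ring

theorem W_int (q n T w j : ℕ) : ∃ z : ℤ, (WP q n T w).eval (j : ℝ) = z := by
  obtain ⟨z, hz⟩ := i1_key q n T ((j : ℤ) - q * (n + T)) (i := 0) (by unfold win; omega)
  refine ⟨(z * ((j : ℤ) - q * (n + T))) ^ w, ?_⟩
  rw [i1_eval, hz]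
  push_cast
  ring

theorem W_term_int {q n T w k i : ℕ} (hk : 1 ≤ k) (hkw : k ≤ w) (hi : i < win n T) (j : ℕ) :
    ∃ z : ℤ, (WP q n T w).eval (j : ℝ) *
      (1 / ((j : ℝ) - (q : ℝ) * (n + T) + q * i) ^ k) = z := by
  obtain ⟨z, hz⟩ := i1_key q n T ((j : ℤ) - q * (n + T)) hi
  have h1 : (j : ℝ) - (q : ℝ) * (n + T) + q * i =
      (((j : ℤ) - q * (n + T) : ℤ) : ℝ) + q * i := by
    push_cast
    ring
  have h2 : (((j : ℤ) - q * (n + T) : ℤ) : ℝ) + q * i =
      (((j : ℤ) - q * (n + T) + q * i : ℤ) : ℝ) := by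
    push_cast
    ring
  rw [i1_eval, hz, h1]
  rcases eq_or_ne ((((j : ℤ) - q * (n + T) : ℤ) : ℝ) + q * i) 0 with h0 | h0
  · refine ⟨0, ?_⟩
    rw [h0, zero_pow (by omega)]
    simp
  · refine ⟨z ^ w * ((j : ℤ) - q * (n + T) + q * i) ^ (w - k), ?_⟩
    rw [mul_pow, mul_assoc]
    have h3 : ((((j : ℤ) - q * (n + T) : ℤ) : ℝ) + q * i) ^ w *
        (1 / ((((j : ℤ) - q * (n + T) : ℤ) : ℝ) + q * i) ^ k) =
        ((((j : ℤ) - q * (n + T) : ℤ) : ℝ) + q * i) ^ (w - k) := by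
      rw [mul_one_div, div_eq_iff (pow_ne_zero _ h0), ← pow_add, Nat.sub_add_cancel hkw]
    rw [h3, h2]
    push_cast
    ring

theorem Wrr_int {q n T w k : ℕ} (hk : 1 ≤ k) (hkw : k ≤ w) (j : ℕ) :
    ∃ z : ℤ, (WP q n T w).eval (j : ℝ) * rr q n T k j = z := by
  unfold rr
  rw [Finset.mul_sum]
  exact i1_sum _ _ fun i hi => W_term_int hk hkw (Finset.mem_range.1 hi) j

theorem Wps_int {q n T w k : ℕ} (hk : 1 ≤ k) (hkw : k ≤ w) {j : ℕ} (hj : j < q * n) :
    ∃ z : ℤ, (WP q n T w).eval (j : ℝ) * ps q T k j = z := by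
  unfold ps
  rw [Finset.mul_sum]
  refine i1_sum _ _ fun m hm => ?_
  have hm' := Finset.mem_range.1 hm
  have hjn : j / q < n := Nat.div_lt_of_lt_mul hj
  obtain ⟨z, hz⟩ := W_term_int (q := q) (n := n) (T := T) (i := n + T - j / q + m) hk hkw
    (by unfold win; omega) j
  refine ⟨z, ?_⟩
  rw [← hz]
  congr 3
  have h1 : ((n + T - j / q + m : ℕ) : ℝ) = (n : ℝ) + T - ((j / q : ℕ) : ℝ) + m := by
    rw [Nat.cast_add, Nat.cast_sub (by omega)]
    push_cast
    ring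
  have h2 : (j : ℝ) = (q : ℝ) * ((j / q : ℕ) : ℝ) + ((j % q : ℕ) : ℝ) := by
    exact_mod_cast (Nat.div_add_mod j q).symm
  rw [h1]
  linear_combination (-1 : ℝ) * h2

end CM68
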