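import Pool.Agent.LibCM68.Defs

/-!
# Row PAR: admissible parameters (STRONG; templates LibHZ3 PA1, PA3)

Put `D = s + 1`, `F = 2 W + D` (so `2 W + s + 2 = F + 1`), `C₃ = 256 w² (F + 1)`, `C₁ = (3 W + s + 1) F + 1`,
`C = 2 C₁ C₃ e⁴`; `ℓ = log q`.  Choose `k' = m / C₁` (natural division), `k = 2 W k'`, `δ = F k'`, `r = k' / C₃`,
`Q₁ = Q₂ = q / k' + 1`.  `λ = log k'`, `g = w (2 r + 2)`.
* `m ≥ C q^θ ≥ C`, so `k' ≥ m / (2 C₁) ≥ C₃ e⁴ q^θ`, `r ≥ 1`, `θ = F / (F + 1)`, `λ ≥ θ ℓ + log C₃ + 4`, `λ ≤ ℓ`.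
* `q ≤ Q k'` (so `hQ₁`, `hQ₂`), `Q ≤ 2 q / k'`, `log Q ≤ ℓ - λ + 1`.  `g ≤ 4 w r ≤ 4 w k' / C₃`, `4 w < C₃` (`hδ`).
* `hZE`: `(3 W + s + 1) F k' < C₁ k' ≤ m`.
* `2 r + 1 ≥ k' / C₃`, `log (2 r + 1) ≥ λ - log C₃ ≥ 0`, and `2 (δ - g) k - k² ≥ (A - 16 W w / C₃) k'²`,
  `A = 4 W² + 4 W D`.  With `B = 2 W F² + 4 D W²`: the left side of `hIN` is at most
  `k'² [(B + 32 D W w² / C₃) (ℓ - λ + 3) + (208 W w / C₃) ℓ]` (`k + g ≤ (2 W + 4 w / C₃) k'`).
* So it suffices that `A λ - B (ℓ - λ) > A log C₃ + 3 B + (256 D W w² / C₃) (ℓ + 3)`.  Now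
  `(A + B) λ - B ℓ ≥ ((A + B) θ - B) ℓ + (A + B) (log C₃ + 4)`, `(A + B) θ - B = (A F - B) / (F + 1) = 2 W D² / (F + 1) =: σ`
  (`A F - B = 2 W D²`), and `256 D W w² / C₃ = D W / (F + 1) ≤ σ / 2`, `σ ≤ A`.
-/

namespace CM68

/-- the scalar inequality, `c = 1 / C₃` replaced by its bounds: `e₁ = W w ^ 2 / C₃`, `a₁ = W w / C₃ ≤ e₁` -/
private theorem PAR_scalar {W D F A B lC L l e σ : ℝ} (hW : 1 ≤ W) (hD : 1 ≤ D) (hF : F = 2 * W + D)
    (hA : A = 4 * W ^ 2 + 4 * W * D) (hB : B = 2 * W * F ^ 2 + 4 * D * W ^ 2)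
    (hσ : σ = 2 * W * D ^ 2 / (F + 1))
    (he0 : 0 ≤ e) (he : 256 * e = W / (F + 1)) (hlC : 0 ≤ lC) (hl0 : 0 ≤ L)
    (hl : F / (F + 1) * L + lC + 4 ≤ l) (hlL : l ≤ L) :
    (B + 32 * D * e) * (L - l + 3) + 208 * e * L < (A - 16 * e) * (l - lC) := by
  have hF1 : 0 < F + 1 := by rw [hF]; linarith
  have hF1' : F + 1 ≠ 0 := ne_of_gt hF1
  have hWpos : 0 < W := by linarith
  have hDpos : 0 < D := by linarith
  have hBpos : 0 ≤ B := by
    rw [hB]
    positivity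
  have hApos : 0 < A := by
    rw [hA]
    positivity
  have hABF : A * F - B = 2 * W * D ^ 2 := by
    rw [hA, hB, hF]
    ring
  have hθ : (A + B) * (F / (F + 1)) - B = σ := by
    rw [hσ]
    field_simp
    linarith
  have hσ0 : 0 ≤ σ := by rw [hσ]; positivity
  have hDe : 256 * D * e ≤ σ / 2 := by
    have h1 : 256 * D * e = D * W / (F + 1) := by
      calc 256 * D * e = D * (256 * e) := by ring
        _ = D * (W / (F + 1)) := by rw [he]
        _ = D * W / (F + 1) := by ring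
    rw [h1, hσ]
    rw [div_le_iff₀ hF1]
    have h2 : 2 * W * D ^ 2 / (F + 1) / 2 * (F + 1) = W * D ^ 2 := by
      field_simp
    rw [h2]
    nlinarith [mul_nonneg hWpos.le hDpos.le]
  have hσA : σ ≤ A := by
    rw [hσ, div_le_iff₀ hF1]
    have h3 : D ≤ F + 1 := by rw [hF]; linarith
    have h4 : 2 * W * D ^ 2 ≤ 2 * W * D * (F + 1) := by
      have : 0 ≤ 2 * W * D := by positivity
      nlinarith
    have h5 : 2 * W * D ≤ A := by
      rw [hA]
      nlinarith [mul_pos hWpos hDpos, sq_nonneg W]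
    nlinarith
  -- main computation
  have hAB : 0 ≤ A + B := by linarith
  have h6 : (A + B) * (F / (F + 1) * L + lC + 4) ≤ (A + B) * l := mul_le_mul_of_nonneg_left hl hAB
  have h7 : (A + B) * (F / (F + 1) * L + lC + 4) = (σ + B) * L + (A + B) * (lC + 4) := by
    rw [← hθ]
    ring
  have h8 : (256 * D * e) * (L + 3) ≤ σ / 2 * (L + 3) := mul_le_mul_of_nonneg_right hDe (by linarith)
  have h9 : 0 ≤ B * lC := mul_nonneg hBpos hlC
  have h10 : 0 ≤ σ * L := mul_nonneg hσ0 hl0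
  have hl0' : 0 ≤ l := by
    have : 0 ≤ F / (F + 1) * L := by
      have : 0 ≤ F := by rw [hF]; linarith
      positivity
    linarith
  -- error terms
  have h11 : 32 * D * e * (L - l + 3) ≤ 32 * D * e * (L + 3) := by
    apply mul_le_mul_of_nonneg_left _ (by positivity)
    linarith
  have h12 : 16 * e * (l - lC) ≤ 16 * D * e * (L + 3) := by
    have a1 : l - lC ≤ L + 3 := by linarith
    have a2 : 16 * e * (l - lC) ≤ 16 * e * (L + 3) := mul_le_mul_of_nonneg_left a1 (by positivity)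
    have a3 : 16 * e * (L + 3) ≤ 16 * D * e * (L + 3) := by
      have a4 : 16 * e ≤ 16 * D * e := by nlinarith
      exact mul_le_mul_of_nonneg_right a4 (by linarith)
    linarith
  have h13 : 208 * e * L ≤ 208 * D * e * (L + 3) := by
    have a2 : 208 * e * L ≤ 208 * e * (L + 3) := mul_le_mul_of_nonneg_left (by linarith) (by positivity)
    have a3 : 208 * e * (L + 3) ≤ 208 * D * e * (L + 3) := by
      have a4 : 208 * e ≤ 208 * D * e := by nlinarith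
      exact mul_le_mul_of_nonneg_right a4 (by linarith)
    linarith
  nlinarith

theorem par (W w s : ℕ) (hW : 1 ≤ W) (hw : 1 ≤ w) : ∃ C : ℝ, 0 < C ∧ ∀ q m : ℕ, 2 ≤ q → m ≤ q →
    C * (q : ℝ) ^ (1 - 1 / (2 * (W : ℝ) + s + 2)) ≤ m →
      ∃ δ k r Q₁ Q₂ : ℕ, Adm q W w s m δ k r Q₁ Q₂ := by
  obtain ⟨D, hD⟩ : ∃ D : ℕ, D = s + 1 := ⟨_, rfl⟩
  obtain ⟨F, hF⟩ : ∃ F : ℕ, F = 2 * W + D := ⟨_, rfl⟩
  obtain ⟨C₃, hC₃⟩ : ∃ C₃ : ℕ, C₃ = 256 * w ^ 2 * (F + 1) := ⟨_, rfl⟩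
  obtain ⟨C₁, hC₁⟩ : ∃ C₁ : ℕ, C₁ = (3 * W + s + 1) * F + 1 := ⟨_, rfl⟩
  have hC₁pos : 0 < C₁ := by rw [hC₁]; positivity
  have hw2 : 1 ≤ w ^ 2 := Nat.one_le_pow _ _ hw
  have hC₃w : 256 * w ≤ C₃ := by
    rw [hC₃]
    have : w ≤ w ^ 2 := by nlinarith
    nlinarith
  have hC₃pos : 0 < C₃ := by omega
  have hC₁R : (0 : ℝ) < C₁ := by exact_mod_cast hC₁pos
  have hC₃R : (0 : ℝ) < C₃ := by exact_mod_cast hC₃pos
  have hC₃1 : (1 : ℝ) ≤ C₃ := by exact_mod_cast hC₃pos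
  refine ⟨2 * C₁ * C₃ * Real.exp 4, by positivity, ?_⟩
  intro q m hq hmq hm
  have hq1 : (1 : ℝ) ≤ q := by exact_mod_cast (by omega : 1 ≤ q)
  have hqpos : (0 : ℝ) < q := by linarith
  have hFpos : 0 < F := by omega
  have hFR : (0 : ℝ) < F := by exact_mod_cast hFpos
  have hFeq : (F : ℝ) = 2 * W + D := by rw [hF]; push_cast; ring
  have hDeq : (D : ℝ) = s + 1 := by rw [hD]; push_cast; ring
  have hθ : (1 - 1 / (2 * (W : ℝ) + s + 2)) = (F : ℝ) / (F + 1) := by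
    have h1 : 2 * (W : ℝ) + s + 2 = F + 1 := by rw [hFeq, hDeq]; ring
    rw [h1]
    field_simp
    ring
  rw [hθ] at hm
  have hqθ : 1 ≤ (q : ℝ) ^ ((F : ℝ) / (F + 1)) := Real.one_le_rpow hq1 (by positivity)
  have hqθ0 : 0 < (q : ℝ) ^ ((F : ℝ) / (F + 1)) := by linarith
  have he4 : 1 ≤ Real.exp 4 := Real.one_le_exp (by norm_num)
  have he4' : 0 < Real.exp 4 := Real.exp_pos _
  -- k'
  obtain ⟨k', hk'⟩ : ∃ k' : ℕ, k' = m / C₁ := ⟨_, rfl⟩
  have hk'le : C₁ * k' ≤ m := by rw [hk']; exact Nat.mul_div_le m C₁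
  have hk'lt : m < C₁ * (k' + 1) := by
    rw [hk']
    exact Nat.lt_mul_div_succ m hC₁pos
  have hk'ltR : (m : ℝ) < C₁ * (k' + 1) := by exact_mod_cast hk'lt
  have hKlow : C₃ * Real.exp 4 * (q : ℝ) ^ ((F : ℝ) / (F + 1)) ≤ k' := by
    -- 2 C₁ X ≤ m < C₁ (k' + 1), so 2 X < k' + 1, X ≥ 1
    have h1 : 2 * (C₃ * Real.exp 4 * (q : ℝ) ^ ((F : ℝ) / (F + 1))) < k' + 1 := by
      have h2 : (C₁ : ℝ) * (2 * (C₃ * Real.exp 4 * (q : ℝ) ^ ((F : ℝ) / (F + 1)))) < C₁ * (k' + 1) := by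
        calc (C₁ : ℝ) * (2 * (C₃ * Real.exp 4 * (q : ℝ) ^ ((F : ℝ) / (F + 1)))) =
            2 * C₁ * C₃ * Real.exp 4 * (q : ℝ) ^ ((F : ℝ) / (F + 1)) := by ring
          _ ≤ m := hm
          _ < _ := hk'ltR
      exact lt_of_mul_lt_mul_left h2 hC₁R.le
    have h3 : 1 ≤ C₃ * Real.exp 4 * (q : ℝ) ^ ((F : ℝ) / (F + 1)) := by
      have h4 : 1 ≤ (C₃ : ℝ) * Real.exp 4 := by nlinarith
      nlinarith
    linarith
  have hKC₃ : (C₃ : ℝ) ≤ k' := by
    have h4 : (C₃ : ℝ) ≤ C₃ * Real.exp 4 := by nlinarith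
    have h5 : (C₃ : ℝ) * Real.exp 4 ≤ C₃ * Real.exp 4 * (q : ℝ) ^ ((F : ℝ) / (F + 1)) := by
      have : 0 ≤ (C₃ : ℝ) * Real.exp 4 := by positivity
      nlinarith
    linarith
  have hKC₃' : C₃ ≤ k' := by exact_mod_cast hKC₃
  have hk'pos : 0 < k' := by omega
  have hKR : (0 : ℝ) < k' := by exact_mod_cast hk'pos
  have hk'm : k' ≤ m := by
    calc k' = 1 * k' := (one_mul _).symm
      _ ≤ C₁ * k' := Nat.mul_le_mul_right _ hC₁pos
      _ ≤ m := hk'le
  have hk'q : k' ≤ q := hk'm.trans hmq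
  have hKq : (k' : ℝ) ≤ q := by exact_mod_cast hk'q
  -- r
  obtain ⟨r, hr⟩ : ∃ r : ℕ, r = k' / C₃ := ⟨_, rfl⟩
  have hrle : C₃ * r ≤ k' := by rw [hr]; exact Nat.mul_div_le k' C₃
  have hrlt : k' < C₃ * (r + 1) := by rw [hr]; exact Nat.lt_mul_div_succ k' hC₃pos
  have hr1 : 1 ≤ r := by
    rw [hr]
    exact (Nat.one_le_div_iff hC₃pos).2 hKC₃'
  -- Q
  obtain ⟨Q, hQ⟩ : ∃ Q : ℕ, Q = q / k' + 1 := ⟨_, rfl⟩
  have hQk : q ≤ Q * k' := by
    rw [hQ, mul_comm]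
    exact (Nat.lt_mul_div_succ q hk'pos).le
  have hQ1 : 1 ≤ Q := by rw [hQ]; exact Nat.succ_le_succ (Nat.zero_le _)
  have hg4 : w * (2 * r + 2) ≤ 4 * w * r := by nlinarith
  have hg4' : 64 * (w * (2 * r + 2)) ≤ k' := by
    calc 64 * (w * (2 * r + 2)) ≤ 64 * (4 * w * r) := Nat.mul_le_mul_left _ hg4
      _ = 256 * w * r := by ring
      _ ≤ C₃ * r := Nat.mul_le_mul_right _ hC₃w
      _ ≤ k' := hrle
  have hDpos : 1 ≤ D := by omega
  refine ⟨F * k', 2 * W * k', r, Q, Q, ?_, hr1, ?_, ?_, ?_, ?_, ?_⟩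
  · have : 1 ≤ 2 * W := by omega
    exact Nat.mul_pos this hk'pos
  · rw [hF, add_mul]
    have h1 : k' ≤ D * k' := Nat.le_mul_of_pos_left _ hDpos
    have h2 : w * (2 * r + 2) < k' := by
      generalize w * (2 * r + 2) = z at hg4' ⊢
      omega
    exact Nat.add_lt_add_left (lt_of_lt_of_le h2 h1) _
  · calc q ≤ Q * k' := hQk
      _ ≤ Q * (F * k') := by
        apply Nat.mul_le_mul_left
        exact Nat.le_mul_of_pos_left _ hFpos
  · calc q ≤ Q * k' := hQk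
      _ ≤ Q * (2 * W * k') := by
        apply Nat.mul_le_mul_left
        exact Nat.le_mul_of_pos_left _ (by omega)
  · calc (3 * W + s + 1) * (F * k') = (3 * W + s + 1) * F * k' := by ring
      _ < C₁ * k' := by
        apply Nat.mul_lt_mul_of_pos_right _ hk'pos
        rw [hC₁]
        omega
      _ ≤ m := hk'le
  · -- hIN
    obtain ⟨K, hKdef⟩ : ∃ K : ℝ, K = (k' : ℝ) := ⟨_, rfl⟩
    obtain ⟨g, hgdef⟩ : ∃ g : ℝ, g = (w : ℝ) * (2 * r + 2) := ⟨_, rfl⟩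
    have hWR : (1 : ℝ) ≤ W := by exact_mod_cast hW
    have hwR : (1 : ℝ) ≤ w := by exact_mod_cast hw
    have hDR : (1 : ℝ) ≤ D := by exact_mod_cast hDpos
    have hrR : (1 : ℝ) ≤ r := by exact_mod_cast hr1
    have hg0 : 0 ≤ g := by rw [hgdef]; positivity
    have hK0 : 0 < K := by rw [hKdef]; exact hKR
    have hC₃eq : (C₃ : ℝ) = 256 * w ^ 2 * (F + 1) := by rw [hC₃]; push_cast; ring
    obtain ⟨e, hedef⟩ : ∃ e : ℝ, e = (W : ℝ) * w ^ 2 / C₃ := ⟨_, rfl⟩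
    have he0 : 0 ≤ e := by rw [hedef]; positivity
    have he256 : 256 * e = W / ((F : ℝ) + 1) := by
      rw [hedef, hC₃eq]
      have : (w : ℝ) ≠ 0 := by positivity
      field_simp
    -- g bounds
    have hCg : (C₃ : ℝ) * g ≤ 4 * w * K := by
      have h1 : (C₃ : ℝ) * r ≤ K := by rw [hKdef]; exact_mod_cast hrle
      have h2 : g ≤ 4 * w * r := by rw [hgdef]; nlinarith
      calc (C₃ : ℝ) * g ≤ C₃ * (4 * w * r) := mul_le_mul_of_nonneg_left h2 hC₃R.le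
        _ = 4 * w * (C₃ * r) := by ring
        _ ≤ 4 * w * K := mul_le_mul_of_nonneg_left h1 (by positivity)
    have hWg : (W : ℝ) * g ≤ 4 * e * K := by
      -- W g ≤ 4 W w K / C₃ ≤ 4 W w² K / C₃
      have h1 : (W : ℝ) * g * C₃ ≤ 4 * (W * w ^ 2) * K := by
        calc (W : ℝ) * g * C₃ = W * (C₃ * g) := by ring
          _ ≤ W * (4 * w * K) := mul_le_mul_of_nonneg_left hCg (by linarith)
          _ = 4 * (W * w) * K := by ring
          _ ≤ 4 * (W * w ^ 2) * K := by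
            apply mul_le_mul_of_nonneg_right _ hK0.le
            have : (w : ℝ) ≤ w ^ 2 := by nlinarith
            have : (W : ℝ) * w ≤ W * w ^ 2 := mul_le_mul_of_nonneg_left this (by linarith)
            linarith
      have h2 : 4 * e * K = 4 * (W * w ^ 2) * K / C₃ := by rw [hedef]; ring
      rw [h2, le_div_iff₀ hC₃R]
      exact h1
    have hgg : g * g ≤ 16 * e * K ^ 2 := by
      -- g² ≤ 16 w² K² / C₃² ≤ 16 W w² K² / C₃
      have h1 : (C₃ : ℝ) * g * (C₃ * g) ≤ 4 * w * K * (4 * w * K) :=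
        mul_self_le_mul_self (by positivity) hCg
      have h2 : g * g * C₃ ≤ 16 * (W * w ^ 2) * K ^ 2 := by
        have h3 : g * g * C₃ ≤ (C₃ : ℝ) * g * (C₃ * g) := by
          have : 0 ≤ g * g * C₃ := by positivity
          nlinarith
        have h4 : 4 * (w : ℝ) * K * (4 * w * K) ≤ 16 * (W * w ^ 2) * K ^ 2 := by
          have : 0 ≤ (w : ℝ) ^ 2 * K ^ 2 := by positivity
          nlinarith
        linarith
      have h5 : 16 * e * K ^ 2 = 16 * (W * w ^ 2) * K ^ 2 / C₃ := by rw [hedef]; ring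
      rw [h5, le_div_iff₀ hC₃R]
      exact h2
    -- logs
    obtain ⟨L, hL⟩ : ∃ L : ℝ, L = Real.log q := ⟨_, rfl⟩
    obtain ⟨l, hl⟩ : ∃ l : ℝ, l = Real.log K := ⟨_, rfl⟩
    obtain ⟨lC, hlC⟩ : ∃ lC : ℝ, lC = Real.log C₃ := ⟨_, rfl⟩
    have hL0 : 0 ≤ L := by rw [hL]; exact Real.log_nonneg hq1
    have hlC0 : 0 ≤ lC := by rw [hlC]; exact Real.log_nonneg hC₃1
    have hlL : l ≤ L := by
      rw [hl, hL, hKdef]
      exact Real.log_le_log hKR hKq
    have hllow : (F : ℝ) / (F + 1) * L + lC + 4 ≤ l := by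
      have h1 : Real.log (C₃ * Real.exp 4 * (q : ℝ) ^ ((F : ℝ) / (F + 1))) ≤ Real.log K := by
        apply Real.log_le_log (by positivity)
        rw [hKdef]
        exact hKlow
      rw [Real.log_mul (by positivity) (by positivity), Real.log_mul (by positivity) (by positivity),
        Real.log_exp, Real.log_rpow hqpos] at h1
      rw [hl, hlC, hL]
      linarith
    have hlogQ : Real.log Q ≤ L - l + 1 := by
      have h1 : (Q : ℝ) ≤ 2 * q / K := by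
        rw [le_div_iff₀ hK0, hKdef]
        have h2 : k' * (q / k') ≤ q := Nat.mul_div_le q k'
        have h3 : Q * k' ≤ 2 * q := by
          rw [hQ, add_mul, one_mul, mul_comm (q / k') k']
          omega
        exact_mod_cast h3
      have hQR : (0 : ℝ) < Q := by exact_mod_cast hQ1
      have h4 : Real.log Q ≤ Real.log (2 * q / K) := Real.log_le_log hQR h1
      rw [Real.log_div (by positivity) (by positivity), Real.log_mul (by norm_num) (by positivity)] at h4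
      have h5 : Real.log 2 ≤ 1 := by
        have := Real.log_two_lt_d9
        linarith
      rw [hL, hl]
      linarith
    have hlogr : l - lC ≤ Real.log (2 * (r : ℝ) + 1) := by
      rw [hl, hlC, ← Real.log_div (by positivity) (by positivity)]
      apply Real.log_le_log (by positivity)
      rw [div_le_iff₀ hC₃R]
      have h1 : K < C₃ * (r + 1) := by rw [hKdef]; exact_mod_cast hrlt
      nlinarith
    have hscal := PAR_scalar (W := (W : ℝ)) (D := (D : ℝ)) (F := (F : ℝ)) hWR hDR hFeq rfl rfl rfl he0 he256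
      hlC0 hL0 hllow hlL
    have hkc : ((2 * W * k' : ℕ) : ℝ) = 2 * W * K := by rw [hKdef]; push_cast; ring
    have hδc : ((F * k' : ℕ) : ℝ) = F * K := by rw [hKdef]; push_cast; ring
    rw [hkc, hδc, ← hgdef, ← hL, ← hDeq]
    have hu0 : 0 ≤ L - l + 3 := by linarith
    have hlogQ' : Real.log Q + 2 ≤ L - l + 3 := by linarith
    -- the left side
    have hA1 : 2 * (W : ℝ) * (F * K) ^ 2 * (Real.log Q + 2) ≤ 2 * W * F ^ 2 * (L - l + 3) * K ^ 2 := by
      have h1 : 2 * (W : ℝ) * (F * K) ^ 2 * (Real.log Q + 2) ≤ 2 * (W : ℝ) * (F * K) ^ 2 * (L - l + 3) :=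
        mul_le_mul_of_nonneg_left hlogQ' (by positivity)
      calc _ ≤ _ := h1
        _ = _ := by ring
    have hkg : (2 * W * K + g) ^ 2 ≤ (4 * (W : ℝ) ^ 2 + 32 * e) * K ^ 2 := by
      have h1 : (2 * W * K + g) ^ 2 = 4 * (W : ℝ) ^ 2 * K ^ 2 + 4 * K * (W * g) + g * g := by ring
      have h2 : 4 * K * (W * g) ≤ 4 * K * (4 * e * K) := mul_le_mul_of_nonneg_left hWg (by positivity)
      rw [h1]
      nlinarith
    have hA2 : (D : ℝ) * (2 * W * K + g) ^ 2 * (Real.log Q + 2) ≤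
        (4 * D * (W : ℝ) ^ 2 + 32 * D * e) * (L - l + 3) * K ^ 2 := by
      have h1 : (D : ℝ) * (2 * W * K + g) ^ 2 * (Real.log Q + 2) ≤
          (D : ℝ) * (2 * W * K + g) ^ 2 * (L - l + 3) :=
        mul_le_mul_of_nonneg_left hlogQ' (by positivity)
      have h2 : (D : ℝ) * (2 * W * K + g) ^ 2 * (L - l + 3) ≤
          (D : ℝ) * ((4 * (W : ℝ) ^ 2 + 32 * e) * K ^ 2) * (L - l + 3) := by
        apply mul_le_mul_of_nonneg_right _ hu0
        exact mul_le_mul_of_nonneg_left hkg (by positivity)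
      calc _ ≤ _ := h1
        _ ≤ _ := h2
        _ = _ := by ring
    have hA3 : 26 * (2 * W * K) * g * L ≤ 208 * e * L * K ^ 2 := by
      have h1 : 26 * (2 * W * K) * g * L = 52 * (W * g) * (K * L) := by ring
      have h2 : 52 * (W * g) * (K * L) ≤ 52 * (4 * e * K) * (K * L) := by
        apply mul_le_mul_of_nonneg_right _ (by positivity)
        linarith
      rw [h1]
      calc _ ≤ _ := h2
        _ = _ := by ring
    -- the right side
    have hB1 : (4 * (W : ℝ) ^ 2 + 4 * W * D - 16 * e) * K ^ 2 ≤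
        2 * ((F : ℝ) * K - g) * (2 * W * K) - (2 * W * K) ^ 2 := by
      have h1 : 2 * ((F : ℝ) * K - g) * (2 * W * K) - (2 * W * K) ^ 2 =
          (4 * W * F - 4 * (W : ℝ) ^ 2) * K ^ 2 - 4 * K * (W * g) := by ring
      have h2 : 4 * K * (W * g) ≤ 4 * K * (4 * e * K) := mul_le_mul_of_nonneg_left hWg (by positivity)
      rw [h1, hFeq]
      nlinarith
    have hl4 : 0 ≤ l - lC := by
      have : 0 ≤ (F : ℝ) / (F + 1) * L := by positivity
      linarith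
    have hcoef : 0 ≤ 4 * (W : ℝ) ^ 2 + 4 * W * D - 16 * e := by
      have h1 : 16 * e ≤ W := by
        have h2 : (W : ℝ) / ((F : ℝ) + 1) ≤ W := by
          apply div_le_self (by linarith)
          linarith
        linarith
      nlinarith
    have hB2 : (4 * (W : ℝ) ^ 2 + 4 * W * D - 16 * e) * K ^ 2 * (l - lC) ≤
        (2 * ((F : ℝ) * K - g) * (2 * W * K) - (2 * W * K) ^ 2) * Real.log (2 * (r : ℝ) + 1) := by
      apply mul_le_mul hB1 hlogr hl4
      exact le_trans (by positivity) hB1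
    have hK2 : 0 < K ^ 2 := by positivity
    have hfin := mul_lt_mul_of_pos_right hscal hK2
    nlinarith

end CM68
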