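import Pool.Agent.LibCM68.Defs

/-!
# Row Q1: the question as the pair `y = 1/4` (MEDIUM)

Plan: `hz_sum`: `hz 3 (1/4) = ∑ 64 / (4 n + 1)^3`, `hz 3 (3/4) = ∑ 64 / (4 n + 3)^3`; together `64 ∑_{m odd} 1/m^3 =
64 (1 - 1/8) ζ(3) = 56 ζ(3)` (`tsum_even_add_odd`, twice: `∑ 1/(2 n + 1)^3 = (7/8) ∑ 1/(n+1)^3`, and the odd numbers
split into `4 n + 1`, `4 n + 3`).
`hz_diff`: `∑ 1/(4 n + 1)^3 - ∑ 1/(4 n + 3)^3 = π^3 / 32`: Mathlib's `hasSum_one_div_nat_pow_mul_sin` with `k = 1`, `x = 1/4`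
(`∑ 1/n^3 sin(2 π n / 4)` in terms of the Bernoulli polynomial `B_3(1/4) = 3/64`), and
`sin(π n / 2)` is `0, 1, 0, -1` for `n = 4 m, 4 m + 1, 4 m + 2, 4 m + 3`.
`q1`: with `z = ζ(3) = r π^3`: `hz 3 (1/4) = 28 z + π^3`, `hz 3 (3/4) = 28 z - π^3 > 0`; ratio `(28 r + 1)/(28 r - 1)`, and back:
`r = (ρ + 1) / (28 (ρ - 1))` (`ρ ≠ 1` since the difference is `2 π^3 ≠ 0`).
-/

namespace CM68

open Finset

private theorem Q1_sum : Summable fun n : ℕ => 1 / ((n : ℝ) + 1) ^ 3 := by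
  have h := (summable_nat_add_iff 1).2 (Real.summable_one_div_nat_pow.2 (by norm_num : 1 < 3))
  simpa using h

private theorem Q1_sum2 : Summable fun n : ℕ => 1 / (2 * (n : ℝ) + 1) ^ 3 := by
  refine Summable.of_nonneg_of_le (fun n => by positivity) (fun n => ?_) Q1_sum
  apply one_div_le_one_div_of_le (by positivity)
  apply pow_le_pow_left₀ (by positivity)
  have : (0 : ℝ) ≤ n := Nat.cast_nonneg n
  linarith

private theorem Q1_sum4 (a : ℝ) (ha : 1 ≤ a) : Summable fun n : ℕ => 1 / (4 * (n : ℝ) + a) ^ 3 := by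
  refine Summable.of_nonneg_of_le (fun n => by positivity) (fun n => ?_) Q1_sum
  apply one_div_le_one_div_of_le (by positivity)
  apply pow_le_pow_left₀ (by positivity)
  have : (0 : ℝ) ≤ n := Nat.cast_nonneg n
  linarith

private theorem Q1_odd : ∑' n : ℕ, 1 / (2 * (n : ℝ) + 1) ^ 3 =
    7 / 8 * ∑' n : ℕ, 1 / ((n : ℝ) + 1) ^ 3 := by
  have h := tsum_even_add_odd (f := fun n : ℕ => 1 / ((n : ℝ) + 1) ^ 3)
    (Q1_sum2.congr fun n => by push_cast; rfl)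
    ((Q1_sum.mul_left (1 / 8)).congr fun n => by push_cast; field_simp; ring)
  have h1 : (∑' n : ℕ, 1 / (((2 * n : ℕ) : ℝ) + 1) ^ 3) = ∑' n : ℕ, 1 / (2 * (n : ℝ) + 1) ^ 3 := by
    apply tsum_congr; intro n; push_cast; rfl
  have h2 : (∑' n : ℕ, 1 / (((2 * n + 1 : ℕ) : ℝ) + 1) ^ 3) =
      1 / 8 * ∑' n : ℕ, 1 / ((n : ℝ) + 1) ^ 3 := by
    rw [← tsum_mul_left]
    apply tsum_congr; intro n; push_cast; field_simp; ring
  rw [h1, h2] at h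
  linarith

private theorem Q1_split : (∑' n : ℕ, 1 / (4 * (n : ℝ) + 1) ^ 3) + (∑' n : ℕ, 1 / (4 * (n : ℝ) + 3) ^ 3) =
    ∑' n : ℕ, 1 / (2 * (n : ℝ) + 1) ^ 3 := by
  have e1 : ∀ n : ℕ, (1 : ℝ) / (4 * (n : ℝ) + 1) ^ 3 = 1 / (2 * ((2 * n : ℕ) : ℝ) + 1) ^ 3 := by
    intro n; push_cast; ring_nf
  have e2 : ∀ n : ℕ, (1 : ℝ) / (4 * (n : ℝ) + 3) ^ 3 = 1 / (2 * ((2 * n + 1 : ℕ) : ℝ) + 1) ^ 3 := by
    intro n; push_cast; ring_nf
  rw [← tsum_even_add_odd (f := fun n : ℕ => 1 / (2 * (n : ℝ) + 1) ^ 3)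
    ((Q1_sum4 1 le_rfl).congr e1) ((Q1_sum4 3 (by norm_num)).congr e2),
    tsum_congr e1, tsum_congr e2]

private theorem Q1_hz1 : hz 3 (1 / 4) = 64 * ∑' n : ℕ, 1 / (4 * (n : ℝ) + 1) ^ 3 := by
  rw [hz, ← tsum_mul_left]
  apply tsum_congr
  intro n
  have : (0 : ℝ) ≤ n := Nat.cast_nonneg n
  field_simp
  ring

private theorem Q1_hz3 : hz 3 (3 / 4) = 64 * ∑' n : ℕ, 1 / (4 * (n : ℝ) + 3) ^ 3 := by
  rw [hz, ← tsum_mul_left]
  apply tsum_congr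
  intro n
  have : (0 : ℝ) ≤ n := Nat.cast_nonneg n
  field_simp
  ring

theorem hz_sum : hz 3 (1 / 4) + hz 3 (3 / 4) = 56 * ∑' n : ℕ, 1 / ((n : ℝ) + 1) ^ 3 := by
  rw [Q1_hz1, Q1_hz3, ← mul_add, Q1_split, Q1_odd]
  ring

theorem hz_diff : hz 3 (1 / 4) - hz 3 (3 / 4) = 2 * Real.pi ^ 3 := by
  have hS := hasSum_L_function_mod_four_eval_three
  set S : ℕ → ℝ := fun n => (1 : ℝ) / (n : ℝ) ^ 3 * Real.sin (Real.pi * n / 2) with hSdef
  have s1 : ∀ n : ℕ, Real.sin (Real.pi * ((2 * n : ℕ) : ℝ) / 2) = 0 := by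
    intro n
    rw [show Real.pi * ((2 * n : ℕ) : ℝ) / 2 = n * Real.pi by push_cast; ring]
    exact Real.sin_nat_mul_pi n
  have s2 : ∀ n : ℕ, Real.sin (Real.pi * ((4 * n + 1 : ℕ) : ℝ) / 2) = 1 := by
    intro n
    rw [show Real.pi * ((4 * n + 1 : ℕ) : ℝ) / 2 = Real.pi / 2 + n * (2 * Real.pi) by
      push_cast; ring, Real.sin_add_nat_mul_two_pi, Real.sin_pi_div_two]
  have s3 : ∀ n : ℕ, Real.sin (Real.pi * ((4 * n + 3 : ℕ) : ℝ) / 2) = -1 := by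
    intro n
    rw [show Real.pi * ((4 * n + 3 : ℕ) : ℝ) / 2 = (Real.pi / 2 + Real.pi) + n * (2 * Real.pi) by
      push_cast; ring, Real.sin_add_nat_mul_two_pi, Real.sin_add_pi, Real.sin_pi_div_two]
  have e0 : ∀ n : ℕ, S (2 * n) = 0 := by
    intro n
    rw [hSdef]
    simp only
    rw [s1, mul_zero]
  have e1 : ∀ n : ℕ, S (2 * (2 * n) + 1) = 1 / (4 * (n : ℝ) + 1) ^ 3 := by
    intro n
    rw [hSdef]
    simp only
    rw [show 2 * (2 * n) + 1 = 4 * n + 1 by ring, s2, mul_one]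
    push_cast; rfl
  have e3 : ∀ n : ℕ, S (2 * (2 * n + 1) + 1) = -(1 / (4 * (n : ℝ) + 3) ^ 3) := by
    intro n
    rw [hSdef]
    simp only
    rw [show 2 * (2 * n + 1) + 1 = 4 * n + 3 by ring, s3]
    push_cast; ring
  have hsum1 : Summable fun n => S (2 * n + 1) := by
    have := hS.summable.comp_injective (i := fun n : ℕ => 2 * n + 1)
      (fun a b h => by simpa using h)
    exact this
  have h0 : ∑' n, S n = ∑' n, S (2 * n + 1) := by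
    rw [← tsum_even_add_odd (f := S) (by simp only [e0]; exact summable_zero) hsum1]
    simp only [e0, tsum_zero, zero_add]
  have h1 : ∑' n, S (2 * n + 1) = (∑' n : ℕ, 1 / (4 * (n : ℝ) + 1) ^ 3) -
      ∑' n : ℕ, 1 / (4 * (n : ℝ) + 3) ^ 3 := by
    rw [← tsum_even_add_odd (f := fun n => S (2 * n + 1))
      ((Q1_sum4 1 le_rfl).congr fun n => (e1 n).symm)
      ((Q1_sum4 3 (by norm_num)).neg.congr fun n => (e3 n).symm)]
    simp only [e1, e3]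
    rw [tsum_neg]
    ring
  have h2 := hS.tsum_eq
  rw [h0, h1] at h2
  rw [Q1_hz1, Q1_hz3, ← mul_sub, h2]
  ring

theorem q1 : (∃ ρ : ℚ, ∑' n : ℕ, 1 / ((n : ℝ) + 1) ^ 3 = ρ * Real.pi ^ 3) ↔
    ∃ ρ : ℚ, hz 3 (1 / 4) = ρ * hz 3 (1 - 1 / 4) := by
  have hs := hz_sum
  have hd := hz_diff
  have hpi : 0 < Real.pi ^ 3 := pow_pos Real.pi_pos 3
  rw [show (1 : ℝ) - 1 / 4 = 3 / 4 by norm_num]
  have hB : 0 < hz 3 (3 / 4) := by
    rw [Q1_hz3]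
    have : 0 < ∑' n : ℕ, 1 / (4 * (n : ℝ) + 3) ^ 3 :=
      (Q1_sum4 3 (by norm_num)).tsum_pos (fun n => by positivity) 0 (by norm_num)
    linarith
  set A := hz 3 (1 / 4)
  set B := hz 3 (3 / 4)
  set z := ∑' n : ℕ, 1 / ((n : ℝ) + 1) ^ 3
  constructor
  · rintro ⟨ρ, hρ⟩
    have hAe : A = (28 * ρ + 1) * Real.pi ^ 3 := by
      have : 2 * A = 56 * z + 2 * Real.pi ^ 3 := by linarith
      rw [hρ] at this
      linarith
    have hBe : B = (28 * ρ - 1) * Real.pi ^ 3 := by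
      have : 2 * B = 56 * z - 2 * Real.pi ^ 3 := by linarith
      rw [hρ] at this
      linarith
    have hne : (28 * (ρ : ℝ) - 1) ≠ 0 := by
      intro h
      rw [h, zero_mul] at hBe
      exact hB.ne' hBe
    refine ⟨(28 * ρ + 1) / (28 * ρ - 1), ?_⟩
    push_cast
    rw [hAe, hBe]
    field_simp
  · rintro ⟨ρ, hρ⟩
    have h1 : ((ρ : ℝ) - 1) * B = 2 * Real.pi ^ 3 := by rw [← hd, hρ]; ring
    have hne : ((ρ : ℝ) - 1) ≠ 0 := by
      intro h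
      rw [h, zero_mul] at h1
      linarith
    refine ⟨(ρ + 1) / (28 * (ρ - 1)), ?_⟩
    push_cast
    have h2 : 56 * z = ((ρ : ℝ) + 1) * B := by rw [← hs, hρ]; ring
    have h3 : Real.pi ^ 3 = (ρ - 1) * B / 2 := by linarith
    have h4 : z = ((ρ : ℝ) + 1) * B / 56 := by linarith
    rw [h3, h4]
    field_simp
    ring

end CM68
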