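import Pool.Agent.LibCM68.CORE
import Pool.Agent.LibCM68.PAR
import Pool.Agent.LibCM68.REP

/-!
# Row T1: the count, uniform in the shifts and in the space (SHORT/MEDIUM)

Plan: `W = J.card * r`, `w = (max J) * r` (`J.sup id`), for each `s < D` the constant `C_s` of `par W w s` (`W, w ≥ 1` as `r ≥ 1`,
`J` is not empty); `C = ∑_{s < D} C_s + 1`.
`finrank V = s + 1` with `s < D` (`1 ∈ V`, so the rank is positive; if `D = 0` there is no such `V`).  `I.card ≤ q`.  If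
`I.card > C q^(1 - 1/(2W + D + 1)) ≥ C_s q^(1 - 1/(2W + s + 2))` (`s + 2 ≤ D + 1`, `q ≥ 1`, `Real.rpow_le_rpow_of_exponent_le`),
then `par`, `rep` (with `w` there `= J.sup id`) and `core` (`Φ.card = J.card * Cs.card`, `ww = w * Cs.card`) give a
contradiction.
-/

namespace CM68

open Finset

theorem count1 (J : Finset ℕ) (hne : J.Nonempty) (h2 : ∀ k ∈ J, 2 ≤ k) {r : ℕ} (hr : 1 ≤ r) (D : ℕ) :
    ∃ C : ℝ, 0 < C ∧ ∀ q : ℕ, 2 ≤ q → ∀ V : Submodule ℚ ℝ, Module.Finite ℚ V →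
      Module.finrank ℚ V ≤ D → (1 : ℝ) ∈ V → ∀ Cs : Finset ℕ, Cs.card = r → (∀ c ∈ Cs, c < q) →
        ({x : ℕ | x < q ∧ (∀ c ∈ Cs, 0 < (x + c) % q) ∧ Exc J Cs V q x}.ncard : ℝ) ≤
          C * (q : ℝ) ^ (1 - 1 / (2 * (J.card : ℝ) * r + D + 1)) := by
  classical
  have hJ1 : 1 ≤ J.card := hne.card_pos
  have hW : 1 ≤ J.card * r := Nat.one_le_iff_ne_zero.2 (by positivity)
  have hsup : 1 ≤ J.sup id := by
    obtain ⟨k, hk⟩ := hne
    exact le_trans (le_trans (by norm_num) (h2 k hk)) (Finset.le_sup (f := id) hk)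
  have hw : 1 ≤ J.sup id * r := Nat.one_le_iff_ne_zero.2 (by positivity)
  choose Cf hCf0 hCf using fun s : ℕ => par (J.card * r) (J.sup id * r) s hW hw
  refine ⟨∑ s ∈ range D, Cf s + 1, by
    have : 0 ≤ ∑ s ∈ range D, Cf s := Finset.sum_nonneg fun s _ => (hCf0 s).le
    linarith, ?_⟩
  intro q hq V hV hD h1 Cs hcard hCs
  have hpos : 0 < Module.finrank ℚ V := by
    have : Nontrivial V := ⟨⟨⟨1, h1⟩, 0, fun h => one_ne_zero (congrArg Subtype.val h)⟩⟩
    exact Module.finrank_pos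
  obtain ⟨s, hs⟩ : ∃ s, Module.finrank ℚ V = s + 1 := ⟨Module.finrank ℚ V - 1, by omega⟩
  have hsD : s < D := by omega
  set I : Finset ℕ := (range q).filter fun x => (∀ c ∈ Cs, 0 < (x + c) % q) ∧ Exc J Cs V q x with hIdef
  have hset : {x : ℕ | x < q ∧ (∀ c ∈ Cs, 0 < (x + c) % q) ∧ Exc J Cs V q x} = (I : Set ℕ) := by
    ext x
    simp only [Set.mem_setOf_eq, hIdef, coe_filter, mem_range]
  rw [hset, Set.ncard_coe_finset]
  have hIq : I.card ≤ q := by
    calc I.card ≤ (range q).card := card_le_card (filter_subset _ _)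
      _ = q := card_range q
  by_contra hcon
  push Not at hcon
  have hq1 : (1 : ℝ) ≤ q := by exact_mod_cast (by omega : 1 ≤ q)
  have hle : Cf s * (q : ℝ) ^ (1 - 1 / (2 * ((J.card * r : ℕ) : ℝ) + s + 2)) ≤ I.card := by
    refine le_trans ?_ hcon.le
    have hC : Cf s ≤ ∑ s ∈ range D, Cf s + 1 := by
      have := Finset.single_le_sum (f := Cf) (fun i _ => (hCf0 i).le) (mem_range.2 hsD)
      linarith
    refine mul_le_mul hC ?_ (by positivity) (le_trans (hCf0 s).le hC)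
    refine Real.rpow_le_rpow_of_exponent_le hq1 ?_
    have hsD' : (s : ℝ) + 1 ≤ D := by exact_mod_cast hsD
    have hr0 : (0 : ℝ) ≤ (J.card : ℝ) * r := by positivity
    push_cast
    have : 1 / (2 * (J.card : ℝ) * r + D + 1) ≤ 1 / (2 * ((J.card : ℝ) * r) + s + 2) := by
      refine one_div_le_one_div_of_le (by positivity) ?_
      nlinarith
    linarith
  obtain ⟨δ, k, r', Q₁, Q₂, hA⟩ := hCf s q I.card hq hIq hle
  obtain ⟨D', e1, e2, e3, e4, e5, e6⟩ := rep (q := q) (w := J.sup id) (s := s) (J := J) (Cs := Cs) (I := I) hq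
    (fun k hk => ⟨h2 k hk, Finset.le_sup (f := id) hk⟩) hCs V hV h1 hs (by
      intro x hx
      rw [hIdef, mem_filter, mem_range] at hx
      exact ⟨hx.1, hx.2.1, hx.2.2⟩)
  have hcne : Cs.Nonempty := card_pos.1 (by omega)
  have eΦ : D'.Φ = J ×ˢ Cs := by unfold Dat.Φ; rw [e4, e5]
  have eΦc : D'.Φ.card = J.card * r := by rw [eΦ, card_product, hcard]
  have eww : D'.ww = J.sup id * r := by unfold Dat.ww; rw [e2, e5, hcard]
  refine core D' (δ := δ) (k := k) (r := r') (Q₁ := Q₁) (Q₂ := Q₂) (by rw [eΦ]; exact hne.product hcne) ?_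
  rw [eΦc, eww, e1, e3, e6]
  exact hA

end CM68
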