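import Pool.Agent.LibCM68.T4c

/-!
# Row T2: 100% of the `r`-subsets (MEDIUM)

Plan: an injective `x : Fin r → ℕ` with `0 < x i < q` is determined by `x₀ = x 0` and the residues `c i = (x i + q - x₀) % q`
(`c 0 = 0`, distinct, `(x₀ + c i) % q = x i`), so `Cs = image c`, `Cs.card = r`, and `1, ζ(k, x i / q)` are dependent iff
`1, ζ(k, ((x₀ + c) % q) / q)`, `c ∈ Cs`, are (reindex by the bijection `i ↦ c i`, `LinearIndependent` is invariant under
`Equiv`).  For each tuple `c` (at most `q^(r-1)` of them: `c 0 = 0`) there are at most `C q^(1 - 1/(2r+2))` values of `x₀`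
(`indep_count`).  Count: the map `x ↦ c` has image in a set of `q^(r-1)` elements (`Fintype.piFinset`), fibres inject by `x ↦ x 0`
(`Finset.card_eq_sum_card_fiberwise` or `Finset.card_le_mul_card_image`).
-/

namespace CM68

open Finset

private theorem T2_mod {q a b : ℕ} (ha : a < q) (hb : b < q) : (a + (b + q - a) % q) % q = b := by
  rw [Nat.add_mod_mod]
  rw [show a + (b + q - a) = b + q by omega, Nat.add_mod_right, Nat.mod_eq_of_lt hb]

theorem tuple_count {k : ℕ} (hk : 2 ≤ k) {r : ℕ} (hr : 1 ≤ r) : ∃ C : ℝ, 0 < C ∧ ∀ q : ℕ, 2 ≤ q →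
    ({x : Fin r → ℕ | Function.Injective x ∧ (∀ i, 0 < x i ∧ x i < q) ∧ ¬ LinearIndependent ℚ
      (fun i : Option (Fin r) => (match i with
        | none => 1
        | some i => hz k ((x i : ℝ) / q) : ℝ))}.ncard : ℝ) ≤
      C * (q : ℝ) ^ ((r : ℝ) - 1 / (2 * (r : ℝ) + 2)) := by
  obtain ⟨C, hC, hcount⟩ := indep_count hk hr
  refine ⟨C, hC, fun q hq => ?_⟩
  set E : Set (Fin r → ℕ) := {x : Fin r → ℕ | Function.Injective x ∧
    (∀ i, 0 < x i ∧ x i < q) ∧ ¬ LinearIndependent ℚ
      (fun i : Option (Fin r) => (match i with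
        | none => 1
        | some i => hz k ((x i : ℝ) / q) : ℝ))} with hE
  classical
  obtain ⟨r, rfl⟩ : ∃ r', r = r' + 1 := ⟨r - 1, by omega⟩
  set Ef : Finset (Fin (r + 1) → ℕ) :=
    (Fintype.piFinset fun _ : Fin (r + 1) => range q).filter fun x => x ∈ E with hEf
  have hEE : (Ef : Set (Fin (r + 1) → ℕ)) = E := by
    ext x
    simp only [hEf, coe_filter, Fintype.mem_piFinset, mem_range, Set.mem_setOf_eq]
    constructor
    · exact fun h => h.2
    · intro h
      exact ⟨fun i => (h.2.1 i).2, h⟩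
  rw [← hEE, Set.ncard_coe_finset]
  set φ : (Fin (r + 1) → ℕ) → (Fin (r + 1) → ℕ) := fun x i => (x i + q - x 0) % q with hφ
  set b : ℝ := C * (q : ℝ) ^ (1 - 1 / (2 * ((r + 1 : ℕ) : ℝ) + 2)) with hb
  have hb0 : 0 ≤ b := by positivity
  have hmemE : ∀ x ∈ Ef, x ∈ E := by
    intro x hx
    have : x ∈ (Ef : Set (Fin (r + 1) → ℕ)) := hx
    rw [hEE] at this
    exact this
  have hmem : ∀ x ∈ Ef, Function.Injective x ∧ (∀ i, 0 < x i ∧ x i < q) := by
    intro x hx
    exact ⟨(hmemE x hx).1, (hmemE x hx).2.1⟩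
  have hback : ∀ x ∈ Ef, ∀ i, (x 0 + φ x i) % q = x i := by
    intro x hx i
    obtain ⟨_, h2⟩ := hmem x hx
    exact T2_mod (h2 0).2 (h2 i).2
  -- the fibres
  have hfib : ∀ c ∈ Ef.image φ, #{x ∈ Ef | φ x = c} ≤ ⌊b⌋₊ := by
    intro c hc
    obtain ⟨x₁, hx₁, hx₁c⟩ := mem_image.1 hc
    have hcinj : Function.Injective c := by
      intro i j hij
      have h1 := hback x₁ hx₁ i
      have h2 := hback x₁ hx₁ j
      rw [hx₁c] at h1 h2
      rw [hij, h2] at h1
      exact ((hmem x₁ hx₁).1 h1).symm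
    have hclt : ∀ i, c i < q := by
      intro i
      rw [← hx₁c]
      exact Nat.mod_lt _ (by omega)
    set Cs : Finset ℕ := univ.image c with hCs
    have hCscard : Cs.card = r + 1 := by
      rw [hCs, card_image_of_injective _ hcinj, card_univ, Fintype.card_fin]
    have hCslt : ∀ c' ∈ Cs, c' < q := by
      intro c' hc'
      obtain ⟨i, _, rfl⟩ := mem_image.1 hc'
      exact hclt i
    have hcnt := hcount q hq Cs hCscard hCslt
    set S : Set ℕ := {x : ℕ | x < q ∧ (∀ c ∈ Cs, 0 < (x + c) % q) ∧ ¬ LinearIndependent ℚ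
      (fun i : Option Cs => (match i with
        | none => 1
        | some c => hz k ((((x + (c : ℕ)) % q : ℕ) : ℝ) / q) : ℝ))} with hS
    have hSfin : S.Finite := (Set.finite_lt_nat q).subset fun x hx => hx.1
    have h1 : #{x ∈ Ef | φ x = c} ≤ S.ncard := by
      rw [Set.ncard_eq_toFinset_card S hSfin]
      apply card_le_card_of_injOn (fun x => x 0)
      · intro x hx
        rw [mem_coe, mem_filter] at hx
        obtain ⟨hx, hxc⟩ := hx
        obtain ⟨g1, g2⟩ := hmem x hx
        have hb' := hback x hx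
        rw [hxc] at hb'
        rw [mem_coe, Set.Finite.mem_toFinset]
        refine ⟨(g2 0).2, ?_, ?_⟩
        · intro c' hc'
          obtain ⟨i, _, rfl⟩ := mem_image.1 hc'
          rw [hb' i]
          exact (g2 i).1
        · intro hLI
          refine (hmemE x hx).2.2 ?_
          have h2 := hLI.comp (Option.map fun i : Fin (r + 1) =>
            (⟨c i, mem_image_of_mem c (mem_univ i)⟩ : Cs))
            (Option.map_injective fun i j hij => hcinj (Subtype.ext_iff.1 hij))
          convert h2 using 1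
          funext i
          cases i with
          | none => rfl
          | some i =>
            show hz k ((x i : ℝ) / q) = hz k ((((x 0 + c i) % q : ℕ) : ℝ) / q)
            rw [hb' i]
      · intro x hx y hy hxy
        rw [mem_coe, mem_filter] at hx hy
        funext i
        have g1 := hback x hx.1 i
        have g2 := hback y hy.1 i
        rw [hx.2] at g1
        rw [hy.2] at g2
        simp only at hxy
        rw [← g1, ← g2, hxy]
    refine h1.trans (Nat.le_floor ?_)
    exact hcnt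
  have hcard := card_le_mul_card_image (f := φ) Ef ⌊b⌋₊ hfib
  -- the image
  have himg : #(Ef.image φ) ≤ q ^ r := by
    have h1 : Ef.image φ ⊆ Fintype.piFinset fun i : Fin (r + 1) =>
        if i = 0 then ({0} : Finset ℕ) else range q := by
      intro c hc
      obtain ⟨x, hx, rfl⟩ := mem_image.1 hc
      rw [Fintype.mem_piFinset]
      intro i
      by_cases hi : i = 0
      · subst hi
        rw [if_pos rfl, mem_singleton, hφ]
        simp only
        rw [show x 0 + q - x 0 = q by omega, Nat.mod_self]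
      · rw [if_neg hi, mem_range]
        exact Nat.mod_lt _ (by omega)
    refine (card_le_card h1).trans ?_
    rw [Fintype.card_piFinset, Fin.prod_univ_succ]
    simp [Fin.succ_ne_zero]
  have hq0 : (0 : ℝ) < q := by exact_mod_cast (by omega : 0 < q)
  calc ((#Ef : ℕ) : ℝ) ≤ ((⌊b⌋₊ * #(Ef.image φ) : ℕ) : ℝ) := by exact_mod_cast hcard
    _ = (⌊b⌋₊ : ℝ) * (#(Ef.image φ) : ℝ) := by push_cast; rfl
    _ ≤ b * (q : ℝ) ^ r := by
        apply mul_le_mul (Nat.floor_le hb0) _ (Nat.cast_nonneg _) hb0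
        exact_mod_cast himg
    _ = C * (q : ℝ) ^ (((r + 1 : ℕ) : ℝ) - 1 / (2 * ((r + 1 : ℕ) : ℝ) + 2)) := by
        rw [hb, mul_assoc, ← Real.rpow_natCast (q : ℝ) r, ← Real.rpow_add hq0]
        congr 2
        push_cast
        ring

end CM68
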