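import Pool.Agent.LibCM68.T1

/-!
# Row T3: counting by height (SHORT/MEDIUM)

Plan: the set of `y` is the union over `q = y.den ∈ [2, Q]` (`0 < y < 1` gives `den ≥ 2`) of the images of
`{x | x < q, 0 < (x + 0) % q, Exc J {0} V q x}` (`x = y.num.toNat`, `count1` with `r = 1`, `Cs = {0}`); the sum
`∑_{q ≤ Q} C q^θ ≤ Q * C Q^θ`, `θ ≥ 0`.  Finite: subset of a finite set.  `Set.ncard_le_ncard`, `Finset.card_biUnion_le`.
-/

namespace CM68

open Finset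

theorem count_height (J : Finset ℕ) (hne : J.Nonempty) (h2 : ∀ k ∈ J, 2 ≤ k) (D : ℕ) :
    ∃ C : ℝ, 0 < C ∧ ∀ Q : ℕ, 1 ≤ Q → ∀ V : Submodule ℚ ℝ, Module.Finite ℚ V →
      Module.finrank ℚ V ≤ D → (1 : ℝ) ∈ V →
        ({y : ℚ | 0 < y ∧ y < 1 ∧ y.den ≤ Q ∧ ∃ lam mu : ℕ → ℚ,
          (∃ k ∈ J, lam k ≠ (-1) ^ k * mu k) ∧
          ∑ k ∈ J, ((lam k : ℝ) * hz k (y : ℝ) + (mu k : ℝ) * hz k (1 - (y : ℝ))) ∈ V}.ncard : ℝ) ≤
          C * (Q : ℝ) ^ (2 - 1 / (2 * (J.card : ℝ) + D + 1)) := by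
  classical
  obtain ⟨C, hC0, hC⟩ := count1 J hne h2 (r := 1) le_rfl D
  refine ⟨C, hC0, ?_⟩
  intro Q hQ V hV hD h1
  set S : ℕ → Finset ℕ := fun q => (range q).filter fun x => (∀ c ∈ ({0} : Finset ℕ), 0 < (x + c) % q) ∧
    Exc J {0} V q x with hS
  have hSset : ∀ q, {x : ℕ | x < q ∧ (∀ c ∈ ({0} : Finset ℕ), 0 < (x + c) % q) ∧ Exc J {0} V q x} = (S q : Set ℕ) := by
    intro q
    ext x
    simp only [Set.mem_setOf_eq, hS, coe_filter, mem_range]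
  set U : Finset ℚ := (Icc 2 Q).biUnion fun q => (S q).image fun x : ℕ => (x : ℚ) / (q : ℚ) with hU
  have hsub : {y : ℚ | 0 < y ∧ y < 1 ∧ y.den ≤ Q ∧ ∃ lam mu : ℕ → ℚ,
          (∃ k ∈ J, lam k ≠ (-1) ^ k * mu k) ∧
          ∑ k ∈ J, ((lam k : ℝ) * hz k (y : ℝ) + (mu k : ℝ) * hz k (1 - (y : ℝ))) ∈ V} ⊆ (U : Set ℚ) := by
    rintro y ⟨hy0, hy1, hyQ, lam, mu, ⟨k, hk, hne'⟩, hsum⟩
    have hnum0 : 0 < y.num := Rat.num_pos.2 hy0
    have hlt : y.num < y.den := by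
      have h := hy1
      rw [Rat.lt_iff] at h
      simpa using h
    have hden0 : 0 < y.den := y.den_pos
    obtain ⟨x, hx⟩ : ∃ x : ℕ, y.num = x := ⟨y.num.toNat, by rw [Int.toNat_of_nonneg hnum0.le]⟩
    have hx0 : 0 < x := by exact_mod_cast hx ▸ hnum0
    have hxq : x < y.den := by exact_mod_cast hx ▸ hlt
    have hyx : y = (x : ℚ) / (y.den : ℚ) := by
      conv_lhs => rw [← Rat.num_div_den y, hx]
      simp
    have hyR : (y : ℝ) = (x : ℝ) / (y.den : ℝ) := by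
      conv_lhs => rw [hyx]
      push_cast
      rfl
    have hmod : (x + 0) % y.den = x := by rw [add_zero, Nat.mod_eq_of_lt hxq]
    rw [hU, mem_coe, mem_biUnion]
    refine ⟨y.den, mem_Icc.2 ⟨by omega, hyQ⟩, mem_image.2 ⟨x, ?_, hyx.symm⟩⟩
    rw [hS]
    simp only [mem_filter, mem_range]
    refine ⟨hxq, ?_, ?_⟩
    · intro c hc
      rw [mem_singleton] at hc
      subst hc
      rw [hmod]; exact hx0
    · refine ⟨fun _ => lam, fun _ => mu, ⟨0, mem_singleton_self _, k, hk, hne'⟩, ?_⟩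
      rw [sum_singleton, hmod, ← hyR]
      exact hsum
  have hcard : (({y : ℚ | 0 < y ∧ y < 1 ∧ y.den ≤ Q ∧ ∃ lam mu : ℕ → ℚ,
          (∃ k ∈ J, lam k ≠ (-1) ^ k * mu k) ∧
          ∑ k ∈ J, ((lam k : ℝ) * hz k (y : ℝ) + (mu k : ℝ) * hz k (1 - (y : ℝ))) ∈ V}.ncard : ℕ) : ℝ) ≤ U.card := by
    have h := Set.ncard_le_ncard hsub (finite_toSet U)
    rw [Set.ncard_coe_finset] at h
    exact_mod_cast h
  refine hcard.trans ?_
  have hθ : 0 ≤ 1 - 1 / (2 * (J.card : ℝ) + D + 1) := by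
    have : 1 / (2 * (J.card : ℝ) + D + 1) ≤ 1 := by
      rw [div_le_one (by positivity)]
      have : (0 : ℝ) ≤ 2 * (J.card : ℝ) + D := by positivity
      linarith
    linarith
  have hQ0 : (0 : ℝ) < Q := by exact_mod_cast (by omega : 0 < Q)
  have hterm : ∀ q ∈ Icc 2 Q, (((S q).image fun x : ℕ => (x : ℚ) / (q : ℚ)).card : ℝ) ≤
      C * (Q : ℝ) ^ (1 - 1 / (2 * (J.card : ℝ) + D + 1)) := by
    intro q hq
    rw [mem_Icc] at hq
    have h := hC q hq.1 V hV hD h1 {0} (card_singleton 0) (by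
      intro c hc
      rw [mem_singleton] at hc
      omega)
    rw [hSset q, Set.ncard_coe_finset] at h
    have he : (1 - 1 / (2 * (J.card : ℝ) * ((1 : ℕ) : ℝ) + D + 1)) = 1 - 1 / (2 * (J.card : ℝ) + D + 1) := by
      push_cast; ring_nf
    rw [he] at h
    have hi : (((S q).image fun x : ℕ => (x : ℚ) / (q : ℚ)).card : ℝ) ≤ (S q).card := by
      exact_mod_cast card_image_le
    refine hi.trans (h.trans ?_)
    refine mul_le_mul_of_nonneg_left ?_ hC0.le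
    exact Real.rpow_le_rpow (by positivity) (by exact_mod_cast hq.2) hθ
  calc (U.card : ℝ) ≤ ∑ q ∈ Icc 2 Q, (((S q).image fun x : ℕ => (x : ℚ) / (q : ℚ)).card : ℝ) := by
        rw [hU]
        exact_mod_cast card_biUnion_le
    _ ≤ ∑ _q ∈ Icc 2 Q, C * (Q : ℝ) ^ (1 - 1 / (2 * (J.card : ℝ) + D + 1)) := sum_le_sum hterm
    _ = ((Icc 2 Q).card : ℝ) * (C * (Q : ℝ) ^ (1 - 1 / (2 * (J.card : ℝ) + D + 1))) := by
        rw [sum_const, nsmul_eq_mul]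
    _ ≤ (Q : ℝ) * (C * (Q : ℝ) ^ (1 - 1 / (2 * (J.card : ℝ) + D + 1))) := by
        refine mul_le_mul_of_nonneg_right ?_ (by positivity)
        rw [Nat.card_Icc]
        exact_mod_cast (by omega : Q + 1 - 2 ≤ Q)
    _ = C * (Q : ℝ) ^ (2 - 1 / (2 * (J.card : ℝ) + D + 1)) := by
        have : (Q : ℝ) ^ (2 - 1 / (2 * (J.card : ℝ) + D + 1)) =
            (Q : ℝ) * (Q : ℝ) ^ (1 - 1 / (2 * (J.card : ℝ) + D + 1)) := by
          rw [show (2 - 1 / (2 * (J.card : ℝ) + D + 1)) = 1 + (1 - 1 / (2 * (J.card : ℝ) + D + 1)) by ring,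
            Real.rpow_add hQ0, Real.rpow_one]
        rw [this]; ring

end CM68
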