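import Pool.Agent.LibCM68.Defs

/-!
# Row T4a: `ζ(3, y)` is strictly decreasing (SHORT/MEDIUM)

Plan: if `0 < a < b` then `hz 3 b < hz 3 a`: `Summable.tsum_lt_tsum` (all terms `1/(n+b)^3 < 1/(n+a)^3`; summable: compare with
`1/n^3` from `n = 1` on, `Real.summable_one_div_nat_pow`, `summable_nat_add_iff 1`).  Apply to `y` and `1 - y`.
-/

namespace CM68

open Finset

theorem T4a_summable {a : ℝ} (ha : 0 < a) : Summable fun n : ℕ => 1 / ((n : ℝ) + a) ^ 3 := by
  rw [← summable_nat_add_iff 1]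
  have h1 : Summable fun n : ℕ => 1 / (((n + 1 : ℕ) : ℝ)) ^ 3 :=
    (summable_nat_add_iff 1).2 (Real.summable_one_div_nat_pow.2 (by norm_num))
  refine Summable.of_nonneg_of_le (fun n => by positivity) (fun n => ?_) h1
  have h2 : (0 : ℝ) < ((n + 1 : ℕ) : ℝ) := by positivity
  apply one_div_le_one_div_of_le (by positivity)
  apply pow_le_pow_left₀ h2.le
  linarith

theorem T4a_lt {a b : ℝ} (ha : 0 < a) (hab : a < b) : hz 3 b < hz 3 a := by
  have hb : 0 < b := ha.trans hab
  have hlt : ∀ n : ℕ, 1 / ((n : ℝ) + b) ^ 3 < 1 / ((n : ℝ) + a) ^ 3 := by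
    intro n
    have h0 : (0 : ℝ) ≤ (n : ℝ) := Nat.cast_nonneg n
    apply one_div_lt_one_div_of_lt (by positivity)
    apply pow_lt_pow_left₀ (by linarith) (by linarith) (by norm_num)
  exact Summable.tsum_lt_tsum (i := 0) (fun n => (hlt n).le) (hlt 0) (T4a_summable hb)
    (T4a_summable ha)

theorem hz_inj {y : ℝ} (h0 : 0 < y) (h1 : y < 1) (h : hz 3 y = hz 3 (1 - y)) : y = 1 / 2 := by
  rcases lt_trichotomy y (1 - y) with h2 | h2 | h2
  · have := T4a_lt h0 h2
    linarith
  · linarith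
  · have := T4a_lt (by linarith) h2
    linarith

end CM68
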