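import Pool.Agent.LibCM68.T1
import Pool.Agent.LibCM68.T4a

/-!
# Row T4b: the ratio `ζ(3, x/q) / ζ(3, 1 - x/q)` (SHORT/MEDIUM)

Plan: `J = {3}`, `V = span {1}` (dimension `1`), `Cs = {0}`, `count1` with `r = 1`, `D = 1`: exponent `1 - 1/(2 + 1 + 1) = 3/4`.
If `hz 3 y = ρ hz 3 (1 - y)`: `lam 0 3 = 1`, `mu 0 3 = -ρ`, the sum is `0 ∈ V`, nontrivial unless `1 = (-1)^3 (-ρ) = ρ`; if
`ρ = 1` then `y = 1/2` by `hz_inj`, `2 x = q`: at most one further `x` (`q / 2`).  Constant `C + 1`, `1 ≤ q^(3/4)`.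
-/

namespace CM68

open Finset

theorem ratio_count : ∃ C : ℝ, 0 < C ∧ ∀ q : ℕ, 2 ≤ q →
    ({x : ℕ | 0 < x ∧ x < q ∧ ∃ ρ : ℚ, hz 3 ((x : ℝ) / q) = ρ * hz 3 (1 - (x : ℝ) / q)}.ncard : ℝ) ≤
      C * (q : ℝ) ^ ((3 : ℝ) / 4) := by
  obtain ⟨C, hC, h⟩ := count1 {3} (Finset.singleton_nonempty 3)
    (by intro k hk; rw [Finset.mem_singleton] at hk; omega) (r := 1) le_rfl 1
  refine ⟨C + 1, by positivity, fun q hq => ?_⟩
  have hq0 : (0 : ℝ) < q := by exact_mod_cast (by omega : 0 < q)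
  have hfin : Module.Finite ℚ (Submodule.span ℚ {(1 : ℝ)}) := by
    apply Module.Finite.span_singleton
  have hrank : Module.finrank ℚ (Submodule.span ℚ {(1 : ℝ)}) ≤ 1 := by
    refine (finrank_span_le_card ({(1 : ℝ)} : Set ℝ)).trans ?_
    simp
  have hcount := h q hq (Submodule.span ℚ {(1 : ℝ)}) hfin hrank
    (Submodule.mem_span_singleton_self 1) {0} (Finset.card_singleton 0)
    (by intro c hc; rw [Finset.mem_singleton] at hc; omega)
  set A : Set ℕ := {x : ℕ | x < q ∧ (∀ c ∈ ({0} : Finset ℕ), 0 < (x + c) % q) ∧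
    Exc {3} {0} (Submodule.span ℚ {(1 : ℝ)}) q x} with hA
  have hAfin : A.Finite := (Set.finite_lt_nat q).subset fun x hx => hx.1
  have hsub : {x : ℕ | 0 < x ∧ x < q ∧
      ∃ ρ : ℚ, hz 3 ((x : ℝ) / q) = ρ * hz 3 (1 - (x : ℝ) / q)} ⊆ insert (q / 2) A := by
    rintro x ⟨hx0, hxq, ρ, hρ⟩
    have hx0' : (0 : ℝ) < x := by exact_mod_cast hx0
    have hxq' : (x : ℝ) < q := by exact_mod_cast hxq
    by_cases h1 : ρ = 1
    · left
      have hy := hz_inj (div_pos hx0' hq0) ((div_lt_one hq0).mpr hxq')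
        (by rw [hρ, h1]; push_cast; ring)
      have h2 : (2 : ℝ) * x = q := by
        field_simp at hy
        linarith
      have h3 : 2 * x = q := by exact_mod_cast h2
      omega
    · right
      refine ⟨hxq, ?_, fun _ _ => 1, fun _ _ => -ρ, ⟨0, by simp, 3, by simp, ?_⟩, ?_⟩
      · intro c hc
        rw [Finset.mem_singleton] at hc
        subst hc
        rw [add_zero, Nat.mod_eq_of_lt hxq]
        exact hx0
      · intro h4
        apply h1
        norm_num at h4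
        exact h4.symm
      · rw [Finset.sum_singleton, Finset.sum_singleton, add_zero, Nat.mod_eq_of_lt hxq, hρ]
        have : ((1 : ℚ) : ℝ) * (↑ρ * hz 3 (1 - (x : ℝ) / q)) +
            ((-ρ : ℚ) : ℝ) * hz 3 (1 - (x : ℝ) / q) = 0 := by
          push_cast
          ring
        rw [this]
        exact Submodule.zero_mem _
  have hcard : ({x : ℕ | 0 < x ∧ x < q ∧
      ∃ ρ : ℚ, hz 3 ((x : ℝ) / q) = ρ * hz 3 (1 - (x : ℝ) / q)}.ncard : ℝ) ≤ (A.ncard : ℝ) + 1 := by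
    have := (Set.ncard_le_ncard hsub (hAfin.insert _)).trans (Set.ncard_insert_le (q / 2) A)
    exact_mod_cast this
  have hexp : (1 - 1 / (2 * ((({3} : Finset ℕ).card : ℕ) : ℝ) * ((1 : ℕ) : ℝ) + ((1 : ℕ) : ℝ) + 1) : ℝ) =
      3 / 4 := by
    rw [Finset.card_singleton]
    norm_num
  rw [hexp] at hcount
  have hone : (1 : ℝ) ≤ (q : ℝ) ^ ((3 : ℝ) / 4) :=
    Real.one_le_rpow (by exact_mod_cast (by omega : 1 ≤ q)) (by norm_num)
  nlinarith

end CM68
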