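import Pool.Agent.LibCM68.T1

/-!
# Row T4c: linear independence of `1, ζ(k, (x + c)/q)`, `c ∈ Cs` (MEDIUM)

Plan: `J = {k}`, `V = span {1}` (dimension `1`), `count1` with `D = 1`: exponent `1 - 1/(2 r + 2)`.  If the `r + 1` numbers are
dependent then there are rational `g : Option Cs → ℚ`, not all `0`, with `∑ g i • .. = 0`
(`Fintype.not_linearIndependent_iff`, `Fintype.sum_option`); not all `g (some c)` are `0` (else `g none * 1 = 0`);
`lam c k = g (some c)`, `mu = 0`, the sum is `- g none ∈ V`; `g (some c) ≠ (-1)^k * 0`.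
So the set is contained in that of `count1` (`Set.ncard_le_ncard`, finite: `x < q`).
-/

namespace CM68

open Finset

theorem indep_count {k : ℕ} (hk : 2 ≤ k) {r : ℕ} (hr : 1 ≤ r) : ∃ C : ℝ, 0 < C ∧ ∀ q : ℕ, 2 ≤ q →
    ∀ Cs : Finset ℕ, Cs.card = r → (∀ c ∈ Cs, c < q) →
    ({x : ℕ | x < q ∧ (∀ c ∈ Cs, 0 < (x + c) % q) ∧ ¬ LinearIndependent ℚ
      (fun i : Option Cs => (match i with
        | none => 1
        | some c => hz k ((((x + (c : ℕ)) % q : ℕ) : ℝ) / q) : ℝ))}.ncard : ℝ) ≤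
      C * (q : ℝ) ^ (1 - 1 / (2 * (r : ℝ) + 2)) := by
  classical
  obtain ⟨C, hC, h⟩ := count1 {k} ⟨k, Finset.mem_singleton_self k⟩
    (fun k' hk' => by rw [Finset.mem_singleton.1 hk']; exact hk) hr 1
  refine ⟨C, hC, fun q hq Cs hCs hc => ?_⟩
  have h1 : (1 : ℝ) ≠ 0 := one_ne_zero
  have key := h q hq (Submodule.span ℚ {(1 : ℝ)})
    (Module.Finite.span_of_finite ℚ (Set.finite_singleton _))
    (finrank_span_singleton (K := ℚ) h1).le (Submodule.mem_span_singleton_self _) Cs hCs hc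
  have he : (1 : ℝ) - 1 / (2 * (({k} : Finset ℕ).card : ℝ) * r + (1 : ℕ) + 1) =
      1 - 1 / (2 * (r : ℝ) + 2) := by
    rw [Finset.card_singleton]
    push_cast
    ring_nf
  rw [he] at key
  refine le_trans ?_ key
  norm_cast
  refine Set.ncard_le_ncard ?_ ((Set.finite_lt_nat q).subset fun x hx => hx.1)
  rintro x ⟨hx1, hx2, hx3⟩
  refine ⟨hx1, hx2, ?_⟩
  obtain ⟨g, hg, i, hi⟩ := Fintype.not_linearIndependent_iff.1 hx3
  rw [Fintype.sum_option] at hg
  simp only [Rat.smul_def] at hg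
  have hsome : ∃ c : Cs, g (some c) ≠ 0 := by
    by_contra hcon
    push Not at hcon
    rw [Finset.sum_eq_zero (fun c _ => by rw [hcon c]; simp)] at hg
    simp only [mul_one, add_zero, Rat.cast_eq_zero] at hg
    cases i with
    | none => exact hi hg
    | some c => exact hi (hcon c)
  obtain ⟨c, hcc⟩ := hsome
  refine ⟨fun c _ => if h : c ∈ Cs then g (some ⟨c, h⟩) else 0, fun _ _ => 0,
    ⟨c, c.2, k, Finset.mem_singleton_self k, ?_⟩, ?_⟩
  · simp only [mul_zero]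
    rw [dif_pos c.2]
    exact hcc
  · refine Submodule.mem_span_singleton.2 ⟨-g none, ?_⟩
    rw [← Finset.sum_coe_sort Cs]
    simp only [Finset.sum_singleton, Rat.cast_zero, zero_mul, add_zero, Rat.smul_def, mul_one]
    have e1 : ∑ c : Cs, (((if h : (c : ℕ) ∈ Cs then g (some ⟨c, h⟩) else 0 : ℚ) : ℝ)) *
        hz k ((((x + (c : ℕ)) % q : ℕ) : ℝ) / q) =
        ∑ c : Cs, (g (some c) : ℝ) * hz k ((((x + (c : ℕ)) % q : ℕ) : ℝ) / q) :=
      Finset.sum_congr rfl fun c _ => by rw [dif_pos c.2]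
    rw [e1]
    push_cast
    linarith [hg]

end CM68
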