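import Mathlib

/-!
# Row A1a: products in an arithmetic progression (MEDIUM, ONLY MATHLIB)

Plan: let `F = i!`, `a = gcd F (q ^ i)`, `F = a * b`.  `b` is prime to `q`: if a prime `p` divides `b` and `q`,
then `p`-adically `v(F) > v(a) = min (v F) (i * v q)`, so `v(a) = i v(q) ≥ i`, but `v_p(i!) < i` for `i ≥ 1`
(`Nat.sub_one_mul_padicValNat_factorial`, or `Nat.Prime.multiplicity_factorial..`/`Nat.factorization_factorial..`;
`i = 0` is trivial).
`a ∣ q ^ i` (`Nat.gcd_dvd_right`).  `b ∣ ∏ (u + q i')`: take `r` with `q r ≡ 1 [ZMOD b]`; then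
`r ^ i * ∏ (u + q i') ≡ ∏ (r u + i') [ZMOD b]`, and `i! ∣ ∏_{i' < i} (v + i')` for integers `v`
(`Ring.factorial_nsmul_multichoose_eq_ascPochhammer`, `ascPochhammer_eval_eq_prod_range`-like, or
`Int`/`Nat.factorial_dvd_ascFactorial` after adding a multiple of `i!` to `v`), `b ∣ i!`, and `r` is prime to `b`.
Finally `a * b ∣ q ^ i * ∏`.
-/

namespace CM68

open Finset

private theorem a1a_fact (i : ℕ) (v : ℤ) :
    ((i.factorial : ℕ) : ℤ) ∣ ∏ k ∈ range i, (v + k) := by
  have hF : 0 < i.factorial := Nat.factorial_pos i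
  have : NeZero i.factorial := ⟨hF.ne'⟩
  obtain ⟨w, hw⟩ : ∃ w : ℕ, (w : ℤ) = v + v.natAbs * i.factorial := by
    refine ⟨(v + v.natAbs * i.factorial).toNat, Int.toNat_of_nonneg ?_⟩
    have h1 : -(v.natAbs : ℤ) ≤ v := by omega
    have h2 : (v.natAbs : ℤ) * 1 ≤ v.natAbs * i.factorial :=
      mul_le_mul_of_nonneg_left (by exact_mod_cast hF) (by positivity)
    linarith
  have h1 : i.factorial ∣ ∏ k ∈ range i, (w + k) := by
    rw [← Nat.ascFactorial_eq_prod_range]
    exact Nat.factorial_dvd_ascFactorial w i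
  have h2 : ((∏ k ∈ range i, ((w : ℤ) + k) : ℤ) : ZMod i.factorial) = 0 := by
    rw [ZMod.intCast_zmod_eq_zero_iff_dvd]
    exact_mod_cast h1
  rw [← ZMod.intCast_zmod_eq_zero_iff_dvd, ← h2, Int.cast_prod, Int.cast_prod]
  refine Finset.prod_congr rfl fun k _ => ?_
  rw [hw]
  push_cast
  rw [ZMod.natCast_self, mul_zero, add_zero]

private theorem a1a_lt {p i : ℕ} (hp : p.Prime) (hi : 1 ≤ i) : padicValNat p i.factorial < i := by
  have : Fact p.Prime := ⟨hp⟩
  have h1 := sub_one_mul_padicValNat_factorial (p := p) i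
  have h2 : 0 < (p.digits i).sum := by
    rcases Nat.eq_zero_or_pos (p.digits i).sum with h0 | h0
    · exfalso
      have h3 : (p.digits i).getLast (Nat.digits_ne_nil_iff_ne_zero.2 (by omega)) ≤
          (p.digits i).sum := List.le_sum_of_mem (List.getLast_mem _)
      have h4 := Nat.getLast_digit_ne_zero p (show i ≠ 0 by omega)
      omega
    · exact h0
  have h3 : padicValNat p i.factorial ≤ (p - 1) * padicValNat p i.factorial :=
    Nat.le_mul_of_pos_left _ (by have := hp.two_le; omega)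
  omega

theorem ap_dvd (q i : ℕ) (u : ℤ) :
    ((i.factorial : ℕ) : ℤ) ∣ (q : ℤ) ^ i * ∏ k ∈ range i, (u + q * k) := by
  have hF : 0 < i.factorial := Nat.factorial_pos i
  set a := Nat.gcd i.factorial (q ^ i) with ha
  obtain ⟨b, hb⟩ : a ∣ i.factorial := Nat.gcd_dvd_left _ _
  have ha2 : a ∣ q ^ i := Nat.gcd_dvd_right _ _
  have ha0 : 0 < a := Nat.gcd_pos_of_pos_left _ hF
  have hcop : Nat.Coprime q b := by
    rw [Nat.coprime_iff_gcd_eq_one]
    by_contra hne
    obtain ⟨p, hp, hpd⟩ := Nat.exists_prime_and_dvd hne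
    have : Fact p.Prime := ⟨hp⟩
    have hpq : p ∣ q := hpd.trans (Nat.gcd_dvd_left _ _)
    have hpb : p ∣ b := hpd.trans (Nat.gcd_dvd_right _ _)
    rcases Nat.eq_zero_or_pos i with h0 | hi
    · rw [h0, Nat.factorial_zero] at hb
      have hb1 : b = 1 := Nat.eq_one_of_mul_eq_one_left hb.symm
      rw [hb1] at hpb
      exact hp.one_lt.ne' (Nat.dvd_one.1 hpb)
    · have h1 := a1a_lt hp hi
      have h2 : p ^ padicValNat p i.factorial ∣ a :=
        Nat.dvd_gcd pow_padicValNat_dvd ((pow_dvd_pow p h1.le).trans (pow_dvd_pow_of_dvd hpq i))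
      have h3 : p ^ (padicValNat p i.factorial + 1) ∣ i.factorial := by
        have h4 := mul_dvd_mul h2 hpb
        rw [← pow_succ, ← hb] at h4
        exact h4
      exact pow_succ_padicValNat_not_dvd hF.ne' h3
  have hbd : (b : ℤ) ∣ ∏ k ∈ range i, (u + q * k) := by
    obtain ⟨x, y, hxy⟩ := Nat.isCoprime_iff_coprime.2 hcop
    have hbF : (b : ℤ) ∣ (i.factorial : ℤ) := ⟨a, by rw [hb]; push_cast; ring⟩
    have h1 : (b : ℤ) ∣ ∏ k ∈ range i, (x * u + k) := hbF.trans (a1a_fact i (x * u))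
    have hb0 : b ≠ 0 := by
      rintro rfl
      rw [mul_zero] at hb
      omega
    have : NeZero b := ⟨hb0⟩
    have hxq : (x : ZMod b) * q = 1 := by
      have h2 := congrArg (fun t : ℤ => (t : ZMod b)) hxy
      push_cast at h2
      rw [ZMod.natCast_self, mul_zero, add_zero] at h2
      exact h2
    have h2 : (b : ℤ) ∣ x ^ i * ∏ k ∈ range i, (u + q * k) := by
      rw [← ZMod.intCast_zmod_eq_zero_iff_dvd]
      rw [← ZMod.intCast_zmod_eq_zero_iff_dvd] at h1
      rw [← h1, Int.cast_mul, Int.cast_prod, Int.cast_prod, Int.cast_pow]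
      conv_lhs =>
        rw [← Finset.card_range i, ← Finset.prod_const, Finset.card_range,
          ← Finset.prod_mul_distrib]
      refine Finset.prod_congr rfl fun k _ => ?_
      push_cast
      linear_combination (k : ZMod b) * hxq
    have hcx : IsCoprime (b : ℤ) (x ^ i) := by
      refine IsCoprime.pow_right ⟨y, q, ?_⟩
      linear_combination hxy
    exact hcx.dvd_of_dvd_mul_left h2
  rw [hb]
  push_cast
  exact mul_dvd_mul (by exact_mod_cast ha2) hbd

end CM68
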