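import Mathlib

/-!
# Z0: two polynomials with a periodic quotient are proportional (ONLY MATHLIB, MEDIUM, 25 min)

Plan: if `r(y + h) = 0` for some `y` beyond all zeros ... simply: `r ≠ 0` has finitely many zeros, choose `y₀`
larger than all of them (e.g. from `Polynomial.eventually_no_roots`, or a bound of the finite set of roots), so
`r(y₀ + k h) ≠ 0` for all `k : ℕ`.  Put `c = p(y₀) / r(y₀)`.  By induction on `k`:
`p(y₀ + k h) = c r(y₀ + k h)` (evaluate `heq` at `y₀ + k h`, `taylor_eval : (taylor h p).eval y = p.eval (y + h)`).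
So `p - C c * r` has infinitely many zeros (`Polynomial.eq_zero_of_infinite_isRoot`; `k ↦ y₀ + k h` is
injective), so it is `0`.
-/

namespace CM68

open Finset Polynomial

theorem ratio_const {h : ℝ} (hh : 0 < h) {p r : ℝ[X]} (hr : r ≠ 0)
    (heq : taylor h p * r = p * taylor h r) : ∃ c : ℝ, p = C c * r := by
  obtain ⟨y0, hy0⟩ : ∃ y0 : ℝ, ∀ y, y0 ≤ y → r.eval y ≠ 0 := by
    obtain ⟨B, hB⟩ := r.roots.toFinset.finite_toSet.bddAbove
    refine ⟨B + 1, fun y hy h0 => ?_⟩
    have h1 : y ∈ (r.roots.toFinset : Set ℝ) := by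
      rw [Finset.mem_coe, Multiset.mem_toFinset, mem_roots hr]
      exact h0
    have h2 := hB h1
    linarith
  have key : ∀ k : ℕ, p.eval (y0 + k * h) =
      p.eval y0 / r.eval y0 * r.eval (y0 + k * h) := by
    intro k
    induction k with
    | zero =>
      have h1 := hy0 y0 le_rfl
      simp only [Nat.cast_zero, zero_mul, add_zero]
      field_simp
    | succ k ih =>
      have h1 := congrArg (eval (y0 + k * h)) heq
      rw [eval_mul, eval_mul, taylor_eval, taylor_eval, ih] at h1
      have h2 : r.eval (y0 + k * h) ≠ 0 := hy0 _ (by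
        have : 0 ≤ (k : ℝ) * h := by positivity
        linarith)
      have h3 : y0 + ((k + 1 : ℕ) : ℝ) * h = y0 + k * h + h := by
        push_cast
        ring
      rw [h3]
      apply mul_right_cancel₀ h2
      rw [h1]
      ring
  refine ⟨p.eval y0 / r.eval y0, ?_⟩
  rw [← sub_eq_zero]
  apply eq_zero_of_infinite_isRoot
  refine Set.infinite_of_injective_forall_mem (f := fun k : ℕ => y0 + k * h) ?_ ?_
  · intro a b hab
    have h1 : (a : ℝ) * h = b * h := by
      simpa using hab
    exact_mod_cast mul_right_cancel₀ hh.ne' h1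
  · intro k
    change eval (y0 + k * h) (p - C (p.eval y0 / r.eval y0) * r) = 0
    rw [eval_sub, eval_mul, eval_C, key k, sub_self]

end CM68
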