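import Pool.Agent.LibCM68.Z0

/-!
# Row Z1: the shift on the field of rational functions (SHORT/MEDIUM, ONLY MATHLIB + Z0)

Plan: `SG_alg`: `IsFractionRing.ringEquivOfRingEquiv_algebraMap`; `SG_real`: `algebraMap ℝ (FractionRing ℝ[X]) r =
algebraMap ℝ[X] _ (C r)` (`IsScalarTower.algebraMap_apply`), `taylor_C`.
`SG_const`: `g = p / r` (`IsFractionRing.div_surjective` / `IsLocalization.mk'`), `SG_alg` gives
`taylor h p * r = p * taylor h r` in `ℝ[X]` (`IsFractionRing.injective`; `taylor h r ≠ 0`), and `ratio_const` (file Z0,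
proved) gives `p = C c * r`.
-/

namespace CM68

open Polynomial

/-- the shift `X ↦ X + h` -/
noncomputable def SG (h : ℝ) : FractionRing ℝ[X] ≃+* FractionRing ℝ[X] :=
  IsFractionRing.ringEquivOfRingEquiv (taylorEquiv h).toRingEquiv

theorem SG_alg (h : ℝ) (p : ℝ[X]) :
    SG h (algebraMap ℝ[X] (FractionRing ℝ[X]) p) = algebraMap ℝ[X] (FractionRing ℝ[X]) (taylor h p) := by
  rw [SG, IsFractionRing.ringEquivOfRingEquiv_algebraMap]
  rfl

theorem SG_real (h r : ℝ) :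
    SG h (algebraMap ℝ (FractionRing ℝ[X]) r) = algebraMap ℝ (FractionRing ℝ[X]) r := by
  rw [IsScalarTower.algebraMap_apply ℝ ℝ[X] (FractionRing ℝ[X]), SG_alg]
  congr 1
  exact taylor_C h r

theorem SG_const {h : ℝ} (hh : 0 < h) (g : FractionRing ℝ[X]) (hg : SG h g = g) :
    ∃ r : ℝ, g = algebraMap ℝ (FractionRing ℝ[X]) r := by
  obtain ⟨p, r, hr, rfl⟩ := IsFractionRing.div_surjective (A := ℝ[X]) g
  have hr0 : r ≠ 0 := nonZeroDivisors.ne_zero hr
  have hinj := IsFractionRing.injective ℝ[X] (FractionRing ℝ[X])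
  have ht0 : taylor h r ≠ 0 := by
    intro h0
    exact hr0 (taylor_injective h (by rw [h0, map_zero]))
  have h1 : algebraMap ℝ[X] (FractionRing ℝ[X]) r ≠ 0 := fun h0 =>
    hr0 (hinj (by rw [h0, map_zero]))
  have h2 : algebraMap ℝ[X] (FractionRing ℝ[X]) (taylor h r) ≠ 0 := fun h0 =>
    ht0 (hinj (by rw [h0, map_zero]))
  rw [map_div₀, SG_alg, SG_alg, div_eq_div_iff h2 h1, ← map_mul, ← map_mul] at hg
  obtain ⟨c, hc⟩ := ratio_const hh hr0 (hinj hg)
  refine ⟨c, ?_⟩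
  rw [hc, map_mul, mul_div_assoc, div_self h1, mul_one,
    IsScalarTower.algebraMap_apply ℝ ℝ[X] (FractionRing ℝ[X])]
  rfl

end CM68
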