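import Pool.Agent.LibCM68.Z1

/-!
# Row Z2: the functions `(X + c)^(-k)` are not summable (MEDIUM/STRONG, ONLY MATHLIB + Z1)

Plan: call `g` regular at `a : ℝ` if `g = p / r` with `r.eval a ≠ 0` (`g * algebraMap r = algebraMap p`).  Regular
elements at `a` are closed under sums, differences and products with constants; `SG h g` is regular at `a` iff `g` is
regular at `a + h` (`SG_alg`, `taylor_eval`); every `g` is regular outside a finite set (roots of a denominator);
`(X + c)^(-k)` is regular at every `a ≠ -c`; and if `∑_{k ∈ J} a_k (X + c)^(-k)` plus something regular at `-c` is regular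
at `-c` then all `a_k = 0` (multiply by `(X + c)^m`, `m` the largest `k` with `a_k ≠ 0`, `m ≥ 1`:
`p * (X+c)^m = r * ∑ a_k (X+c)^(m-k)`, evaluate at `-c`: `0 = r(-c) * a_m`).
Suppose some `a (k, c) ≠ 0`.  Then the right side is not regular at `-c`, and it is regular at all the points `-c + m h`,
`m ≠ 0` an integer (`-c + m h = -c'` would give `c - c' = m h`, `|c - c'| < h`).  So `g` is not regular at `-c + h` or at `-c`.
The set `{m : ℤ | g not regular at -c + m h}` is finite and not empty: let `M` be its maximum and `μ` its minimum.  At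
`-c + M h` `g` is not regular and `SG h g` is, so the right side is not regular: `M = 0`.  At `-c + (μ - 1) h` `SG h g` is
not regular and `g` is, so `μ - 1 = 0`.  So `μ = 1 > 0 = M`, a contradiction.
(Other way: evaluation and limits as in HZ7_E2.lean / LibHZ6Z R2.)
-/

namespace CM68

open Polynomial

/-- `g` is regular at `y`. -/
def Z2_Reg (y : ℝ) (g : FractionRing ℝ[X]) : Prop :=
  ∃ p r : ℝ[X], r.eval y ≠ 0 ∧
    g * algebraMap ℝ[X] (FractionRing ℝ[X]) r = algebraMap ℝ[X] (FractionRing ℝ[X]) p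

theorem Z2_add {y : ℝ} {g g' : FractionRing ℝ[X]} (h : Z2_Reg y g) (h' : Z2_Reg y g') :
    Z2_Reg y (g + g') := by
  obtain ⟨p, r, hr, e⟩ := h
  obtain ⟨p', r', hr', e'⟩ := h'
  refine ⟨p * r' + p' * r, r * r', by rw [eval_mul]; exact mul_ne_zero hr hr', ?_⟩
  simp only [map_mul, map_add]
  rw [← e, ← e']
  ring

theorem Z2_real (y r : ℝ) : Z2_Reg y (algebraMap ℝ (FractionRing ℝ[X]) r) := by
  refine ⟨C r, 1, by simp, ?_⟩
  rw [map_one, mul_one, IsScalarTower.algebraMap_apply ℝ ℝ[X] (FractionRing ℝ[X])]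
  rfl

theorem Z2_mul {y : ℝ} {g g' : FractionRing ℝ[X]} (h : Z2_Reg y g) (h' : Z2_Reg y g') :
    Z2_Reg y (g * g') := by
  obtain ⟨p, r, hr, e⟩ := h
  obtain ⟨p', r', hr', e'⟩ := h'
  refine ⟨p * p', r * r', by rw [eval_mul]; exact mul_ne_zero hr hr', ?_⟩
  simp only [map_mul]
  rw [← e, ← e']
  ring

theorem Z2_sub {y : ℝ} {g g' : FractionRing ℝ[X]} (h : Z2_Reg y g) (h' : Z2_Reg y g') :
    Z2_Reg y (g - g') := by
  have h1 := Z2_add h (Z2_mul (Z2_real y (-1)) h')
  have h2 : g + algebraMap ℝ (FractionRing ℝ[X]) (-1) * g' = g - g' := by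
    rw [map_neg, map_one]
    ring
  rwa [h2] at h1

theorem Z2_sum {y : ℝ} {ι : Type*} (s : Finset ι) (f : ι → FractionRing ℝ[X])
    (h : ∀ i ∈ s, Z2_Reg y (f i)) : Z2_Reg y (∑ i ∈ s, f i) := by
  classical
  induction s using Finset.induction_on with
  | empty =>
    rw [Finset.sum_empty]
    have := Z2_real y 0
    rwa [map_zero] at this
  | insert i s hi ih =>
    rw [Finset.sum_insert hi]
    exact Z2_add (h i (Finset.mem_insert_self i s))
      (ih fun j hj => h j (Finset.mem_insert_of_mem hj))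

theorem Z2_sh {h y : ℝ} {g : FractionRing ℝ[X]} (hg : Z2_Reg (y + h) g) : Z2_Reg y (SG h g) := by
  obtain ⟨p, r, hr, e⟩ := hg
  refine ⟨taylor h p, taylor h r, by rwa [taylor_eval], ?_⟩
  rw [← SG_alg, ← SG_alg, ← map_mul, e]

theorem Z2_hs {h y : ℝ} {g : FractionRing ℝ[X]} (hg : Z2_Reg y (SG h g)) : Z2_Reg (y + h) g := by
  obtain ⟨p, r, hr, e⟩ := hg
  refine ⟨taylor (-h) p, taylor (-h) r, by rwa [taylor_eval, add_neg_cancel_right], ?_⟩
  apply (SG h).injective
  rw [map_mul, SG_alg, SG_alg, taylor_taylor, taylor_taylor, add_neg_cancel, taylor_zero,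
    taylor_zero, e]

theorem Z2_fin (g : FractionRing ℝ[X]) : {y : ℝ | ¬ Z2_Reg y g}.Finite := by
  obtain ⟨p, r, hr, e⟩ := IsFractionRing.div_surjective (A := ℝ[X]) g
  have hr0 : r ≠ 0 := nonZeroDivisors.ne_zero hr
  refine Set.Finite.subset (r.roots.toFinset.finite_toSet) fun y hy => ?_
  rw [Finset.mem_coe, Multiset.mem_toFinset, mem_roots hr0]
  by_contra h
  refine hy ⟨p, r, h, ?_⟩
  have h1 : algebraMap ℝ[X] (FractionRing ℝ[X]) r ≠ 0 := by
    rw [Ne, FaithfulSMul.algebraMap_eq_zero_iff ℝ[X] (FractionRing ℝ[X])]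
    exact hr0
  rw [← e, div_mul_cancel₀ _ h1]

theorem Z2_L (w : ℝ) : algebraMap ℝ[X] (FractionRing ℝ[X]) (X + C w) ≠ 0 := by
  rw [Ne, FaithfulSMul.algebraMap_eq_zero_iff ℝ[X] (FractionRing ℝ[X])]
  exact X_add_C_ne_zero w

theorem Z2_inv {w y : ℝ} (k : ℕ) (h : y + w ≠ 0) :
    Z2_Reg y (1 / algebraMap ℝ[X] (FractionRing ℝ[X]) (X + C w) ^ k) := by
  refine ⟨1, (X + C w) ^ k, by simpa using pow_ne_zero k h, ?_⟩
  rw [map_pow, map_one, one_div, inv_mul_cancel₀ (pow_ne_zero k (Z2_L w))]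

/-- the principal part determines the coefficients -/
theorem Z2_key (w : ℝ) (s : Finset ℕ) (hs : ∀ k ∈ s, 1 ≤ k) (a : ℕ → ℝ)
    (h : Z2_Reg (-w) (∑ k ∈ s, algebraMap ℝ (FractionRing ℝ[X]) (a k) *
      (1 / algebraMap ℝ[X] (FractionRing ℝ[X]) (X + C w) ^ k))) :
    ∀ k ∈ s, a k = 0 := by
  classical
  by_contra hcon
  push Not at hcon
  set s' := s.filter fun k => a k ≠ 0 with hs'
  have hne : s'.Nonempty := by
    obtain ⟨k, hk, hk0⟩ := hcon
    exact ⟨k, Finset.mem_filter.2 ⟨hk, hk0⟩⟩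
  set m := s'.max' hne with hm
  have hms : m ∈ s' := s'.max'_mem hne
  have hm1 : 1 ≤ m := hs m (Finset.mem_filter.1 hms).1
  obtain ⟨P, r, hr, e⟩ := h
  set L := algebraMap ℝ[X] (FractionRing ℝ[X]) (X + C w) with hL
  have hL0 : L ≠ 0 := Z2_L w
  set Q : ℝ[X] := ∑ k ∈ s', C (a k) * (X + C w) ^ (m - k) with hQ
  have h1 : (∑ k ∈ s, algebraMap ℝ (FractionRing ℝ[X]) (a k) * (1 / L ^ k)) * L ^ m =
      algebraMap ℝ[X] (FractionRing ℝ[X]) Q := by
    rw [hQ, map_sum, Finset.sum_mul, ← Finset.sum_filter_add_sum_filter_not s (fun k => a k ≠ 0),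
      ← hs']
    have h2 : ∑ k ∈ s.filter (fun k => ¬ a k ≠ 0),
        algebraMap ℝ (FractionRing ℝ[X]) (a k) * (1 / L ^ k) * L ^ m = 0 := by
      refine Finset.sum_eq_zero fun k hk => ?_
      have : a k = 0 := by simpa using (Finset.mem_filter.1 hk).2
      rw [this, map_zero, zero_mul, zero_mul]
    rw [h2, add_zero]
    refine Finset.sum_congr rfl fun k hk => ?_
    have hkm : k ≤ m := s'.le_max' k hk
    rw [map_mul, map_pow, IsScalarTower.algebraMap_apply ℝ ℝ[X] (FractionRing ℝ[X])]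
    have h3 : L ^ m = L ^ k * L ^ (m - k) := by rw [← pow_add, Nat.add_sub_cancel' hkm]
    rw [h3, one_div]
    have h4 : L ^ k ≠ 0 := pow_ne_zero k hL0
    have h5 : (L ^ k)⁻¹ * (L ^ k * L ^ (m - k)) = L ^ (m - k) := by
      rw [← mul_assoc, inv_mul_cancel₀ h4, one_mul]
    rw [mul_assoc, h5]
    rfl
  have h2 : Q * r = P * (X + C w) ^ m := by
    apply IsFractionRing.injective ℝ[X] (FractionRing ℝ[X])
    rw [map_mul, map_mul, map_pow, ← h1, ← e]
    ring
  have h3 := congrArg (eval (-w)) h2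
  rw [eval_mul, eval_mul, eval_pow, eval_add, eval_X, eval_C, neg_add_cancel,
    zero_pow (by omega), mul_zero] at h3
  have h4 : Q.eval (-w) = a m := by
    rw [hQ, eval_finsetSum, Finset.sum_eq_single_of_mem m hms]
    · simp
    · intro k hk hkm
      have h5 : k < m := lt_of_le_of_ne (s'.le_max' k hk) hkm
      rw [eval_mul, eval_pow, eval_add, eval_X, eval_C, eval_C, neg_add_cancel,
        zero_pow (by omega), mul_zero]
  rw [h4] at h3
  exact (mul_ne_zero (Finset.mem_filter.1 hms).2 hr) h3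

theorem nonsum {h : ℝ} (hh : 0 < h) (b : ℝ) (Φ : Finset (ℕ × ℕ)) (hk : ∀ p ∈ Φ, 1 ≤ p.1)
    (hc : ∀ p ∈ Φ, (p.2 : ℝ) < h) (a : ℕ × ℕ → ℝ) (g : FractionRing ℝ[X])
    (hg : SG h g - g = ∑ p ∈ Φ, algebraMap ℝ (FractionRing ℝ[X]) (a p) *
      (1 / algebraMap ℝ[X] (FractionRing ℝ[X]) (X + C ((p.2 : ℝ) + b)) ^ p.1)) :
    ∀ p ∈ Φ, a p = 0 := by
  classical
  by_contra hcon
  push Not at hcon
  obtain ⟨p₀, hp₀, ha₀⟩ := hcon
  set w : ℝ := (p₀.2 : ℝ) + b with hw
  set T : ℕ × ℕ → FractionRing ℝ[X] := fun p => algebraMap ℝ (FractionRing ℝ[X]) (a p) *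
      (1 / algebraMap ℝ[X] (FractionRing ℝ[X]) (X + C ((p.2 : ℝ) + b)) ^ p.1) with hT
  have hTr : ∀ p ∈ Φ, ∀ y : ℝ, y + ((p.2 : ℝ) + b) ≠ 0 → Z2_Reg y (T p) := fun p _ y hy =>
    Z2_mul (Z2_real y (a p)) (Z2_inv p.1 hy)
  -- not regular at `-w`
  have hN : ¬ Z2_Reg (-w) (SG h g - g) := by
    intro hreg
    rw [hg, ← Finset.sum_filter_add_sum_filter_not Φ (fun p => p.2 = p₀.2)] at hreg
    have h1 : Z2_Reg (-w) (∑ p ∈ Φ.filter (fun p => ¬ p.2 = p₀.2), T p) := by
      refine Z2_sum _ _ fun p hp => ?_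
      refine hTr p (Finset.mem_filter.1 hp).1 _ ?_
      have hp2 := (Finset.mem_filter.1 hp).2
      intro h0
      apply hp2
      have : (p.2 : ℝ) = p₀.2 := by rw [hw] at h0; linarith
      exact_mod_cast this
    have h2 := Z2_sub hreg h1
    simp only [hT] at h2
    rw [add_sub_cancel_right] at h2
    set s : Finset ℕ := (Φ.filter fun p => p.2 = p₀.2).image Prod.fst with hs
    have h3 : ∑ p ∈ Φ.filter (fun p => p.2 = p₀.2), algebraMap ℝ (FractionRing ℝ[X]) (a p) *
        (1 / algebraMap ℝ[X] (FractionRing ℝ[X]) (X + C ((p.2 : ℝ) + b)) ^ p.1) =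
        ∑ k ∈ s, algebraMap ℝ (FractionRing ℝ[X]) (a (k, p₀.2)) *
          (1 / algebraMap ℝ[X] (FractionRing ℝ[X]) (X + C w) ^ k) := by
      rw [hs, Finset.sum_image]
      · refine Finset.sum_congr rfl fun p hp => ?_
        have hp2 := (Finset.mem_filter.1 hp).2
        have hpp : (p.1, p₀.2) = p := by rw [← hp2]
        rw [hpp, hw, hp2]
      · intro p hp p' hp' hpp
        have hp2 := (Finset.mem_filter.1 (Finset.mem_coe.1 hp)).2
        have hp2' := (Finset.mem_filter.1 (Finset.mem_coe.1 hp')).2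
        exact Prod.ext hpp (hp2.trans hp2'.symm)
    rw [h3] at h2
    have h4 := Z2_key w s (by
      intro k hks
      obtain ⟨p, hp, rfl⟩ := Finset.mem_image.1 hks
      exact hk p (Finset.mem_filter.1 hp).1) (fun k => a (k, p₀.2)) h2 p₀.1
      (Finset.mem_image.2 ⟨p₀, Finset.mem_filter.2 ⟨hp₀, rfl⟩, rfl⟩)
    exact ha₀ h4
  -- regular at the other points
  have hR : ∀ m : ℤ, m ≠ 0 → Z2_Reg (-w + m * h) (SG h g - g) := by
    intro m hm
    rw [hg]
    refine Z2_sum _ _ fun p hp => hTr p hp _ fun h0 => ?_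
    have h1 : (m : ℝ) * h = p₀.2 - p.2 := by rw [hw] at h0; linarith
    have h2 : (p₀.2 : ℝ) - p.2 < h := by
      have := hc p₀ hp₀
      have h3 : (0 : ℝ) ≤ p.2 := Nat.cast_nonneg _
      linarith
    have h3 : -h < (p₀.2 : ℝ) - p.2 := by
      have := hc p hp
      have h3 : (0 : ℝ) ≤ p₀.2 := Nat.cast_nonneg _
      linarith
    rw [← h1] at h2 h3
    have h4 : (m : ℝ) < 1 := by
      by_contra h5
      push Not at h5
      nlinarith
    have h5 : (-1 : ℝ) < m := by
      by_contra h5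
      push Not at h5
      nlinarith
    have h6 : m < 1 := by exact_mod_cast h4
    have h7 : -1 < m := by exact_mod_cast h5
    omega
  -- the bad integers
  have hfin : {m : ℤ | ¬ Z2_Reg (-w + m * h) g}.Finite := by
    refine Set.Finite.preimage (f := fun m : ℤ => -w + (m : ℝ) * h) ?_ (Z2_fin g)
    intro m _ m' _ hmm
    have h1 : (m : ℝ) * h = m' * h := by simpa using hmm
    exact_mod_cast mul_right_cancel₀ hh.ne' h1
  set Z := hfin.toFinset with hZ
  have hmem : ∀ m : ℤ, m ∈ Z ↔ ¬ Z2_Reg (-w + m * h) g := fun m => by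
    rw [hZ, Set.Finite.mem_toFinset]
    rfl
  have hne : Z.Nonempty := by
    by_cases h0 : (0 : ℤ) ∈ Z
    · exact ⟨0, h0⟩
    · refine ⟨1, (hmem 1).2 fun h1 => hN ?_⟩
      have h2 : Z2_Reg (-w) g := by
        have := not_not.1 (mt (hmem 0).2 h0)
        simpa using this
      refine Z2_sub (Z2_sh ?_) h2
      simpa using h1
  -- the maximum
  have hM := Z.max'_mem hne
  set M := Z.max' hne with hMd
  have hM1 : M + 1 ∉ Z := fun h1 => by
    have := Z.le_max' (M + 1) h1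
    omega
  have hM0 : M = 0 := by
    by_contra hM0
    refine (hmem M).1 hM ?_
    have h1 := not_not.1 (mt (hmem (M + 1)).2 hM1)
    have h2 : Z2_Reg (-w + M * h) (SG h g) := by
      refine Z2_sh ?_
      have : -w + (M : ℝ) * h + h = -w + ((M + 1 : ℤ) : ℝ) * h := by push_cast; ring
      rwa [this]
    have h3 := Z2_sub h2 (hR M hM0)
    rwa [sub_sub_cancel] at h3
  -- the minimum
  have hm := Z.min'_mem hne
  set μ := Z.min' hne with hmd
  have hm1 : μ - 1 ∉ Z := fun h1 => by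
    have := Z.min'_le (μ - 1) h1
    omega
  have hm0 : μ - 1 = 0 := by
    by_contra hm0
    refine (hmem μ).1 hm ?_
    have h1 := not_not.1 (mt (hmem (μ - 1)).2 hm1)
    have h2 := Z2_add (hR (μ - 1) hm0) h1
    rw [sub_add_cancel] at h2
    have h3 := Z2_hs h2
    have : -w + ((μ - 1 : ℤ) : ℝ) * h + h = -w + (μ : ℝ) * h := by push_cast; ring
    rwa [this] at h3
  have h9 : μ ≤ M := Z.min'_le M hM
  omega

end CM68
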